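import Pool.Agent.Run7.h288.Lin

/-!
The analytic core: arrays `a i j` and approximately additive dual functionals cannot exist.
-/

set_option autoImplicit false

open Finset

namespace Run7.h288

variable {I J : Type} [Fintype I] [DecidableEq I] [Fintype J]

/-- the random combination -/
noncomputable def yy (a : I → J → ℝ) (ε : I → Bool) (j : J) : ℝ := ∑ i, sg (ε i) * a i j

/-- truncation below -/
noncomputable def sm (d x : ℝ) : ℝ := (1 - ind (d < |x|)) * x

/-- truncation above -/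
noncomputable def lg (d x : ℝ) : ℝ := ind (d < |x|) * x

theorem sm_add_lg (d x : ℝ) : sm d x + lg d x = x := by unfold sm lg; ring

theorem abs_sm_le {d : ℝ} (hd : 0 ≤ d) (x : ℝ) : |sm d x| ≤ d := by
  unfold sm
  by_cases h : d < |x|
  · rw [ind_true h]; simpa using hd
  · rw [ind_false h]; simpa using not_lt.mp h

theorem abs_sm_le_abs (d x : ℝ) : |sm d x| ≤ |x| := by
  unfold sm
  by_cases h : d < |x|
  · rw [ind_true h]; simp
  · rw [ind_false h]; simp

theorem sm_sq_le (d x : ℝ) : sm d x ^ 2 ≤ x ^ 2 := sq_le_sq.mpr (abs_sm_le_abs d x)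

theorem abs_lg_le_sq_div {d : ℝ} (hd : 0 < d) (x : ℝ) : |lg d x| ≤ x ^ 2 / d := by
  unfold lg
  by_cases h : d < |x|
  · rw [ind_true h, one_mul, le_div_iff₀ hd, ← sq_abs x]
    nlinarith [abs_nonneg x]
  · rw [ind_false h]; simp; positivity

/-- the hypotheses of the core -/
structure Dat (I J : Type) [Fintype I] [DecidableEq I] [Fintype J] (m : ℕ)
    (l A B C₁ C₄ c₀ θ L D s : ℝ) (a : I → J → ℝ) (τ z : (I → Bool) → J → ℝ) : Prop where
  hm : 0 < m
  hJ : (Fintype.card J : ℝ) = l ^ 2 * m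
  hl : 1 ≤ l
  hA0 : 0 < A
  hB0 : 0 < B
  hAB : A * B = C₁
  hC₁ : 1 ≤ C₁
  hC₄ : 0 < C₄
  hc₀ : 0 < c₀
  hc₀' : c₀ ≤ 1
  hθ : 0 < θ
  hL : 0 < L
  hD : 0 < D
  hs0 : 1 / (2 * l) ≤ s
  hs1 : s ≤ 2 * l
  hsA : s ≤ A
  hs : ∑ i, Av (fun j => a i j ^ 2) = s ^ 2
  hA : ∀ ε : I → Bool, ∀ S : Finset J, S.card ≤ m → ∑ j ∈ S, |yy a ε j| ≤ m * A
  hτ1 : ∀ ε j, |τ ε j| ≤ l ^ 2 * B
  hτ2 : ∀ ε, Av (fun j => |τ ε j|) ≤ B
  hz : ∀ ε, Av (fun j => z ε j ^ 2) ≤ B ^ 2
  hodd : ∀ ε j, τ (cpl ε) j = - τ ε j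
  hDD : ∀ S ε η, Av (fun j => DD (fun ε => τ ε j) S ε η ^ 2) ≤ (8 * C₄ * B) ^ 2
  h1 : ∀ ε, Av (fun j => (τ ε j + z ε j) * yy a ε j) = 1
  hW : ∀ p : J → Prop, ∑ j, ind (p j) ≤ θ * Fintype.card J → ∀ i,
    c₀ * ∑ j, a i j ^ 2 ≤ ∑ j, (1 - ind (p j)) * a i j ^ 2
  hmid : ∑ i, Av (fun j => ind (1 / D < |a i j| ∧ |a i j| ≤ D) * a i j ^ 2) ≤ 1 / L ^ 2

namespace Dat

variable {m : ℕ} {l A B C₁ C₄ c₀ θ L D s : ℝ} {a : I → J → ℝ} {τ z : (I → Bool) → J → ℝ}

theorem mpos (h : Dat I J m l A B C₁ C₄ c₀ θ L D s a τ z) : (0:ℝ) < m := by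
  exact_mod_cast h.hm

theorem Npos (h : Dat I J m l A B C₁ C₄ c₀ θ L D s a τ z) : (0:ℝ) < Fintype.card J := by
  rw [h.hJ]
  have := h.mpos
  have := h.hl
  positivity

theorem nonempty (h : Dat I J m l A B C₁ C₄ c₀ θ L D s a τ z) : Nonempty J := by
  have := h.Npos
  exact Fintype.card_pos_iff.mp (by exact_mod_cast this)

/-- at most `m` coordinates of a random combination are large -/
theorem few_large (h : Dat I J m l A B C₁ C₄ c₀ θ L D s a τ z) (ε : I → Bool) :
    ∑ j, ind (2 * A ≤ |yy a ε j|) ≤ m := by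
  classical
  by_contra hcon
  push Not at hcon
  set F := univ.filter (fun j => 2 * A ≤ |yy a ε j|) with hF
  have h1 : ∑ j, ind (2 * A ≤ |yy a ε j|) = F.card := by
    rw [hF, card_filter]
    push_cast
    apply sum_congr rfl
    intro j _
    by_cases hj : 2 * A ≤ |yy a ε j|
    · rw [ind_true hj, if_pos hj]
    · rw [ind_false hj, if_neg hj]
  rw [h1] at hcon
  have h2 : m ≤ F.card := by
    have : m < F.card := by exact_mod_cast hcon
    omega
  obtain ⟨S, hS, hcard⟩ := exists_subset_card_eq h2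
  have h3 := h.hA ε S hcard.le
  have h4 : (m : ℝ) * (2 * A) ≤ ∑ j ∈ S, |yy a ε j| := by
    rw [← hcard, ← nsmul_eq_mul]
    apply card_nsmul_le_sum
    intro j hj
    have := hS hj
    rw [hF, mem_filter] at this
    exact this.2
  have := h.mpos
  have := h.hA0
  nlinarith [mul_pos h.mpos h.hA0]

/-- `L1` bound on large sets of coordinates -/
theorem sum_le_of_finset (h : Dat I J m l A B C₁ C₄ c₀ θ L D s a τ z) (ε : I → Bool) (F : Finset J) :
    ∑ j ∈ F, |yy a ε j| ≤ (F.card + m) * A := by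
  classical
  induction hn : F.card using Nat.strong_induction_on generalizing F with
  | _ n ih =>
    rcases Nat.lt_or_ge m F.card with h1 | h1
    · obtain ⟨S, hS, hcard⟩ := exists_subset_card_eq h1.le
      have h2 : (F \ S).card = F.card - m := by rw [card_sdiff_of_subset hS, hcard]
      have h3 := ih (F \ S).card (by rw [h2, ← hn]; have := h.hm; omega) (F \ S) rfl
      have h4 := h.hA ε S hcard.le
      have h5 : ∑ j ∈ F, |yy a ε j| = ∑ j ∈ F \ S, |yy a ε j| + ∑ j ∈ S, |yy a ε j| :=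
        (sum_sdiff hS).symm
      rw [h5]
      have h6 : ((F \ S).card : ℝ) = n - m := by
        rw [h2, ← hn, Nat.cast_sub h1.le]
      rw [h6] at h3
      linarith
    · have h4 := h.hA ε F h1
      have : (0:ℝ) ≤ n * A := mul_nonneg (Nat.cast_nonneg _) h.hA0.le
      linarith

theorem sum_le_of_ind (h : Dat I J m l A B C₁ C₄ c₀ θ L D s a τ z) (ε : I → Bool) (p : J → Prop) :
    ∑ j, ind (p j) * |yy a ε j| ≤ (∑ j, ind (p j) + m) * A := by
  classical
  have h1 := h.sum_le_of_finset ε (univ.filter p)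
  have h2 : ((univ.filter p).card : ℝ) = ∑ j, ind (p j) := by
    rw [card_filter]
    push_cast
    apply sum_congr rfl
    intro j _
    by_cases hj : p j
    · rw [ind_true hj, if_pos hj]
    · rw [ind_false hj, if_neg hj]
  have h3 : ∑ j ∈ univ.filter p, |yy a ε j| = ∑ j, ind (p j) * |yy a ε j| := by
    rw [sum_filter]
    apply sum_congr rfl
    intro j _
    by_cases hj : p j
    · rw [ind_true hj, if_pos hj, one_mul]
    · rw [ind_false hj, if_neg hj, zero_mul]
  rw [h2, h3] at h1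
  exact h1

/-- the square function of the small coefficients -/
noncomputable def hh (D : ℝ) (a : I → J → ℝ) (j : J) : ℝ := √(∑ i, sm (1 / D) (a i j) ^ 2)

omit [DecidableEq I] [Fintype J] in
theorem hh_sq (D : ℝ) (a : I → J → ℝ) (j : J) : hh D a j ^ 2 = ∑ i, sm (1 / D) (a i j) ^ 2 :=
  Real.sq_sqrt (sum_nonneg fun _ _ => sq_nonneg _)

omit [DecidableEq I] [Fintype J] in
theorem hh_nonneg (D : ℝ) (a : I → J → ℝ) (j : J) : 0 ≤ hh D a j := Real.sqrt_nonneg _

/-- **Counting lemma**: few coordinates have a large square function. -/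
theorem count (h : Dat I J m l A B C₁ C₄ c₀ θ L D s a τ z) (T : ℝ) (hT : 1 ≤ T) (G : J → Prop)
    (hG1 : ∀ j, G j → ∀ i, |a i j| ≤ D) (hG2 : ∀ j, G j → 4 * A ≤ T * hh D a j)
    (hG3 : ∀ j, G j → 1 / D ≤ hh D a j / (4 * T)) :
    pT T * ∑ j, ind (G j) ≤ m + Fintype.card J * (1 / L ^ 2) / (4 * A ^ 2) := by
  have hA0 := h.hA0
  have hD0 := h.hD
  -- for each coordinate in `G`
  have key : ∀ j, pT T * ind (G j) ≤ Av (fun ε : I → Bool => ind (2 * A ≤ |yy a ε j|)) +
      (∑ i, ind (1 / D < |a i j| ∧ |a i j| ≤ D) * a i j ^ 2) / (4 * A ^ 2) := by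
    intro j
    have hnn : 0 ≤ (∑ i, ind (1 / D < |a i j| ∧ |a i j| ≤ D) * a i j ^ 2) / (4 * A ^ 2) :=
      div_nonneg (sum_nonneg fun i _ => mul_nonneg (ind_nonneg _) (sq_nonneg _)) (by positivity)
    by_cases hj : G j
    · rw [ind_true hj, mul_one]
      have hpos : 0 < hh D a j := by
        have h3 := hG3 j hj
        have h4 : 0 < hh D a j / (4 * T) := lt_of_lt_of_le (by positivity) h3
        by_contra hcon
        push Not at hcon
        have : hh D a j / (4 * T) ≤ 0 := div_nonpos_of_nonpos_of_nonneg hcon (by linarith)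
        linarith
      have h5 := lemT (fun i => sm (1 / D) (a i j)) (hh D a j) T hT hpos (hh_sq D a j)
        (fun i => (abs_sm_le (by positivity) _).trans (hG3 j hj))
      refine h5.trans ?_
      have h6 : Av (fun ε : I → Bool => ind (T * hh D a j ≤ ∑ i, sg (ε i) * sm (1 / D) (a i j))) ≤
          Av (fun ε : I → Bool => ind (2 * A ≤ |yy a ε j|) +
            (∑ i, sg (ε i) * lg (1 / D) (a i j)) ^ 2 / (4 * A ^ 2)) := by
        apply Av_mono
        intro ε
        by_cases h7 : T * hh D a j ≤ ∑ i, sg (ε i) * sm (1 / D) (a i j)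
        · rw [ind_true h7]
          by_cases h8 : 2 * A ≤ |yy a ε j|
          · rw [ind_true h8]
            have : 0 ≤ (∑ i, sg (ε i) * lg (1 / D) (a i j)) ^ 2 / (4 * A ^ 2) := by positivity
            linarith
          · rw [ind_false h8, zero_add, le_div_iff₀ (by positivity), one_mul]
            push Not at h8
            have h9 : yy a ε j = ∑ i, sg (ε i) * sm (1 / D) (a i j) +
                ∑ i, sg (ε i) * lg (1 / D) (a i j) := by
              unfold yy
              rw [← sum_add_distrib]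
              apply sum_congr rfl
              intro i _
              rw [← mul_add, sm_add_lg]
            have h10 := hG2 j hj
            have h11 := (abs_lt.mp h8).2
            have h12 : 2 * A ≤ -(∑ i, sg (ε i) * lg (1 / D) (a i j)) := by linarith
            nlinarith
        · rw [ind_false h7]
          exact add_nonneg (ind_nonneg _) (by positivity)
      refine h6.trans (le_of_eq ?_)
      rw [Av_add]
      congr 1
      have h13 : (fun ε : I → Bool => (∑ i, sg (ε i) * lg (1 / D) (a i j)) ^ 2 / (4 * A ^ 2)) =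
          fun ε : I → Bool => (1 / (4 * A ^ 2)) * (∑ i, sg (ε i) * lg (1 / D) (a i j)) ^ 2 := by
        funext ε; ring
      rw [h13, Av_mul_left, Av_sum_sq]
      have h14 : ∑ i, lg (1 / D) (a i j) ^ 2 =
          ∑ i, ind (1 / D < |a i j| ∧ |a i j| ≤ D) * a i j ^ 2 := by
        apply sum_congr rfl
        intro i _
        unfold lg
        rw [mul_pow, ind_sq]
        congr 1
        by_cases h15 : 1 / D < |a i j|
        · rw [ind_true h15, ind_true ⟨h15, hG1 j hj i⟩]
        · rw [ind_false h15, ind_false (fun h => h15 h.1)]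
      rw [h14]
      ring
    · rw [ind_false hj, mul_zero]
      exact add_nonneg (Av_nonneg fun _ => ind_nonneg _) hnn
  have h2 : ∑ j, pT T * ind (G j) ≤ ∑ j, (Av (fun ε : I → Bool => ind (2 * A ≤ |yy a ε j|)) +
      (∑ i, ind (1 / D < |a i j| ∧ |a i j| ≤ D) * a i j ^ 2) / (4 * A ^ 2)) :=
    sum_le_sum fun j _ => key j
  rw [← mul_sum, sum_add_distrib, ← Av_sum, ← sum_div, sum_comm] at h2
  refine h2.trans (add_le_add ?_ ?_)
  · calc Av (fun ε : I → Bool => ∑ j, ind (2 * A ≤ |yy a ε j|)) ≤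
        Av (fun _ : I → Bool => (m:ℝ)) := Av_mono fun ε => h.few_large ε
      _ = m := Av_const _
  · apply div_le_div_of_nonneg_right _ (by positivity)
    have h3 := h.hmid
    have hN := h.Npos
    have h4 : ∑ i, ∑ j, ind (1 / D < |a i j| ∧ |a i j| ≤ D) * a i j ^ 2 =
        Fintype.card J * ∑ i, Av (fun j => ind (1 / D < |a i j| ∧ |a i j| ≤ D) * a i j ^ 2) := by
      rw [mul_sum]
      apply sum_congr rfl
      intro i _
      unfold Av
      field_simp
    rw [h4]
    exact mul_le_mul_of_nonneg_left h3 hN.le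

end Dat

end Run7.h288
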