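import Pool.Agent.Run7.h288.Final

/-!
Choice of the constants in the analytic core.
-/

set_option autoImplicit false

open Finset

namespace Run7.h288

theorem core (C₁ C₄ c₀ θ : ℝ) (hC₁ : 1 ≤ C₁) (hC₄ : 0 < C₄) (hc₀ : 0 < c₀) (hc₀' : c₀ ≤ 1)
    (hθ : 0 < θ) : ∃ l : ℕ, 1 ≤ l ∧ ∃ L D : ℕ, 1 ≤ L ∧ 1 ≤ D ∧
    ∀ (I J : Type) [Fintype I] [DecidableEq I] [Fintype J] (m : ℕ) (A B s : ℝ) (a : I → J → ℝ)
      (τ z : (I → Bool) → J → ℝ), ¬ Dat I J m (l : ℝ) A B C₁ C₄ c₀ θ (L : ℝ) (D : ℝ) s a τ z := by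
  obtain ⟨M₁, hM₁⟩ : ∃ M₁ : ℝ, M₁ = 32 * (1 + 5 * C₄) * C₁ + 1 := ⟨_, rfl⟩
  have hM₁1 : 1 ≤ M₁ := by
    rw [hM₁]
    have : 0 ≤ 32 * (1 + 5 * C₄) * C₁ := by positivity
    linarith
  have hp₁ := pT_pos (4 * M₁)
  obtain ⟨M₃, hM₃⟩ : ∃ M₃ : ℝ, M₃ = 32 * (3 / pT (4 * M₁) + 1) * C₁ + 1 := ⟨_, rfl⟩
  have hM₃1 : 1 ≤ M₃ := by
    rw [hM₃]
    have : 0 ≤ 32 * (3 / pT (4 * M₁) + 1) * C₁ := by positivity
    linarith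
  have hp₃ := pT_pos (2 * M₃)
  obtain ⟨δ, hδ⟩ : ∃ δ : ℝ, δ = 1 / (8 * M₃ ^ 2) := ⟨_, rfl⟩
  have hδ0 : 0 < δ := by rw [hδ]; positivity
  obtain ⟨γ, hγ⟩ : ∃ γ : ℝ, γ = 8 * C₁ + 80 * C₄ * C₁ / pT (2 * M₃) := ⟨_, rfl⟩
  have hγ0 : 0 < γ := by rw [hγ]; positivity
  obtain ⟨T, hT⟩ : ∃ T : ℝ, T = 8 * γ / c₀ + 1 := ⟨_, rfl⟩
  have hT1 : 1 ≤ T := by
    rw [hT]
    have : 0 ≤ 8 * γ / c₀ := by positivity
    linarith
  have hpT := pT_pos T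
  obtain ⟨l, hl⟩ := exists_nat_gt (2 / θ + 8 / (pT T * c₀) + 1)
  have hx1 : 0 < 2 / θ := by positivity
  have hx2 : 0 < 8 / (pT T * c₀) := by positivity
  have hl1 : (1:ℝ) ≤ l := by linarith
  have hl0 : (0:ℝ) < l := by linarith
  obtain ⟨L, hL⟩ := exists_nat_gt (16 * (l:ℝ) ^ 2 * C₁ + (l:ℝ) ^ 2 + 8 * (l:ℝ) ^ 2 / c₀ + 1)
  have hy1 : 0 < 16 * (l:ℝ) ^ 2 * C₁ := by positivity
  have hy2 : 0 < (l:ℝ) ^ 2 := by positivity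
  have hy3 : 0 < 8 * (l:ℝ) ^ 2 / c₀ := by positivity
  have hL1 : (1:ℝ) ≤ L := by linarith
  have hL0 : (0:ℝ) < L := by linarith
  obtain ⟨D, hD⟩ := exists_nat_gt (64 * C₁ * (l:ℝ) ^ 5 + 16 * (l:ℝ) ^ 3 * C₁ / δ +
    32 * l * M₁ ^ 2 + 2 * (l:ℝ) ^ 2 + 16 * T * l / c₀ + 8 * (l:ℝ) ^ 2 / θ + 1)
  have hz1 : 0 < 64 * C₁ * (l:ℝ) ^ 5 := by positivity
  have hz2 : 0 < 16 * (l:ℝ) ^ 3 * C₁ / δ := by positivity
  have hz3 : 0 < 32 * l * M₁ ^ 2 := by positivity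
  have hz4 : 0 < 2 * (l:ℝ) ^ 2 := by positivity
  have hz5 : 0 < 16 * T * l / c₀ := by positivity
  have hz6 : 0 < 8 * (l:ℝ) ^ 2 / θ := by positivity
  have hD1 : (1:ℝ) ≤ D := by linarith
  have hD0 : (0:ℝ) < D := by linarith
  refine ⟨l, by exact_mod_cast hl1, L, D, by exact_mod_cast hL1, by exact_mod_cast hD1, ?_⟩
  intro I J _ _ _ m A B s a τ z h
  have hLsq : (l:ℝ) ^ 4 ≤ (L:ℝ) ^ 2 := by
    calc (l:ℝ) ^ 4 = ((l:ℝ) ^ 2) ^ 2 := by ring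
      _ ≤ (L:ℝ) ^ 2 := pow_le_pow_left₀ (by positivity) (by linarith) 2
  have hγA : γ * s ≤ A := by
    apply h.A_large γ T hγ0 hT1
    · rw [hT]; linarith
    · rw [div_le_div_iff₀ hl0 (by norm_num)]
      have : 2 / θ ≤ l := by linarith
      rw [div_le_iff₀ hθ] at this
      linarith
    · have h1 : 8 * (l:ℝ) ^ 2 / θ ≤ D := by linarith
      rw [div_le_iff₀ hθ] at h1
      rw [div_le_div_iff₀ (by positivity) (by norm_num)]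
      have h2 : (D:ℝ) * θ ≤ θ * D ^ 2 := by
        have : (D:ℝ) ≤ D ^ 2 := by nlinarith
        nlinarith
      linarith
    · have h1 : 8 * (l:ℝ) ^ 2 / c₀ ≤ L := by linarith
      have : (L:ℝ) ≤ L ^ 2 := by nlinarith
      linarith
    · linarith
    · exact hLsq
    · have h1 : 8 / (pT T * c₀) < l := by linarith
      rw [div_lt_iff₀ (by positivity)] at h1
      linarith
  refine h.contra γ M₁ M₃ δ hγ0 hγA hM₁1 hM₃1 hδ0 ?_ ?_ ?_ ?_ ?_ ?_ ?_ ?_ ?_ ?_ hLsq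
  · rw [div_le_iff₀ hγ0, hγ]
    have : 0 ≤ 80 * C₄ * C₁ / pT (2 * M₃) := by positivity
    linarith
  · rw [div_le_iff₀ hD0]
    linarith
  · rw [div_le_iff₀ hL0]
    linarith
  · rw [div_le_iff₀ (by positivity)]
    have h1 : 16 * (l:ℝ) ^ 3 * C₁ / δ ≤ D := by linarith
    rw [div_le_iff₀ hδ0] at h1
    linarith
  · rw [div_le_iff₀ (by linarith), hM₁]
    linarith
  · rw [div_le_iff₀ (by linarith), hM₃]
    linarith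
  · rw [div_le_iff₀ (by positivity)]
    have h1 : 80 * C₄ * C₁ / pT (2 * M₃) ≤ γ := by
      rw [hγ]; linarith
    rw [div_le_iff₀ hp₃] at h1
    linarith
  · rw [hδ]
  · linarith
  · linarith

end Run7.h288
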