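import Mathlib

/-!
Averages over finite sets, signs, sub-Gaussian sums of signs: second and fourth moments,
exponential moments, Khinchine's inequality, a lower bound for large deviations.
-/

set_option autoImplicit false

open Finset

namespace Run7.h288

/-- average over a finite type -/
noncomputable def Av {Ω : Type*} [Fintype Ω] (f : Ω → ℝ) : ℝ := (∑ ω, f ω) / Fintype.card Ω

/-- indicator of a proposition -/
noncomputable def ind (p : Prop) : ℝ := @ite _ p (Classical.propDecidable p) 1 0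

theorem ind_true {p : Prop} (h : p) : ind p = 1 := by unfold ind; rw [if_pos h]

theorem ind_false {p : Prop} (h : ¬ p) : ind p = 0 := by unfold ind; rw [if_neg h]

theorem ind_nonneg (p : Prop) : 0 ≤ ind p := by
  by_cases h : p
  · rw [ind_true h]; norm_num
  · rw [ind_false h]

theorem ind_le_one (p : Prop) : ind p ≤ 1 := by
  by_cases h : p
  · rw [ind_true h]
  · rw [ind_false h]; norm_num

theorem ind_mono {p q : Prop} (h : p → q) : ind p ≤ ind q := by
  by_cases hp : p
  · rw [ind_true hp, ind_true (h hp)]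
  · rw [ind_false hp]; exact ind_nonneg q

theorem ind_le_add {p q r : Prop} (h : p → q ∨ r) : ind p ≤ ind q + ind r := by
  by_cases hp : p
  · rcases h hp with hq | hr
    · rw [ind_true hp, ind_true hq]; linarith [ind_nonneg r]
    · rw [ind_true hp, ind_true hr]; linarith [ind_nonneg q]
  · rw [ind_false hp]; linarith [ind_nonneg q, ind_nonneg r]

theorem ind_sq (p : Prop) : ind p ^ 2 = ind p := by
  by_cases h : p
  · rw [ind_true h]; norm_num
  · rw [ind_false h]; norm_num

theorem ind_mul_self (p : Prop) : ind p * ind p = ind p := by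
  rw [← sq, ind_sq]

section Av

variable {Ω : Type*} [Fintype Ω]

theorem Av_add (f g : Ω → ℝ) : Av (fun ω => f ω + g ω) = Av f + Av g := by
  unfold Av; rw [sum_add_distrib, add_div]

theorem Av_sub (f g : Ω → ℝ) : Av (fun ω => f ω - g ω) = Av f - Av g := by
  unfold Av; rw [sum_sub_distrib, sub_div]

theorem Av_neg (f : Ω → ℝ) : Av (fun ω => - f ω) = - Av f := by
  unfold Av; rw [sum_neg_distrib, neg_div]

theorem Av_mul_left (c : ℝ) (f : Ω → ℝ) : Av (fun ω => c * f ω) = c * Av f := by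
  unfold Av; rw [← mul_sum, mul_div_assoc]

theorem Av_mul_right (c : ℝ) (f : Ω → ℝ) : Av (fun ω => f ω * c) = Av f * c := by
  unfold Av; rw [← sum_mul]; ring

theorem Av_zero : Av (fun _ : Ω => (0 : ℝ)) = 0 := by
  unfold Av; simp

theorem Av_const [Nonempty Ω] (c : ℝ) : Av (fun _ : Ω => c) = c := by
  unfold Av
  rw [sum_const, card_univ, nsmul_eq_mul]
  have : (Fintype.card Ω : ℝ) ≠ 0 := by exact_mod_cast Fintype.card_ne_zero
  field_simp

theorem Av_mono {f g : Ω → ℝ} (h : ∀ ω, f ω ≤ g ω) : Av f ≤ Av g := by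
  unfold Av
  exact div_le_div_of_nonneg_right (sum_le_sum fun ω _ => h ω) (Nat.cast_nonneg _)

theorem Av_nonneg {f : Ω → ℝ} (h : ∀ ω, 0 ≤ f ω) : 0 ≤ Av f := by
  unfold Av
  exact div_nonneg (sum_nonneg fun ω _ => h ω) (Nat.cast_nonneg _)

theorem Av_sum {ι : Type*} (s : Finset ι) (f : ι → Ω → ℝ) :
    Av (fun ω => ∑ i ∈ s, f i ω) = ∑ i ∈ s, Av (f i) := by
  unfold Av
  rw [sum_comm, sum_div]

theorem Av_comm {Ω' : Type*} [Fintype Ω'] (f : Ω → Ω' → ℝ) :
    Av (fun ω => Av (fun ω' => f ω ω')) = Av (fun ω' => Av (fun ω => f ω ω')) := by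
  unfold Av
  rw [← sum_div, ← sum_div, sum_comm]
  ring

theorem Av_comp_equiv {Ω' : Type*} [Fintype Ω'] (e : Ω ≃ Ω') (f : Ω' → ℝ) :
    Av (fun ω => f (e ω)) = Av f := by
  unfold Av
  rw [e.sum_comp, Fintype.card_congr e]

theorem abs_Av_le (f : Ω → ℝ) : |Av f| ≤ Av (fun ω => |f ω|) := by
  unfold Av
  rw [abs_div, abs_of_nonneg (Nat.cast_nonneg (Fintype.card Ω) : (0:ℝ) ≤ _)]
  exact div_le_div_of_nonneg_right (abs_sum_le_sum_abs _ _) (Nat.cast_nonneg _)

theorem Av_mul_sq_le (f g : Ω → ℝ) :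
    (Av (fun ω => f ω * g ω)) ^ 2 ≤ Av (fun ω => f ω ^ 2) * Av (fun ω => g ω ^ 2) := by
  unfold Av
  have h := sum_mul_sq_le_sq_mul_sq (univ : Finset Ω) f g
  rcases Nat.eq_zero_or_pos (Fintype.card Ω) with h0 | h0
  · simp [h0]
  · have hc : (0:ℝ) < Fintype.card Ω := by exact_mod_cast h0
    rw [div_pow, div_mul_div_comm, ← sq]
    exact div_le_div_of_nonneg_right h (by positivity)

theorem Av_mul_le (f g : Ω → ℝ) :
    |Av (fun ω => f ω * g ω)| ≤ √(Av (fun ω => f ω ^ 2)) * √(Av (fun ω => g ω ^ 2)) := by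
  rw [← Real.sqrt_mul (Av_nonneg fun ω => sq_nonneg _)]
  apply Real.le_sqrt_of_sq_le
  rw [sq_abs]
  exact Av_mul_sq_le f g

/-- Jensen for the square -/
theorem Av_sq_le [Nonempty Ω] (f : Ω → ℝ) : (Av f) ^ 2 ≤ Av (fun ω => f ω ^ 2) := by
  have h := Av_mul_sq_le f (fun _ => 1)
  simp only [mul_one, one_pow] at h
  rw [Av_const, mul_one] at h
  exact h

theorem exists_le_of_Av_le [Nonempty Ω] {f : Ω → ℝ} {c : ℝ} (h : Av f ≤ c) : ∃ ω, f ω ≤ c := by
  by_contra hcon
  push Not at hcon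
  have h1 : ∑ ω : Ω, c < ∑ ω, f ω :=
    sum_lt_sum_of_nonempty univ_nonempty (fun ω _ => hcon ω)
  have hc : (0:ℝ) < Fintype.card Ω := by exact_mod_cast Fintype.card_pos
  rw [sum_const, card_univ, nsmul_eq_mul] at h1
  unfold Av at h
  rw [div_le_iff₀ hc] at h
  nlinarith

theorem exists_ge_of_le_Av [Nonempty Ω] {f : Ω → ℝ} {c : ℝ} (h : c ≤ Av f) : ∃ ω, c ≤ f ω := by
  by_contra hcon
  push Not at hcon
  have h1 : ∑ ω, f ω < ∑ ω : Ω, c :=
    sum_lt_sum_of_nonempty univ_nonempty (fun ω _ => hcon ω)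
  have hc : (0:ℝ) < Fintype.card Ω := by exact_mod_cast Fintype.card_pos
  rw [sum_const, card_univ, nsmul_eq_mul] at h1
  unfold Av at h
  rw [le_div_iff₀ hc] at h
  nlinarith

/-- Paley-Zygmund -/
theorem paley [Nonempty Ω] (Z : Ω → ℝ) (hZ : ∀ ω, 0 ≤ Z ω) :
    (Av Z) ^ 2 / 4 ≤ Av (fun ω => Z ω ^ 2) * Av (fun ω => ind (Av Z / 2 ≤ Z ω)) := by
  have h0 : 0 ≤ Av Z := Av_nonneg hZ
  have h1 : Av Z ≤ Av Z / 2 + Av (fun ω => Z ω * ind (Av Z / 2 ≤ Z ω)) := by
    calc Av Z ≤ Av (fun ω => Av Z / 2 + Z ω * ind (Av Z / 2 ≤ Z ω)) := by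
          apply Av_mono
          intro ω
          by_cases h : Av Z / 2 ≤ Z ω
          · rw [ind_true h]; linarith
          · rw [ind_false h]; linarith
      _ = _ := by rw [Av_add, Av_const]
  have h2 := Av_mul_sq_le Z (fun ω => ind (Av Z / 2 ≤ Z ω))
  simp only [ind_sq] at h2
  have h3 : (Av Z / 2) ^ 2 ≤ (Av (fun ω => Z ω * ind (Av Z / 2 ≤ Z ω))) ^ 2 := by
    apply pow_le_pow_left₀ (by linarith)
    linarith
  calc (Av Z) ^ 2 / 4 = (Av Z / 2) ^ 2 := by ring
    _ ≤ _ := h3.trans h2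

end Av

/-- the sign of a boolean -/
noncomputable def sg (b : Bool) : ℝ := if b then 1 else -1

@[simp] theorem sg_true : sg true = 1 := rfl

@[simp] theorem sg_false : sg false = -1 := rfl

theorem sg_sq (b : Bool) : sg b ^ 2 = 1 := by cases b <;> simp

theorem sg_mul_self (b : Bool) : sg b * sg b = 1 := by cases b <;> simp

theorem abs_sg (b : Bool) : |sg b| = 1 := by cases b <;> simp

theorem sg_not (b : Bool) : sg (!b) = - sg b := by cases b <;> simp

section cube

variable {I : Type*} [Fintype I] [DecidableEq I]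

/-- the average of a product of functions of the single signs -/
theorem Av_prod (g : I → Bool → ℝ) :
    Av (fun ε : I → Bool => ∏ i, g i (ε i)) = ∏ i, ((g i true + g i false) / 2) := by
  unfold Av
  have h := Finset.prod_univ_sum (fun _ : I => (univ : Finset Bool)) g
  rw [Fintype.piFinset_univ] at h
  rw [← h, Fintype.card_fun, Fintype.card_bool]
  push_cast
  simp only [Fintype.sum_bool]
  rw [prod_div_distrib, prod_const, card_univ]

/-- exponential moments -/
theorem Av_exp (a : I → ℝ) :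
    Av (fun ε : I → Bool => Real.exp (∑ i, sg (ε i) * a i)) = ∏ i, Real.cosh (a i) := by
  have h := Av_prod (fun i b => Real.exp (sg b * a i))
  calc Av (fun ε : I → Bool => Real.exp (∑ i, sg (ε i) * a i))
      = Av (fun ε : I → Bool => ∏ i, Real.exp (sg (ε i) * a i)) := by
        congr 1; funext ε; rw [Real.exp_sum]
    _ = _ := by
        rw [h]
        apply prod_congr rfl
        intro i _
        rw [Real.cosh_eq]
        simp

theorem Av_exp_le (a : I → ℝ) :
    Av (fun ε : I → Bool => Real.exp (∑ i, sg (ε i) * a i)) ≤ Real.exp ((∑ i, a i ^ 2) / 2) := by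
  rw [Av_exp, sum_div, Real.exp_sum]
  apply prod_le_prod
  · intro i _; exact (Real.cosh_pos _).le
  · intro i _; exact Real.cosh_le_exp_half_sq _

theorem cosh_ge {x : ℝ} (hx : |x| ≤ 1) : Real.exp (x ^ 2 / 3) ≤ Real.cosh x := by
  have h1 : 1 + x ^ 2 / 2 ≤ Real.cosh x := by
    have h := sum_le_hasSum (Finset.range 2) (fun n _ => div_nonneg ((even_two_mul n).pow_nonneg _) (Nat.cast_nonneg _)) (Real.hasSum_cosh x)
    simpa [Finset.sum_range_succ] using h
  have hx2 : x ^ 2 ≤ 1 := by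
    rw [← sq_abs]; nlinarith [abs_nonneg x]
  have h2 : Real.exp (x ^ 2 / 3) ≤ 1 + x ^ 2 / 3 + (x ^ 2 / 3) ^ 2 := by
    have h3 := Real.abs_exp_sub_one_sub_id_le (x := x ^ 2 / 3)
      (by rw [abs_of_nonneg (by positivity)]; linarith)
    have h4 := (abs_le.mp h3).2
    linarith
  have : (x ^ 2 / 3) ^ 2 ≤ x ^ 2 / 6 := by nlinarith [sq_nonneg x]
  linarith

/-- constant in the lower bound for large deviations -/
noncomputable def pT (T : ℝ) : ℝ := Real.exp (-(22 * T ^ 2)) / 4

theorem pT_pos (T : ℝ) : 0 < pT T := by unfold pT; positivity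

/-- **Lemma T.** A lower bound for the probability of a large deviation of a sum of signs with
small coefficients. -/
theorem lemT (a : I → ℝ) (h T : ℝ) (hT : 1 ≤ T) (hh : 0 < h) (h2 : h ^ 2 = ∑ i, a i ^ 2)
    (ha : ∀ i, |a i| ≤ h / (4 * T)) :
    pT T ≤ Av (fun ε : I → Bool => ind (T * h ≤ ∑ i, sg (ε i) * a i)) := by
  set lam : ℝ := 4 * T / h with hlam
  have hlam0 : 0 < lam := by positivity
  set Z : (I → Bool) → ℝ := fun ε => Real.exp (∑ i, sg (ε i) * (lam * a i)) with hZ
  have hZ0 : ∀ ε, 0 ≤ Z ε := fun ε => (Real.exp_pos _).le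
  have hEZ : Real.exp (16 * T ^ 2 / 3) ≤ Av Z := by
    rw [hZ, Av_exp]
    have h3 : 16 * T ^ 2 / 3 = ∑ i, (lam * a i) ^ 2 / 3 := by
      rw [← sum_div]
      congr 1
      simp_rw [mul_pow]
      rw [← mul_sum, ← h2, hlam]
      field_simp
      norm_num
    rw [h3, Real.exp_sum]
    apply prod_le_prod
    · intro i _; exact (Real.exp_pos _).le
    · intro i _
      apply cosh_ge
      rw [abs_mul, abs_of_pos hlam0]
      calc lam * |a i| ≤ lam * (h / (4 * T)) := by
            apply mul_le_mul_of_nonneg_left (ha i) hlam0.le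
        _ = 1 := by rw [hlam]; field_simp
  have hEZ2 : Av (fun ε => Z ε ^ 2) ≤ Real.exp (32 * T ^ 2) := by
    have h4 : (fun ε => Z ε ^ 2) =
        fun ε : I → Bool => Real.exp (∑ i, sg (ε i) * (2 * lam * a i)) := by
      funext ε
      simp only [hZ]
      rw [← Real.exp_nat_mul]
      congr 1
      push_cast
      rw [mul_sum]
      apply sum_congr rfl
      intro i _
      ring
    rw [h4]
    refine (Av_exp_le _).trans (Real.exp_le_exp.mpr (le_of_eq ?_))
    simp_rw [mul_pow]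
    rw [← mul_sum, ← h2, hlam]
    field_simp
    norm_num
  have hP := paley Z hZ0
  have hsub : Av (fun ω => ind (Av Z / 2 ≤ Z ω)) ≤
      Av (fun ε : I → Bool => ind (T * h ≤ ∑ i, sg (ε i) * a i)) := by
    apply Av_mono
    intro ε
    apply ind_mono
    intro hε
    have h5 : Real.exp (16 * T ^ 2 / 3 - 1) ≤ Z ε := by
      calc Real.exp (16 * T ^ 2 / 3 - 1) = Real.exp (16 * T ^ 2 / 3) * Real.exp (-1) := by
            rw [← Real.exp_add]; ring_nf
        _ ≤ Real.exp (16 * T ^ 2 / 3) * (1 / 2) := by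
            apply mul_le_mul_of_nonneg_left _ (Real.exp_pos _).le
            have := Real.exp_neg_one_lt_half
            linarith
        _ ≤ Av Z / 2 := by linarith
        _ ≤ Z ε := hε
    have h6 := Real.exp_le_exp.mp h5
    have h7 : ∑ i, sg (ε i) * (lam * a i) = lam * ∑ i, sg (ε i) * a i := by
      rw [mul_sum]; apply sum_congr rfl; intro i _; ring
    rw [h7] at h6
    have h8 : lam * (T * h) ≤ lam * ∑ i, sg (ε i) * a i := by
      refine le_trans ?_ h6
      rw [hlam]
      have : 4 * T / h * (T * h) = 4 * T ^ 2 := by field_simp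
      rw [this]
      nlinarith
    exact le_of_mul_le_mul_left h8 hlam0
  have hAvZ0 : 0 ≤ Av Z := Av_nonneg hZ0
  have hsq : Real.exp (32 * T ^ 2 / 3) ≤ (Av Z) ^ 2 := by
    have : Real.exp (32 * T ^ 2 / 3) = (Real.exp (16 * T ^ 2 / 3)) ^ 2 := by
      rw [← Real.exp_nat_mul]; congr 1; push_cast; ring
    rw [this]
    exact pow_le_pow_left₀ (Real.exp_pos _).le hEZ 2
  set P := Av (fun ω => ind (Av Z / 2 ≤ Z ω)) with hPdef
  have hP0 : 0 ≤ P := Av_nonneg fun _ => ind_nonneg _
  have h9 : Real.exp (32 * T ^ 2 / 3) / 4 ≤ Real.exp (32 * T ^ 2) * P := by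
    calc Real.exp (32 * T ^ 2 / 3) / 4 ≤ (Av Z) ^ 2 / 4 := by linarith
      _ ≤ _ := hP
      _ ≤ _ := mul_le_mul_of_nonneg_right hEZ2 hP0
  have h10 : pT T ≤ P := by
    have h11 : Real.exp (32 * T ^ 2) * pT T ≤ Real.exp (32 * T ^ 2) * P := by
      refine le_trans ?_ h9
      unfold pT
      rw [← mul_div_assoc, ← Real.exp_add]
      apply div_le_div_of_nonneg_right _ (by norm_num)
      apply Real.exp_le_exp.mpr
      nlinarith [sq_nonneg T]
    exact le_of_mul_le_mul_left h11 (Real.exp_pos _)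
  exact h10.trans hsub

/-- orthogonality of the signs -/
theorem Av_sg_mul (i j : I) :
    Av (fun ε : I → Bool => sg (ε i) * sg (ε j)) = if i = j then 1 else 0 := by
  by_cases h : i = j
  · subst h
    rw [if_pos rfl]
    simp_rw [sg_mul_self]
    exact Av_const 1
  · rw [if_neg h]
    have h1 := Av_prod (I := I) (fun k b => if k = i ∨ k = j then sg b else 1)
    have h2 : (fun ε : I → Bool => sg (ε i) * sg (ε j)) =
        fun ε : I → Bool => ∏ k, (if k = i ∨ k = j then sg (ε k) else 1) := by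
      funext ε
      rw [← Finset.prod_filter]
      have : (univ.filter fun k => k = i ∨ k = j) = {i, j} := by
        ext k; simp
      rw [this, prod_pair h]
    rw [h2, h1]
    apply prod_eq_zero (mem_univ i)
    simp

/-- second moments -/
theorem Av_sum_mul_sum (a b : I → ℝ) :
    Av (fun ε : I → Bool => (∑ i, sg (ε i) * a i) * (∑ i, sg (ε i) * b i)) = ∑ i, a i * b i := by
  have h1 : (fun ε : I → Bool => (∑ i, sg (ε i) * a i) * (∑ i, sg (ε i) * b i)) =
      fun ε : I → Bool => ∑ i, ∑ j, (a i * b j) * (sg (ε i) * sg (ε j)) := by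
    funext ε
    rw [sum_mul_sum]
    apply sum_congr rfl; intro i _
    apply sum_congr rfl; intro j _
    ring
  rw [h1, Av_sum]
  apply sum_congr rfl
  intro i _
  rw [Av_sum]
  have h2 : ∀ j, Av (fun ω : I → Bool => (a i * b j) * (sg (ω i) * sg (ω j))) =
      if i = j then a i * b j else 0 := by
    intro j
    rw [Av_mul_left, Av_sg_mul]
    split_ifs <;> ring
  simp_rw [h2]
  simp

theorem Av_sum_sq (a : I → ℝ) :
    Av (fun ε : I → Bool => (∑ i, sg (ε i) * a i) ^ 2) = ∑ i, a i ^ 2 := by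
  simp_rw [sq]
  exact Av_sum_mul_sum a a

/-- fourth moments -/
theorem Av_sum_four (a : I → ℝ) :
    Av (fun ε : I → Bool => (∑ i, sg (ε i) * a i) ^ 4) ≤ 12 * (∑ i, a i ^ 2) ^ 2 := by
  rcases (sum_nonneg (fun i _ => sq_nonneg (a i)) : 0 ≤ ∑ i, a i ^ 2).eq_or_lt with h0 | h0
  · have ha : ∀ i, a i = 0 := by
      intro i
      have := (sum_eq_zero_iff_of_nonneg (fun i _ => sq_nonneg (a i))).mp h0.symm i (mem_univ i)
      exact pow_eq_zero_iff (two_ne_zero) |>.mp this
    simp [ha, Av_zero]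
  · set H := ∑ i, a i ^ 2 with hH
    set lam : ℝ := 2 / √H with hlam
    have hsH : 0 < √H := Real.sqrt_pos.mpr h0
    have hlam0 : 0 < lam := by positivity
    have hlam2 : lam ^ 2 * H = 4 := by
      rw [hlam, div_pow, Real.sq_sqrt h0.le]; field_simp; norm_num
    have h1 : Av (fun ε : I → Bool => (lam * ∑ i, sg (ε i) * a i) ^ 4 / 24) ≤
        Av (fun ε : I → Bool => Real.cosh (lam * ∑ i, sg (ε i) * a i)) := by
      apply Av_mono
      intro ε
      have h := sum_le_hasSum (Finset.range 3) 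
        (fun n _ => div_nonneg ((even_two_mul n).pow_nonneg _) (Nat.cast_nonneg _))
        (Real.hasSum_cosh (lam * ∑ i, sg (ε i) * a i))
      simp only [Finset.sum_range_succ, Finset.range_zero, Finset.sum_empty, Nat.factorial] at h
      norm_num at h
      have hp := sq_nonneg (lam * ∑ i, sg (ε i) * a i)
      linarith
    have h2 : Av (fun ε : I → Bool => Real.cosh (lam * ∑ i, sg (ε i) * a i)) ≤ Real.exp 2 := by
      have e1 : (fun ε : I → Bool => Real.cosh (lam * ∑ i, sg (ε i) * a i)) =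
          fun ε : I → Bool => (1/2) * Real.exp (∑ i, sg (ε i) * (lam * a i)) +
            (1/2) * Real.exp (∑ i, sg (ε i) * (-lam * a i)) := by
        funext ε
        rw [Real.cosh_eq]
        have e2 : lam * ∑ i, sg (ε i) * a i = ∑ i, sg (ε i) * (lam * a i) := by
          rw [mul_sum]; apply sum_congr rfl; intro i _; ring
        have e3 : -(lam * ∑ i, sg (ε i) * a i) = ∑ i, sg (ε i) * (-lam * a i) := by
          rw [mul_sum, ← sum_neg_distrib]; apply sum_congr rfl; intro i _; ring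
        rw [e3, e2]; ring
      rw [e1, Av_add, Av_mul_left, Av_mul_left]
      have e4 := Av_exp_le (fun i => lam * a i)
      have e5 := Av_exp_le (fun i => -lam * a i)
      have e6 : (∑ i, (lam * a i) ^ 2) / 2 = 2 := by
        simp_rw [mul_pow]; rw [← mul_sum, hlam2]; norm_num
      have e7 : (∑ i, (-lam * a i) ^ 2) / 2 = 2 := by
        simp_rw [mul_pow]; rw [← mul_sum, neg_sq, hlam2]; norm_num
      rw [e6] at e4
      rw [e7] at e5
      linarith
    have h3 : Av (fun ε : I → Bool => (lam * ∑ i, sg (ε i) * a i) ^ 4 / 24) =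
        lam ^ 4 / 24 * Av (fun ε : I → Bool => (∑ i, sg (ε i) * a i) ^ 4) := by
      rw [← Av_mul_left]; congr 1; funext ε; ring
    have h4 : Real.exp 2 ≤ 8 := by
      have : Real.exp 2 = Real.exp 1 ^ 2 := by rw [← Real.exp_nat_mul]; norm_num
      rw [this]
      have := Real.exp_one_lt_d9
      have h0 := Real.exp_pos 1
      nlinarith
    set M := Av (fun ε : I → Bool => (∑ i, sg (ε i) * a i) ^ 4)
    have h5 : lam ^ 4 / 24 * M ≤ 8 := by rw [← h3]; linarith
    have h6 : lam ^ 4 * H ^ 2 = 16 := by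
      calc lam ^ 4 * H ^ 2 = (lam ^ 2 * H) ^ 2 := by ring
        _ = 16 := by rw [hlam2]; norm_num
    have hH0 : 0 < H ^ 2 := by positivity
    have h7 : lam ^ 4 * M ≤ lam ^ 4 * (12 * H ^ 2) := by linarith
    exact le_of_mul_le_mul_left h7 (by positivity)

/-- Khinchine's inequality -/
theorem khin (a : I → ℝ) (h : ℝ) (hh : 0 ≤ h) (h2 : h ^ 2 = ∑ i, a i ^ 2) :
    h ≤ 4 * Av (fun ε : I → Bool => |∑ i, sg (ε i) * a i|) := by
  rcases hh.eq_or_lt with h0 | h0
  · rw [← h0]
    have := Av_nonneg (fun ε : I → Bool => abs_nonneg (∑ i, sg (ε i) * a i))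
    linarith
  · set S : (I → Bool) → ℝ := fun ε => ∑ i, sg (ε i) * a i with hS
    have hm2 : Av (fun ε => S ε ^ 2) = h ^ 2 := by rw [h2]; exact Av_sum_sq a
    have hm4 : Av (fun ε => S ε ^ 4) ≤ 12 * h ^ 4 := by
      have := Av_sum_four a
      rw [← h2] at this
      calc _ ≤ _ := this
        _ = _ := by ring
    have hpt : ∀ x : ℝ, x ^ 2 ≤ 2 * h * |x| + (1 / (24 * h ^ 2)) * x ^ 4 := by
      intro x
      set u := |x| / h with hu
      have hu0 : 0 ≤ u := by positivity
      have h3 : u ^ 3 - 24 * u + 48 ≥ 0 := by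
        nlinarith [mul_nonneg (sq_nonneg (u - 2.85)) (by linarith : (0:ℝ) ≤ u + 5.7)]
      have hx : |x| = u * h := by rw [hu]; field_simp
      have hx2 : x ^ 2 = (u * h) ^ 2 := by rw [← hx, sq_abs]
      have hx4 : x ^ 4 = (u * h) ^ 4 := by
        calc x ^ 4 = (x ^ 2) ^ 2 := by ring
          _ = _ := by rw [hx2]; ring
      rw [hx4, hx2, hx]
      have h4 : 2 * h * (u * h) + 1 / (24 * h ^ 2) * (u * h) ^ 4 - (u * h) ^ 2 =
          h ^ 2 * u / 24 * (u ^ 3 - 24 * u + 48) := by
        field_simp; ring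
      have h5 : 0 ≤ h ^ 2 * u / 24 * (u ^ 3 - 24 * u + 48) := by positivity
      linarith
    have h3 : Av (fun ε => S ε ^ 2) ≤
        2 * h * Av (fun ε => |S ε|) + (1 / (24 * h ^ 2)) * Av (fun ε => S ε ^ 4) := by
      rw [← Av_mul_left, ← Av_mul_left, ← Av_add]
      exact Av_mono fun ε => hpt _
    have h4 : (1 / (24 * h ^ 2)) * Av (fun ε => S ε ^ 4) ≤ h ^ 2 / 2 := by
      calc (1 / (24 * h ^ 2)) * Av (fun ε => S ε ^ 4) ≤ (1 / (24 * h ^ 2)) * (12 * h ^ 4) :=
            mul_le_mul_of_nonneg_left hm4 (by positivity)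
        _ = h ^ 2 / 2 := by field_simp; norm_num
    have h5 : h * h ≤ h * (4 * Av (fun ε => |S ε|)) := by nlinarith
    exact le_of_mul_le_mul_left h5 h0

/-- flipping the signs on a set of indices -/
noncomputable def flipOn (p : I → Prop) : (I → Bool) ≃ (I → Bool) where
  toFun ε i := @ite _ (p i) (Classical.propDecidable _) (!(ε i)) (ε i)
  invFun ε i := @ite _ (p i) (Classical.propDecidable _) (!(ε i)) (ε i)
  left_inv ε := by
    funext i
    by_cases h : p i <;> simp [h]
  right_inv ε := by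
    funext i
    by_cases h : p i <;> simp [h]

omit [Fintype I] [DecidableEq I] in
theorem sg_flipOn (p : I → Prop) (ε : I → Bool) (i : I) :
    sg (flipOn p ε i) = sg (ε i) * (1 - 2 * ind (p i)) := by
  by_cases h : p i
  · rw [ind_true h]
    simp only [flipOn, Equiv.coe_fn_mk, h, if_true, sg_not]
    ring
  · rw [ind_false h]
    simp only [flipOn, Equiv.coe_fn_mk, h, if_false]
    ring

/-- removing a part of the coefficients increases the probability of a deviation by at most
a factor two -/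
theorem flip_le (a : I → ℝ) (p : I → Prop) (t : ℝ) :
    Av (fun ε : I → Bool => ind (t ≤ |∑ i, sg (ε i) * ((1 - ind (p i)) * a i)|)) ≤
      2 * Av (fun ε : I → Bool => ind (t ≤ |∑ i, sg (ε i) * a i|)) := by
  have h1 : Av (fun ε : I → Bool => ind (t ≤ |∑ i, sg (ε i) * a i|)) =
      Av (fun ε : I → Bool => ind (t ≤ |∑ i, sg (flipOn p ε i) * a i|)) :=
    (Av_comp_equiv (flipOn p) (fun ε : I → Bool => ind (t ≤ |∑ i, sg (ε i) * a i|))).symm
  have h2 : Av (fun ε : I → Bool => ind (t ≤ |∑ i, sg (ε i) * ((1 - ind (p i)) * a i)|)) ≤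
      Av (fun ε : I → Bool => ind (t ≤ |∑ i, sg (ε i) * a i|) +
        ind (t ≤ |∑ i, sg (flipOn p ε i) * a i|)) := by
    apply Av_mono
    intro ε
    apply ind_le_add
    intro h
    by_contra hcon
    push Not at hcon
    obtain ⟨h3, h4⟩ := hcon
    have h5 : ∑ i, sg (ε i) * ((1 - ind (p i)) * a i) =
        (1 / 2) * (∑ i, sg (ε i) * a i + ∑ i, sg (flipOn p ε i) * a i) := by
      rw [← sum_add_distrib, mul_sum]
      apply sum_congr rfl
      intro i _
      rw [sg_flipOn]
      ring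
    rw [h5, abs_mul, abs_of_pos (by norm_num : (0:ℝ) < 1 / 2)] at h
    have h6 := abs_add_le (∑ i, sg (ε i) * a i) (∑ i, sg (flipOn p ε i) * a i)
    linarith
  rw [Av_add, ← h1] at h2
  linarith

end cube

end Run7.h288
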