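import Mathlib

/-!
Statement of the random matrix lemma (existence of a good square matrix in every large dimension).
-/

set_option autoImplicit false

namespace Run7.h288

/-- `G` is good with constants `θ c K`: bounded by `K`, and on vectors supported on at most
`θ n` coordinates it is bounded below by `c`, even after dropping any `θ n` rows. -/
def GoodMatrix (θ c K : ℝ) (n : ℕ) (G : Fin n → Fin n → ℝ) : Prop :=
  (∀ u : Fin n → ℝ, ∑ j, (∑ k, G j k * u k) ^ 2 ≤ K ^ 2 * ∑ k, u k ^ 2) ∧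
  (∀ A A' : Finset (Fin n), (A.card : ℝ) ≤ θ * n → (A'.card : ℝ) ≤ θ * n →
    ∀ u : Fin n → ℝ, (∀ k, k ∉ A → u k = 0) →
      c ^ 2 * ∑ k, u k ^ 2 ≤ ∑ j ∈ Finset.univ \ A', (∑ k, G j k * u k) ^ 2)

/-- RM: there are universal constants such that in every large dimension there is a matrix
which is good together with its transpose. -/
def S_RM : Prop :=
  ∃ (θ c K : ℝ) (n₀ : ℕ), 0 < θ ∧ 0 < c ∧ 0 < K ∧ ∀ n : ℕ, n₀ ≤ n →
    ∃ G : Fin n → Fin n → ℝ, GoodMatrix θ c K n G ∧ GoodMatrix θ c K n (fun j k => G k j)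

end Run7.h288
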