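import Pool.Agent.Run7.h288.Core
import Pool.Agent.Run7.h288.RMStm

/-!
The graph of a good matrix: no vector of the graph is concentrated on few coordinates, and
functionals which are small on the graph and have a small L1-norm have a small L2-norm.
-/

set_option autoImplicit false

open Finset

namespace Run7.h288

variable {n : ℕ}

/-- the action of a matrix -/
noncomputable def ap (G : Fin n → Fin n → ℝ) (u : Fin n → ℝ) (j : Fin n) : ℝ := ∑ k, G j k * u k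

/-- the graph map -/
noncomputable def Psi (G : Fin n → Fin n → ℝ) : (Fin n → ℝ) →ₗ[ℝ] (Fin n ⊕ Fin n → ℝ) where
  toFun u := Sum.elim u (ap G u)
  map_add' u v := by
    funext j
    rcases j with j | j
    · rfl
    · simp only [Sum.elim_inr, Pi.add_apply, ap]
      rw [← sum_add_distrib]
      apply sum_congr rfl
      intro k _
      ring
  map_smul' c u := by
    funext j
    rcases j with j | j
    · rfl
    · simp only [Sum.elim_inr, Pi.smul_apply, ap, smul_eq_mul, RingHom.id_apply]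
      rw [mul_sum]
      apply sum_congr rfl
      intro k _
      ring

theorem Psi_inl (G : Fin n → Fin n → ℝ) (u : Fin n → ℝ) (k : Fin n) :
    Psi G u (Sum.inl k) = u k := rfl

theorem Psi_inr (G : Fin n → Fin n → ℝ) (u : Fin n → ℝ) (k : Fin n) :
    Psi G u (Sum.inr k) = ap G u k := rfl

theorem Psi_injective (G : Fin n → Fin n → ℝ) : Function.Injective (Psi G) := by
  intro u v h
  funext k
  have := congrFun h (Sum.inl k)
  simpa [Psi_inl] using this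

/-- lower bound for a good matrix in terms of indicators -/
theorem good_lower {θ c K : ℝ} {G : Fin n → Fin n → ℝ} (hG : GoodMatrix θ c K n G)
    (p q : Fin n → Prop) (hp : ∑ k, ind (p k) ≤ θ * n) (hq : ∑ k, ind (q k) ≤ θ * n)
    (u : Fin n → ℝ) (hu : ∀ k, ¬ p k → u k = 0) :
    c ^ 2 * ∑ k, u k ^ 2 ≤ ∑ j, (1 - ind (q j)) * ap G u j ^ 2 := by
  classical
  have hcard : ∀ r : Fin n → Prop, ((univ.filter r).card : ℝ) = ∑ j, ind (r j) := by
    intro r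
    rw [card_filter]
    push_cast
    apply sum_congr rfl
    intro j _
    by_cases hj : r j
    · rw [ind_true hj, if_pos hj]
    · rw [ind_false hj, if_neg hj]
  have h1 := hG.2 (univ.filter p) (univ.filter q) (by rw [hcard]; exact hp)
    (by rw [hcard]; exact hq) u (fun k hk => hu k (fun h => hk (mem_filter.mpr ⟨mem_univ k, h⟩)))
  refine h1.trans (le_of_eq ?_)
  have h2 : univ \ univ.filter q = univ.filter fun j => ¬ q j := by
    ext j; simp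
  rw [h2, sum_filter]
  apply sum_congr rfl
  intro j _
  by_cases hj : q j
  · rw [ind_true hj, if_neg (not_not.mpr hj)]; ring
  · rw [ind_false hj, if_pos hj]
    unfold ap
    ring

theorem graph_W1 {θ c K : ℝ} (hc : 0 < c) {G : Fin n → Fin n → ℝ} (hG : GoodMatrix θ c K n G)
    (p : Fin n ⊕ Fin n → Prop) (hp : ∑ j, ind (p j) ≤ θ * n) (u : Fin n → ℝ) :
    1 / ((1 + K ^ 2) * (1 + 2 * (1 + K ^ 2) / c ^ 2)) * ∑ j, Psi G u j ^ 2 ≤
      ∑ j, (1 - ind (p j)) * Psi G u j ^ 2 := by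
  rw [Fintype.sum_sum_type] at hp
  have hp1 : ∑ k, ind (p (Sum.inl k)) ≤ θ * n := by
    have : 0 ≤ ∑ k, ind (p (Sum.inr k)) := sum_nonneg fun _ _ => ind_nonneg _
    linarith
  have hp2 : ∑ k, ind (p (Sum.inr k)) ≤ θ * n := by
    have : 0 ≤ ∑ k, ind (p (Sum.inl k)) := sum_nonneg fun _ _ => ind_nonneg _
    linarith
  rw [Fintype.sum_sum_type, Fintype.sum_sum_type]
  simp only [Psi_inl, Psi_inr]
  obtain ⟨v, hv⟩ : ∃ v : Fin n → ℝ, ∀ k, v k = ind (p (Sum.inl k)) * u k := ⟨_, fun _ => rfl⟩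
  obtain ⟨w, hw⟩ : ∃ w : Fin n → ℝ, ∀ k, w k = (1 - ind (p (Sum.inl k))) * u k :=
    ⟨_, fun _ => rfl⟩
  have hvw : ∀ k, u k = v k + w k := fun k => by rw [hv, hw]; ring
  have hv2 : ∀ k, u k ^ 2 = v k ^ 2 + w k ^ 2 := by
    intro k
    rw [hv, hw, mul_pow, mul_pow, ind_sq]
    have := ind_sq (p (Sum.inl k))
    nlinarith
  have hw2 : ∀ k, w k ^ 2 = (1 - ind (p (Sum.inl k))) * u k ^ 2 := by
    intro k
    rw [hw, mul_pow]
    have := ind_sq (p (Sum.inl k))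
    have h2 : (1 - ind (p (Sum.inl k))) ^ 2 = 1 - ind (p (Sum.inl k)) := by linarith
    rw [h2]
  obtain ⟨S₁, hS₁⟩ : ∃ S₁ : ℝ, S₁ = ∑ k, (1 - ind (p (Sum.inl k))) * u k ^ 2 := ⟨_, rfl⟩
  obtain ⟨S₂, hS₂⟩ : ∃ S₂ : ℝ, S₂ = ∑ k, (1 - ind (p (Sum.inr k))) * ap G u k ^ 2 := ⟨_, rfl⟩
  have hS₁0 : 0 ≤ S₁ := by
    rw [hS₁]
    exact sum_nonneg fun k _ => mul_nonneg (by linarith [ind_le_one (p (Sum.inl k))]) (sq_nonneg _)
  have hS₂0 : 0 ≤ S₂ := by
    rw [hS₂]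
    exact sum_nonneg fun k _ => mul_nonneg (by linarith [ind_le_one (p (Sum.inr k))]) (sq_nonneg _)
  have hw3 : ∑ k, w k ^ 2 = S₁ := by
    rw [hS₁]; exact sum_congr rfl fun k _ => hw2 k
  have h1 := good_lower hG (fun k => p (Sum.inl k)) (fun k => p (Sum.inr k)) hp1 hp2 v
    (fun k hk => by rw [hv, ind_false hk, zero_mul])
  have hap : ∀ j, ap G v j = ap G u j - ap G w j := by
    intro j
    unfold ap
    rw [← sum_sub_distrib]
    apply sum_congr rfl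
    intro k _
    rw [hvw k]; ring
  have h2 : ∑ j, (1 - ind (p (Sum.inr j))) * ap G v j ^ 2 ≤ 2 * S₂ + 2 * (K ^ 2 * S₁) := by
    have h3 := hG.1 w
    rw [hw3] at h3
    calc ∑ j, (1 - ind (p (Sum.inr j))) * ap G v j ^ 2 ≤
        ∑ j, (2 * ((1 - ind (p (Sum.inr j))) * ap G u j ^ 2) + 2 * ap G w j ^ 2) := by
          apply sum_le_sum
          intro j _
          have hi0 := ind_nonneg (p (Sum.inr j))
          have hi1 := ind_le_one (p (Sum.inr j))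
          rw [hap]
          have e1 : (ap G u j - ap G w j) ^ 2 ≤ 2 * ap G u j ^ 2 + 2 * ap G w j ^ 2 := by
            nlinarith [sq_nonneg (ap G u j + ap G w j)]
          have e2 := mul_le_mul_of_nonneg_left e1 (by linarith : 0 ≤ 1 - ind (p (Sum.inr j)))
          have e3 : 0 ≤ ind (p (Sum.inr j)) * ap G w j ^ 2 := mul_nonneg hi0 (sq_nonneg _)
          linarith
      _ = 2 * S₂ + 2 * ∑ j, ap G w j ^ 2 := by
          rw [sum_add_distrib, ← mul_sum, ← mul_sum, hS₂]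
      _ ≤ _ := by
          have : ∑ j, ap G w j ^ 2 ≤ K ^ 2 * S₁ := h3
          linarith
  have hu2 : ∑ k, u k ^ 2 = ∑ k, v k ^ 2 + S₁ := by
    rw [← hw3, ← sum_add_distrib]
    exact sum_congr rfl fun k _ => hv2 k
  have hc2 : 0 < c ^ 2 := by positivity
  have h3 : ∑ k, v k ^ 2 ≤ 2 * (1 + K ^ 2) / c ^ 2 * (S₁ + S₂) := by
    rw [div_mul_eq_mul_div, le_div_iff₀ hc2]
    have h4 := h1.trans h2
    have h5 : 0 ≤ K ^ 2 * S₂ := by positivity
    nlinarith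
  have h4 : ∑ k, ap G u k ^ 2 ≤ K ^ 2 * ∑ k, u k ^ 2 := hG.1 u
  have h5 : ∑ k, u k ^ 2 ≤ (1 + 2 * (1 + K ^ 2) / c ^ 2) * (S₁ + S₂) := by
    rw [hu2]
    linarith
  rw [← hS₁, ← hS₂, div_mul_eq_mul_div, one_mul, div_le_iff₀ (by positivity)]
  have h6 := mul_le_mul_of_nonneg_left h5 (by positivity : 0 ≤ 1 + K ^ 2)
  linarith

theorem Av_sum_type (f : Fin n ⊕ Fin n → ℝ) :
    Av f = (∑ k, f (Sum.inl k) + ∑ k, f (Sum.inr k)) / (2 * n) := by
  unfold Av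
  rw [Fintype.sum_sum_type, Fintype.card_sum, Fintype.card_fin]
  push_cast
  ring

theorem graph_W2 {θ c K : ℝ} (hn : 0 < n) (hθ : 0 < θ) (hθ1 : θ ≤ 1) (hc : 0 < c)
    {G : Fin n → Fin n → ℝ} (hG : GoodMatrix θ c K n G)
    (hG' : GoodMatrix θ c K n (fun j k => G k j)) (t : Fin n ⊕ Fin n → ℝ) (b : ℝ) (hb : 0 < b)
    (ht : ∀ u, |Av (fun j => t j * Psi G u j)| ≤ b * √(Av (fun j => Psi G u j ^ 2))) :
    Av (fun j => t j ^ 2) ≤
      ((4 * (2 + 2 * K ^ 2 / c ^ 2 + 1 / c ^ 2) * (1 + K ^ 2) + 1) / (θ / 2)) ^ 2 *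
        (Av (fun j => |t j|) + b) ^ 2 := by
  have hn0 : (0:ℝ) < n := by exact_mod_cast hn
  have hne : Nonempty (Fin n) := ⟨⟨0, hn⟩⟩
  obtain ⟨M, hM⟩ : ∃ M : ℝ, M = Av (fun j => |t j|) := ⟨_, rfl⟩
  have hM0 : 0 ≤ M := by rw [hM]; exact Av_nonneg fun _ => abs_nonneg _
  obtain ⟨κ, hκ⟩ : ∃ κ : ℝ, κ = (M + b) / (θ / 2) := ⟨_, rfl⟩
  have hκ0 : 0 < κ := by rw [hκ]; positivity
  obtain ⟨d, hd⟩ : ∃ d : Fin n ⊕ Fin n → ℝ, ∀ j, d j = lg κ (t j) := ⟨_, fun _ => rfl⟩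
  obtain ⟨r, hr⟩ : ∃ r : Fin n ⊕ Fin n → ℝ, ∀ j, r j = sm κ (t j) := ⟨_, fun _ => rfl⟩
  have hdr : ∀ j, t j = r j + d j := fun j => by rw [hd, hr, sm_add_lg]
  have hdr2 : ∀ j, t j ^ 2 = d j ^ 2 + r j ^ 2 := by
    intro j
    rw [hd, hr]
    unfold lg sm
    have := ind_sq (κ < |t j|)
    rw [mul_pow, mul_pow]
    have h2 : (1 - ind (κ < |t j|)) ^ 2 = 1 - ind (κ < |t j|) := by linarith
    rw [h2, this]; ring
  have hr2 : Av (fun j => r j ^ 2) ≤ κ ^ 2 := by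
    calc Av (fun j => r j ^ 2) ≤ Av (fun _ : Fin n ⊕ Fin n => κ ^ 2) := by
          apply Av_mono
          intro j
          rw [hr, ← sq_abs]
          exact pow_le_pow_left₀ (abs_nonneg _) (abs_sm_le hκ0.le _) 2
      _ = _ := Av_const _
  -- few large coordinates
  have hfew : ∑ j, ind (κ < |t j|) ≤ θ * n := by
    have h1 : (∑ j, ind (κ < |t j|)) * κ ≤ 2 * n * M := by
      have h2 : 2 * (n:ℝ) * M = ∑ j, |t j| := by
        rw [hM]
        unfold Av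
        rw [Fintype.card_sum, Fintype.card_fin]
        push_cast
        field_simp
        ring
      rw [h2, sum_mul]
      apply sum_le_sum
      intro j _
      by_cases hj : κ < |t j|
      · rw [ind_true hj]; linarith
      · rw [ind_false hj, zero_mul]; exact abs_nonneg _
    have h3 : 2 * (n:ℝ) * M ≤ (θ * n) * κ := by
      rw [hκ]
      have : θ * n * ((M + b) / (θ / 2)) = 2 * n * (M + b) := by field_simp
      rw [this]
      have : 0 ≤ 2 * (n:ℝ) * b := by positivity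
      linarith
    exact le_of_mul_le_mul_right (h1.trans h3) hκ0
  rw [Fintype.sum_sum_type] at hfew
  have hp1 : ∑ k, ind (κ < |t (Sum.inl k)|) ≤ θ * n := by
    have : 0 ≤ ∑ k, ind (κ < |t (Sum.inr k)|) := sum_nonneg fun _ _ => ind_nonneg _
    linarith
  have hp2 : ∑ k, ind (κ < |t (Sum.inr k)|) ≤ θ * n := by
    have : 0 ≤ ∑ k, ind (κ < |t (Sum.inl k)|) := sum_nonneg fun _ _ => ind_nonneg _
    linarith
  obtain ⟨d₁, hd₁⟩ : ∃ d₁ : Fin n → ℝ, ∀ k, d₁ k = d (Sum.inl k) := ⟨_, fun _ => rfl⟩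
  obtain ⟨d₂, hd₂⟩ : ∃ d₂ : Fin n → ℝ, ∀ k, d₂ k = d (Sum.inr k) := ⟨_, fun _ => rfl⟩
  obtain ⟨G', hG'e⟩ : ∃ G' : Fin n → Fin n → ℝ, G' = fun j k => G k j := ⟨_, rfl⟩
  rw [← hG'e] at hG'
  obtain ⟨u, hu⟩ : ∃ u : Fin n → ℝ, ∀ k, u k = d₁ k + ap G' d₂ k := ⟨_, fun _ => rfl⟩
  obtain ⟨V, hV⟩ : ∃ V : ℝ, V = ∑ k, u k ^ 2 := ⟨_, rfl⟩
  have hV0 : 0 ≤ V := by rw [hV]; exact sum_nonneg fun _ _ => sq_nonneg _
  -- lower bounds
  have hlow := good_lower hG' (fun k => κ < |t (Sum.inr k)|) (fun k => κ < |t (Sum.inl k)|)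
    hp2 hp1 d₂ (fun k hk => by rw [hd₂, hd]; unfold lg; rw [ind_false hk, zero_mul])
  have hD2 : c ^ 2 * ∑ k, d₂ k ^ 2 ≤ V := by
    refine hlow.trans ?_
    rw [hV]
    apply sum_le_sum
    intro k _
    by_cases hk : κ < |t (Sum.inl k)|
    · rw [ind_true hk, sub_self, zero_mul]; positivity
    · rw [ind_false hk, sub_zero, one_mul, hu, hd₁, hd]
      unfold lg
      rw [ind_false hk, zero_mul, zero_add]
  have hD2' : ∑ k, d₂ k ^ 2 ≤ 1 / c ^ 2 * V := by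
    rw [div_mul_eq_mul_div, one_mul, le_div_iff₀ (by positivity)]
    linarith
  have hD1 : ∑ k, d₁ k ^ 2 ≤ 2 * V + 2 * (K ^ 2 * ∑ k, d₂ k ^ 2) := by
    have h1 := hG'.1 d₂
    calc ∑ k, d₁ k ^ 2 ≤ ∑ k, (2 * u k ^ 2 + 2 * ap G' d₂ k ^ 2) := by
          apply sum_le_sum
          intro k _
          have h2 : d₁ k = u k - ap G' d₂ k := by rw [hu]; ring
          rw [h2]
          nlinarith [sq_nonneg (u k + ap G' d₂ k)]
      _ = 2 * V + 2 * ∑ k, ap G' d₂ k ^ 2 := by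
          rw [sum_add_distrib, ← mul_sum, ← mul_sum, hV]
      _ ≤ _ := by
          have : ∑ k, ap G' d₂ k ^ 2 ≤ K ^ 2 * ∑ k, d₂ k ^ 2 := h1
          linarith
  have hDtot : ∑ k, d₁ k ^ 2 + ∑ k, d₂ k ^ 2 ≤ (2 + 2 * K ^ 2 / c ^ 2 + 1 / c ^ 2) * V := by
    have h1 := mul_le_mul_of_nonneg_left hD2' (by positivity : 0 ≤ K ^ 2)
    calc ∑ k, d₁ k ^ 2 + ∑ k, d₂ k ^ 2 ≤ 2 * V + 2 * (K ^ 2 * (1 / c ^ 2 * V)) + 1 / c ^ 2 * V := by
          linarith
      _ = _ := by ring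
  have hAvd : Av (fun j => d j ^ 2) ≤ (2 + 2 * K ^ 2 / c ^ 2 + 1 / c ^ 2) * (V / (2 * n)) := by
    rw [Av_sum_type, ← mul_div_assoc]
    apply div_le_div_of_nonneg_right _ (by positivity)
    simp_rw [← hd₁, ← hd₂]
    exact hDtot
  -- pairing
  have hpair : Av (fun j => d j * Psi G u j) = V / (2 * n) := by
    rw [Av_sum_type]
    congr 1
    simp only [Psi_inl, Psi_inr, ← hd₁, ← hd₂]
    have h1 : ∑ j, d₂ j * ap G u j = ∑ k, ap G' d₂ k * u k := by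
      unfold ap
      simp_rw [mul_sum, sum_mul]
      rw [sum_comm]
      apply sum_congr rfl
      intro k _
      apply sum_congr rfl
      intro j _
      rw [hG'e]
      ring
    rw [h1, ← sum_add_distrib, hV]
    apply sum_congr rfl
    intro k _
    rw [hu]
    ring
  have hPsi : Av (fun j => Psi G u j ^ 2) ≤ (1 + K ^ 2) * (V / (2 * n)) := by
    rw [Av_sum_type, ← mul_div_assoc]
    apply div_le_div_of_nonneg_right _ (by positivity)
    simp only [Psi_inl, Psi_inr]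
    have : ∑ k, ap G u k ^ 2 ≤ K ^ 2 * ∑ k, u k ^ 2 := hG.1 u
    rw [← hV] at this ⊢
    linarith
  obtain ⟨U, hU⟩ : ∃ U : ℝ, U = V / (2 * n) := ⟨_, rfl⟩
  have hU0 : 0 ≤ U := by rw [hU]; positivity
  rw [← hU] at hAvd hpair hPsi
  have hUle : U ≤ (b + κ) * √((1 + K ^ 2) * U) := by
    have h1 : Av (fun j => d j * Psi G u j) =
        Av (fun j => t j * Psi G u j) - Av (fun j => r j * Psi G u j) := by
      rw [← Av_sub]
      congr 1
      funext j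
      rw [hdr j]; ring
    have h2 := ht u
    have h3 := Av_mul_le r (fun j => Psi G u j)
    have h4 : √(Av (fun j => r j ^ 2)) ≤ κ := Real.sqrt_le_iff.mpr ⟨hκ0.le, hr2⟩
    have h5 := Real.sqrt_nonneg (Av (fun j => Psi G u j ^ 2))
    have h6 := mul_le_mul_of_nonneg_right h4 h5
    have h7 : √(Av (fun j => Psi G u j ^ 2)) ≤ √((1 + K ^ 2) * U) := Real.sqrt_le_sqrt hPsi
    have h8 := (abs_le.mp h2).2
    have h9 := (abs_le.mp h3).1
    calc U = Av (fun j => d j * Psi G u j) := hpair.symm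
      _ = Av (fun j => t j * Psi G u j) - Av (fun j => r j * Psi G u j) := h1
      _ ≤ (b + κ) * √(Av (fun j => Psi G u j ^ 2)) := by linarith
      _ ≤ _ := mul_le_mul_of_nonneg_left h7 (by positivity)
  have hU2 : U ≤ (b + κ) ^ 2 * (1 + K ^ 2) := by
    rcases hU0.eq_or_lt with h0 | h0
    · rw [← h0]; positivity
    · have h1 : U ^ 2 ≤ ((b + κ) ^ 2 * (1 + K ^ 2)) * U := by
        calc U ^ 2 ≤ ((b + κ) * √((1 + K ^ 2) * U)) ^ 2 := pow_le_pow_left₀ hU0 hUle 2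
          _ = (b + κ) ^ 2 * ((1 + K ^ 2) * U) := by
              rw [mul_pow, Real.sq_sqrt (by positivity)]
          _ = _ := by ring
      rw [sq] at h1
      exact le_of_mul_le_mul_right h1 h0
  have hbκ : b ≤ κ := by
    rw [hκ, le_div_iff₀ (by positivity)]
    nlinarith
  have hfin : Av (fun j => t j ^ 2) ≤
      (4 * (2 + 2 * K ^ 2 / c ^ 2 + 1 / c ^ 2) * (1 + K ^ 2) + 1) * κ ^ 2 := by
    have h1 : Av (fun j => t j ^ 2) = Av (fun j => d j ^ 2) + Av (fun j => r j ^ 2) := by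
      rw [← Av_add]
      congr 1
      funext j
      exact hdr2 j
    have h2 : (b + κ) ^ 2 ≤ 4 * κ ^ 2 := by nlinarith
    have hk2 : 0 ≤ 2 + 2 * K ^ 2 / c ^ 2 + 1 / c ^ 2 := by positivity
    have hk3 : 0 ≤ 1 + K ^ 2 := by positivity
    have h3 : U ≤ 4 * κ ^ 2 * (1 + K ^ 2) := hU2.trans (mul_le_mul_of_nonneg_right h2 hk3)
    have h4 := mul_le_mul_of_nonneg_left h3 hk2
    rw [h1]
    linarith
  refine hfin.trans ?_
  rw [← hM]
  have hX : 1 ≤ 4 * (2 + 2 * K ^ 2 / c ^ 2 + 1 / c ^ 2) * (1 + K ^ 2) + 1 := by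
    have : 0 ≤ 4 * (2 + 2 * K ^ 2 / c ^ 2 + 1 / c ^ 2) * (1 + K ^ 2) := by positivity
    linarith
  obtain ⟨Y, hY⟩ : ∃ Y : ℝ, Y = 4 * (2 + 2 * K ^ 2 / c ^ 2 + 1 / c ^ 2) * (1 + K ^ 2) + 1 :=
    ⟨_, rfl⟩
  rw [← hY] at hX ⊢
  have h1 : (Y / (θ / 2)) ^ 2 * (M + b) ^ 2 = Y ^ 2 * κ ^ 2 := by
    rw [hκ]; field_simp
  rw [h1]
  apply mul_le_mul_of_nonneg_right _ (by positivity)
  nlinarith

end Run7.h288
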