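import Pool.Agent.Run7.h288.CoreConst

/-!
From a system of vectors and functionals in a good space to the data of the analytic core.
-/

set_option autoImplicit false

open Finset

namespace Run7.h288

/-- the properties of the space which are used -/
structure GoodSpace (X J : Type) [NormedAddCommGroup X] [NormedSpace ℝ X] [Fintype J] (m l : ℕ)
    (C₄ c₀ θ : ℝ) (ι : X →ₗ[ℝ] (J → ℝ)) : Prop where
  hm : 0 < m
  hl : 1 ≤ l
  hJ : Fintype.card J = l ^ 2 * m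
  n1 : ∀ w, Av (fun j => ι w j ^ 2) ≤ ‖w‖ ^ 2
  n2 : ∀ w, ∀ S : Finset J, S.card ≤ m → ∑ j ∈ S, |ι w j| ≤ m * ‖w‖
  n4 : ∀ w, ‖w‖ ^ 2 ≤ (l:ℝ) ^ 2 * Av (fun j => ι w j ^ 2)
  n3 : ∀ (B : ℝ) (f : X →ₗ[ℝ] ℝ), 0 < B → (∀ w, |f w| ≤ B * ‖w‖) → ∃ τ z : J → ℝ,
    (∀ w, f w = Av (fun j => (τ j + z j) * ι w j)) ∧ Av (fun j => z j ^ 2) ≤ B ^ 2 ∧
    (∀ j, |τ j| ≤ (l:ℝ) ^ 2 * B) ∧ Av (fun j => |τ j|) ≤ B
  W1 : ∀ p : J → Prop, ∑ j, ind (p j) ≤ θ * Fintype.card J → ∀ w,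
    c₀ * ∑ j, ι w j ^ 2 ≤ ∑ j, (1 - ind (p j)) * ι w j ^ 2
  W2 : ∀ (t : J → ℝ) (b : ℝ), 0 < b →
    (∀ w, |Av (fun j => t j * ι w j)| ≤ b * √(Av (fun j => ι w j ^ 2))) →
    Av (fun j => t j ^ 2) ≤ C₄ ^ 2 * (Av (fun j => |t j|) + b) ^ 2

/-- a system of vectors and biorthogonal functionals with the averaging property -/
structure Sys (X : Type) [NormedAddCommGroup X] [NormedSpace ℝ X] (K : ℕ) (C₁ : ℝ)
    (e : Fin K → X) (φ : Fin K → X →ₗ[ℝ] ℝ) : Prop where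
  bi : ∀ i, φ i (e i) = 1
  bi' : ∀ i j, i ≠ j → φ i (e j) = 0
  en : ∀ i j, ‖e i‖ ≤ 2 * ‖e j‖
  sys : ∀ (r : ℕ) (u : Fin r → Fin K), Function.Injective u → ∀ (ε η : Fin r → Bool) (x : X),
    |∑ i, sg (ε i) * φ (u i) x| * ‖∑ i, sg (η i) • e (u i)‖ ≤ C₁ * r * ‖x‖

section

variable {X J : Type} [NormedAddCommGroup X] [NormedSpace ℝ X] [Fintype J] {m l : ℕ}
  {C₄ c₀ θ : ℝ} {ι : X →ₗ[ℝ] (J → ℝ)}

/-- one block: the data of the core from normalised vectors -/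
theorem block (hX : GoodSpace X J m l C₄ c₀ θ ι) (hC₄ : 0 < C₄) (hc₀ : 0 < c₀) (hc₀' : c₀ ≤ 1)
    (hθ : 0 < θ) (C₁ : ℝ) (hC₁ : 1 ≤ C₁) (L D : ℕ) (hL : 1 ≤ L) (hD : 1 ≤ D) (t : ℕ) (ht : 0 < t)
    (x : Fin (t ^ 2) → X) (φ : Fin (t ^ 2) → X →ₗ[ℝ] ℝ)
    (bi : ∀ i, φ i (x i) = 1) (bi' : ∀ i j, i ≠ j → φ i (x j) = 0)
    (sys : ∀ (ε η : Fin (t ^ 2) → Bool) (w : X),
      |∑ i, sg (ε i) * φ i w| * ‖∑ i, sg (η i) • x i‖ ≤ C₁ * (t:ℝ) ^ 2 * ‖w‖)
    (q0 : ∀ i, 1 / (4 * (l:ℝ) ^ 2) ≤ Av (fun j => ι (x i) j ^ 2))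
    (q1 : ∀ i, Av (fun j => ι (x i) j ^ 2) ≤ 4 * (l:ℝ) ^ 2)
    (hmid : ∑ i, Av (fun j => ind ((t:ℝ) / D < |ι (x i) j| ∧ |ι (x i) j| ≤ t * D) *
      ι (x i) j ^ 2) ≤ (t:ℝ) ^ 2 / (L:ℝ) ^ 2) :
    ∃ (A B s : ℝ) (a : Fin (t ^ 2) → J → ℝ) (τ z : (Fin (t ^ 2) → Bool) → J → ℝ),
      Dat (Fin (t ^ 2)) J m (l : ℝ) A B C₁ C₄ c₀ θ (L : ℝ) (D : ℝ) s a τ z := by
  have ht0 : (0:ℝ) < t := by exact_mod_cast ht
  have hl1 : (1:ℝ) ≤ l := by exact_mod_cast hX.hl
  have hl0 : (0:ℝ) < l := by linarith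
  have hL1 : (1:ℝ) ≤ L := by exact_mod_cast hL
  have hD1 : (1:ℝ) ≤ D := by exact_mod_cast hD
  have hD0 : (0:ℝ) < D := by linarith
  have hL0 : (0:ℝ) < L := by linarith
  have hm0 : (0:ℝ) < m := by exact_mod_cast hX.hm
  have hJc : (Fintype.card J : ℝ) = (l:ℝ) ^ 2 * m := by rw [hX.hJ]; push_cast; ring
  have hJpos : (0:ℝ) < Fintype.card J := by rw [hJc]; positivity
  have hJne : Nonempty J := Fintype.card_pos_iff.mp (by exact_mod_cast hJpos)
  -- vectors and functionals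
  obtain ⟨y, hy⟩ : ∃ y : (Fin (t ^ 2) → Bool) → X, ∀ ε, y ε = (1 / (t:ℝ)) • ∑ i, sg (ε i) • x i :=
    ⟨_, fun _ => rfl⟩
  obtain ⟨a, ha⟩ : ∃ a : Fin (t ^ 2) → J → ℝ, ∀ i j, a i j = ι (x i) j / t := ⟨_, fun _ _ => rfl⟩
  have hιy : ∀ ε j, ι (y ε) j = yy a ε j := by
    intro ε j
    rw [hy, map_smul, map_sum]
    simp only [map_smul, Pi.smul_apply, Finset.sum_apply, smul_eq_mul]
    unfold yy
    rw [mul_sum]
    apply sum_congr rfl
    intro i _
    rw [ha]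
    ring
  obtain ⟨εm, -, hεm⟩ := exists_max_image (univ : Finset (Fin (t ^ 2) → Bool)) (fun ε => ‖y ε‖)
    univ_nonempty
  obtain ⟨A, hA⟩ : ∃ A : ℝ, A = ‖y εm‖ := ⟨_, rfl⟩
  have hyA : ∀ ε, ‖y ε‖ ≤ A := fun ε => by rw [hA]; exact hεm ε (mem_univ _)
  -- energy
  have hen : ∑ i, Av (fun j => a i j ^ 2) = (∑ i, Av (fun j => ι (x i) j ^ 2)) / (t:ℝ) ^ 2 := by
    rw [sum_div]
    apply sum_congr rfl
    intro i _
    have : (fun j => a i j ^ 2) = fun j => (1 / (t:ℝ) ^ 2) * ι (x i) j ^ 2 := by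
      funext j; rw [ha, div_pow]; ring
    rw [this, Av_mul_left]
    ring
  have hcard : ((Fintype.card (Fin (t ^ 2)) : ℕ) : ℝ) = (t:ℝ) ^ 2 := by simp
  have hen1 : ∑ i, Av (fun j => a i j ^ 2) ≤ (2 * (l:ℝ)) ^ 2 := by
    rw [hen, div_le_iff₀ (by positivity)]
    calc ∑ i, Av (fun j => ι (x i) j ^ 2) ≤ ∑ _i : Fin (t ^ 2), 4 * (l:ℝ) ^ 2 :=
          sum_le_sum fun i _ => q1 i
      _ = _ := by rw [sum_const, card_univ, nsmul_eq_mul, hcard]; ring
  have hen0 : (1 / (2 * (l:ℝ))) ^ 2 ≤ ∑ i, Av (fun j => a i j ^ 2) := by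
    rw [hen, le_div_iff₀ (by positivity)]
    calc (1 / (2 * (l:ℝ))) ^ 2 * (t:ℝ) ^ 2 = ∑ _i : Fin (t ^ 2), 1 / (4 * (l:ℝ) ^ 2) := by
          rw [sum_const, card_univ, nsmul_eq_mul, hcard, div_pow]; ring
      _ ≤ _ := sum_le_sum fun i _ => q0 i
  obtain ⟨s, hs⟩ : ∃ s : ℝ, s = √(∑ i, Av (fun j => a i j ^ 2)) := ⟨_, rfl⟩
  have hen00 : 0 ≤ ∑ i, Av (fun j => a i j ^ 2) := le_trans (by positivity) hen0
  have hssq : ∑ i, Av (fun j => a i j ^ 2) = s ^ 2 := by rw [hs, Real.sq_sqrt hen00]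
  have hs0 : 1 / (2 * (l:ℝ)) ≤ s := by
    rw [hs]; exact Real.le_sqrt_of_sq_le hen0
  have hs1 : s ≤ 2 * l := by
    rw [hs]; exact Real.sqrt_le_iff.mpr ⟨by positivity, hen1⟩
  have hspos : 0 < s := lt_of_lt_of_le (by positivity) hs0
  have hsA : s ≤ A := by
    have hA0 : 0 ≤ A := by rw [hA]; exact norm_nonneg _
    apply le_of_sq_le_sq _ hA0
    rw [← hssq]
    calc ∑ i, Av (fun j => a i j ^ 2) = Av (fun j => ∑ i, a i j ^ 2) := (Av_sum _ _).symm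
      _ = Av (fun j => Av (fun ε : Fin (t ^ 2) → Bool => yy a ε j ^ 2)) := by
          congr 1; funext j; exact (Av_sum_sq fun i => a i j).symm
      _ = Av (fun ε : Fin (t ^ 2) → Bool => Av (fun j => yy a ε j ^ 2)) := Av_comm _
      _ ≤ Av (fun _ : Fin (t ^ 2) → Bool => A ^ 2) := by
          apply Av_mono
          intro ε
          simp_rw [← hιy]
          exact (hX.n1 (y ε)).trans (pow_le_pow_left₀ (norm_nonneg _) (hyA ε) 2)
      _ = A ^ 2 := Av_const _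
  have hA0 : 0 < A := lt_of_lt_of_le hspos hsA
  obtain ⟨B, hB⟩ : ∃ B : ℝ, B = C₁ / A := ⟨_, rfl⟩
  have hB0 : 0 < B := by rw [hB]; positivity
  -- functionals
  obtain ⟨f, hf⟩ : ∃ f : (Fin (t ^ 2) → Bool) → X →ₗ[ℝ] ℝ,
      ∀ ε, f ε = (1 / (t:ℝ)) • ∑ i, sg (ε i) • φ i := ⟨_, fun _ => rfl⟩
  have hfx : ∀ ε w, f ε w = (1 / (t:ℝ)) * ∑ i, sg (ε i) * φ i w := by
    intro ε w
    rw [hf]
    simp [LinearMap.sum_apply]
  have hfB : ∀ ε w, |f ε w| ≤ B * ‖w‖ := by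
    intro ε w
    have h1 := sys ε εm w
    have h2 : A = (1 / (t:ℝ)) * ‖∑ i, sg (εm i) • x i‖ := by
      rw [hA, hy, norm_smul, Real.norm_of_nonneg (by positivity)]
    have h3 : |f ε w| * A ≤ C₁ * ‖w‖ := by
      rw [hfx, abs_mul, abs_of_nonneg (by positivity : (0:ℝ) ≤ 1 / t), h2]
      calc 1 / (t:ℝ) * |∑ i, sg (ε i) * φ i w| * (1 / (t:ℝ) * ‖∑ i, sg (εm i) • x i‖) =
          (1 / (t:ℝ) ^ 2) * (|∑ i, sg (ε i) * φ i w| * ‖∑ i, sg (εm i) • x i‖) := by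
            field_simp
        _ ≤ (1 / (t:ℝ) ^ 2) * (C₁ * (t:ℝ) ^ 2 * ‖w‖) :=
            mul_le_mul_of_nonneg_left h1 (by positivity)
        _ = C₁ * ‖w‖ := by field_simp
    rw [hB, div_mul_eq_mul_div, le_div_iff₀ hA0]
    exact h3
  choose τ₀ z₀ hr1 hr2 hr3 hr4 using fun ε => hX.n3 B (f ε) hB0 (hfB ε)
  have hcpl : ∀ ε : Fin (t ^ 2) → Bool, cpl (cpl ε) = ε := fun ε => by funext i; simp [cpl]
  have hfcpl : ∀ ε w, f (cpl ε) w = - f ε w := by
    intro ε w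
    rw [hfx, hfx, ← mul_neg, ← sum_neg_distrib]
    congr 1
    apply sum_congr rfl
    intro i _
    unfold cpl
    rw [sg_not]
    ring
  obtain ⟨τ, hτ⟩ : ∃ τ : (Fin (t ^ 2) → Bool) → J → ℝ,
      ∀ ε j, τ ε j = (τ₀ ε j - τ₀ (cpl ε) j) / 2 := ⟨_, fun _ _ => rfl⟩
  obtain ⟨z, hz⟩ : ∃ z : (Fin (t ^ 2) → Bool) → J → ℝ,
      ∀ ε j, z ε j = (z₀ ε j - z₀ (cpl ε) j) / 2 := ⟨_, fun _ _ => rfl⟩
  have hrep : ∀ ε w, f ε w = Av (fun j => (τ ε j + z ε j) * ι w j) := by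
    intro ε w
    have h1 := hr1 ε w
    have h2 := hr1 (cpl ε) w
    rw [hfcpl] at h2
    have h3 : (fun j => (τ ε j + z ε j) * ι w j) =
        fun j => (1 / 2) * ((τ₀ ε j + z₀ ε j) * ι w j - (τ₀ (cpl ε) j + z₀ (cpl ε) j) * ι w j) := by
      funext j; rw [hτ, hz]; ring
    rw [h3, Av_mul_left, Av_sub, ← h1, ← h2]
    ring
  have hzB : ∀ ε, Av (fun j => z ε j ^ 2) ≤ B ^ 2 := by
    intro ε
    calc Av (fun j => z ε j ^ 2) ≤ Av (fun j => (1 / 2) * z₀ ε j ^ 2 + (1 / 2) * z₀ (cpl ε) j ^ 2) := by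
          apply Av_mono
          intro j
          rw [hz]
          nlinarith [sq_nonneg (z₀ ε j + z₀ (cpl ε) j)]
      _ = (1 / 2) * Av (fun j => z₀ ε j ^ 2) + (1 / 2) * Av (fun j => z₀ (cpl ε) j ^ 2) := by
          rw [Av_add, Av_mul_left, Av_mul_left]
      _ ≤ (1 / 2) * B ^ 2 + (1 / 2) * B ^ 2 := by
          have := hr2 ε
          have := hr2 (cpl ε)
          linarith
      _ = B ^ 2 := by ring
  have hτ1 : ∀ ε j, |τ ε j| ≤ (l:ℝ) ^ 2 * B := by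
    intro ε j
    have h1 := abs_le.mp (hr3 ε j)
    have h2 := abs_le.mp (hr3 (cpl ε) j)
    rw [hτ, abs_le]
    constructor <;> linarith [h1.1, h1.2, h2.1, h2.2]
  have hτ2 : ∀ ε, Av (fun j => |τ ε j|) ≤ B := by
    intro ε
    calc Av (fun j => |τ ε j|) ≤ Av (fun j => (1 / 2) * |τ₀ ε j| + (1 / 2) * |τ₀ (cpl ε) j|) := by
          apply Av_mono
          intro j
          rw [hτ, abs_div, abs_of_pos (by norm_num : (0:ℝ) < 2)]
          have := abs_sub (τ₀ ε j) (τ₀ (cpl ε) j)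
          linarith
      _ = (1 / 2) * Av (fun j => |τ₀ ε j|) + (1 / 2) * Av (fun j => |τ₀ (cpl ε) j|) := by
          rw [Av_add, Av_mul_left, Av_mul_left]
      _ ≤ B := by
          have := hr4 ε
          have := hr4 (cpl ε)
          linarith
  have hfy : ∀ ε, f ε (y ε) = 1 := by
    intro ε
    rw [hfx, hy]
    have h1 : ∀ i, φ i ((1 / (t:ℝ)) • ∑ k, sg (ε k) • x k) = (1 / (t:ℝ)) * sg (ε i) := by
      intro i
      rw [map_smul, map_sum]
      simp only [map_smul, smul_eq_mul]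
      rw [sum_eq_single i]
      · rw [bi, mul_one]
      · intro k _ hk
        rw [bi' i k (Ne.symm hk), mul_zero]
      · intro h; exact absurd (mem_univ i) h
    simp_rw [h1]
    have h2 : ∀ i : Fin (t ^ 2), sg (ε i) * (1 / (t:ℝ) * sg (ε i)) = 1 / (t:ℝ) := by
      intro i
      calc sg (ε i) * (1 / (t:ℝ) * sg (ε i)) = (sg (ε i) * sg (ε i)) * (1 / (t:ℝ)) := by ring
        _ = _ := by rw [sg_mul_self, one_mul]
    simp_rw [h2]
    rw [sum_const, card_univ, nsmul_eq_mul, hcard]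
    field_simp
  refine ⟨A, B, s, a, τ, z, ?_⟩
  refine
    { hm := hX.hm
      hJ := hJc
      hl := hl1
      hA0 := hA0
      hB0 := hB0
      hAB := by rw [hB]; field_simp
      hC₁ := hC₁
      hC₄ := hC₄
      hc₀ := hc₀
      hc₀' := hc₀'
      hθ := hθ
      hL := hL0
      hD := hD0
      hs0 := hs0
      hs1 := hs1
      hsA := hsA
      hs := hssq
      hA := ?_
      hτ1 := hτ1
      hτ2 := hτ2
      hz := hzB
      hodd := ?_
      hDD := ?_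
      h1 := ?_
      hW := ?_
      hmid := ?_ }
  · intro ε S hS
    simp_rw [← hιy]
    exact (hX.n2 (y ε) S hS).trans (mul_le_mul_of_nonneg_left (hyA ε) hm0.le)
  · intro ε j
    rw [hτ, hτ, hcpl]
    ring
  · intro S ε η
    have hDz : Av (fun j => DD (fun ε => z ε j) S ε η ^ 2) ≤ (4 * B) ^ 2 := by
      calc Av (fun j => DD (fun ε => z ε j) S ε η ^ 2) ≤
          Av (fun j => 4 * z ε j ^ 2 + 4 * z η j ^ 2 + 4 * z (mix S ε η) j ^ 2 +
            4 * z (mix S η ε) j ^ 2) := by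
            apply Av_mono
            intro j
            unfold DD
            nlinarith [sq_nonneg (z ε j - z η j), sq_nonneg (z ε j + z (mix S ε η) j),
              sq_nonneg (z ε j + z (mix S η ε) j), sq_nonneg (z η j + z (mix S ε η) j),
              sq_nonneg (z η j + z (mix S η ε) j),
              sq_nonneg (z (mix S ε η) j - z (mix S η ε) j)]
        _ = 4 * Av (fun j => z ε j ^ 2) + 4 * Av (fun j => z η j ^ 2) +
            4 * Av (fun j => z (mix S ε η) j ^ 2) + 4 * Av (fun j => z (mix S η ε) j ^ 2) := by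
            rw [Av_add, Av_add, Av_add, Av_mul_left, Av_mul_left, Av_mul_left, Av_mul_left]
        _ ≤ (4 * B) ^ 2 := by
            have h1 := hzB ε
            have h2 := hzB η
            have h3 := hzB (mix S ε η)
            have h4 := hzB (mix S η ε)
            linarith
    have hDτ : Av (fun j => |DD (fun ε => τ ε j) S ε η|) ≤ 4 * B := by
      calc Av (fun j => |DD (fun ε => τ ε j) S ε η|) ≤
          Av (fun j => |τ ε j| + |τ η j| + |τ (mix S ε η) j| + |τ (mix S η ε) j|) := by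
            apply Av_mono
            intro j
            unfold DD
            have h1 := abs_sub (τ ε j + τ η j - τ (mix S ε η) j) (τ (mix S η ε) j)
            have h2 := abs_sub (τ ε j + τ η j) (τ (mix S ε η) j)
            have h3 := abs_add_le (τ ε j) (τ η j)
            linarith
        _ = Av (fun j => |τ ε j|) + Av (fun j => |τ η j|) + Av (fun j => |τ (mix S ε η) j|) +
            Av (fun j => |τ (mix S η ε) j|) := by rw [Av_add, Av_add, Av_add]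
        _ ≤ 4 * B := by
            have h1 := hτ2 ε
            have h2 := hτ2 η
            have h3 := hτ2 (mix S ε η)
            have h4 := hτ2 (mix S η ε)
            linarith
    have htest : ∀ w, |Av (fun j => DD (fun ε => τ ε j) S ε η * ι w j)| ≤
        (4 * B) * √(Av (fun j => ι w j ^ 2)) := by
      intro w
      have h1 : Av (fun j => DD (fun ε => τ ε j) S ε η * ι w j) =
          - Av (fun j => DD (fun ε => z ε j) S ε η * ι w j) := by
        have h2 : Av (fun j => DD (fun ε => τ ε j) S ε η * ι w j) +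
            Av (fun j => DD (fun ε => z ε j) S ε η * ι w j) =
            f ε w + f η w - f (mix S ε η) w - f (mix S η ε) w := by
          rw [hrep, hrep, hrep, hrep, ← Av_add, ← Av_add, ← Av_sub, ← Av_sub]
          congr 1
          funext j
          unfold DD
          ring
        have h3 : f ε w + f η w - f (mix S ε η) w - f (mix S η ε) w = 0 := by
          have h4 := DD_lin (fun i => φ i w) S ε η
          unfold DD at h4
          rw [hfx, hfx, hfx, hfx]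
          linear_combination (1 / (t:ℝ)) * h4
        linarith
      rw [h1, abs_neg]
      refine (Av_mul_le _ _).trans ?_
      apply mul_le_mul_of_nonneg_right _ (Real.sqrt_nonneg _)
      exact Real.sqrt_le_iff.mpr ⟨by positivity, hDz⟩
    have h5 := hX.W2 _ (4 * B) (by positivity) htest
    refine h5.trans ?_
    have h6 : 0 ≤ Av (fun j => |DD (fun ε => τ ε j) S ε η|) := Av_nonneg fun _ => abs_nonneg _
    calc C₄ ^ 2 * (Av (fun j => |DD (fun ε => τ ε j) S ε η|) + 4 * B) ^ 2 ≤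
        C₄ ^ 2 * (4 * B + 4 * B) ^ 2 := by
          apply mul_le_mul_of_nonneg_left _ (by positivity)
          apply pow_le_pow_left₀ (by positivity)
          linarith
      _ = _ := by ring
  · intro ε
    simp_rw [← hιy]
    rw [← hrep, hfy]
  · intro p hp i
    have h1 := hX.W1 p hp (x i)
    have h2 : ∀ j, a i j ^ 2 = (1 / (t:ℝ) ^ 2) * ι (x i) j ^ 2 := by
      intro j; rw [ha, div_pow]; ring
    have h3 : c₀ * ∑ j, a i j ^ 2 = (1 / (t:ℝ) ^ 2) * (c₀ * ∑ j, ι (x i) j ^ 2) := by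
      simp_rw [h2]; rw [← mul_sum]; ring
    have h4 : ∑ j, (1 - ind (p j)) * a i j ^ 2 =
        (1 / (t:ℝ) ^ 2) * ∑ j, (1 - ind (p j)) * ι (x i) j ^ 2 := by
      simp_rw [h2]; rw [mul_sum]; apply sum_congr rfl; intro j _; ring
    rw [h3, h4]
    exact mul_le_mul_of_nonneg_left h1 (by positivity)
  · have h1 : ∀ i j, ind (1 / (D:ℝ) < |a i j| ∧ |a i j| ≤ D) * a i j ^ 2 =
        (1 / (t:ℝ) ^ 2) * (ind ((t:ℝ) / D < |ι (x i) j| ∧ |ι (x i) j| ≤ t * D) *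
          ι (x i) j ^ 2) := by
      intro i j
      have h2 : |a i j| = |ι (x i) j| / t := by rw [ha, abs_div, abs_of_pos ht0]
      have h3 : (1 / (D:ℝ) < |a i j| ∧ |a i j| ≤ D) ↔
          ((t:ℝ) / D < |ι (x i) j| ∧ |ι (x i) j| ≤ t * D) := by
        rw [h2, lt_div_iff₀ ht0, div_le_iff₀ ht0]
        constructor
        · rintro ⟨h4, h5⟩
          exact ⟨by rw [div_eq_mul_one_div, mul_comm]; exact h4, by linarith⟩
        · rintro ⟨h4, h5⟩
          exact ⟨by rw [mul_comm, ← div_eq_mul_one_div]; exact h4, by linarith⟩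
      rw [h3, ha, div_pow]
      ring
    simp_rw [h1, Av_mul_left]
    rw [← mul_sum]
    calc 1 / (t:ℝ) ^ 2 * _ ≤ 1 / (t:ℝ) ^ 2 * ((t:ℝ) ^ 2 / (L:ℝ) ^ 2) :=
          mul_le_mul_of_nonneg_left hmid (by positivity)
      _ = 1 / (L:ℝ) ^ 2 := by field_simp

end

end Run7.h288
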