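import Pool.Agent.Run7.h288.Space
import Pool.Agent.Run7.h288.Graph
import Pool.Agent.Run7.h288.ToDat

/-!
Existence of good spaces in arbitrarily large dimensions, from the random matrix lemma.
-/

set_option autoImplicit false

open Finset

namespace Run7.h288

theorem GoodMatrix.mono {θ θ' c K : ℝ} {n : ℕ} {G : Fin n → Fin n → ℝ} (h : θ' ≤ θ)
    (hG : GoodMatrix θ c K n G) : GoodMatrix θ' c K n G := by
  refine ⟨hG.1, fun A A' hA hA' u hu => hG.2 A A' ?_ ?_ u hu⟩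
  · exact hA.trans (mul_le_mul_of_nonneg_right h (Nat.cast_nonneg _))
  · exact hA'.trans (mul_le_mul_of_nonneg_right h (Nat.cast_nonneg _))

theorem exists_space (hRM : S_RM) : ∃ (C₄ c₀ θ : ℝ), 0 < C₄ ∧ 0 < c₀ ∧ c₀ ≤ 1 ∧ 0 < θ ∧
    ∀ (l n₀ : ℕ), 1 ≤ l → ∃ n, n₀ ≤ n ∧ ∃ (X : Type) (_ : NormedAddCommGroup X)
      (_ : NormedSpace ℝ X) (J : Type) (_ : Fintype J) (m : ℕ) (ι : X →ₗ[ℝ] (J → ℝ)),
      Module.finrank ℝ X = n ∧ GoodSpace X J m l C₄ c₀ θ ι := by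
  obtain ⟨θ₀, c, K, n₁, hθ₀, hc, hK, hRM⟩ := hRM
  obtain ⟨θ₁, hθ₁⟩ : ∃ θ₁ : ℝ, θ₁ = min θ₀ 1 := ⟨_, rfl⟩
  have hθ₁0 : 0 < θ₁ := by rw [hθ₁]; exact lt_min hθ₀ (by norm_num)
  have hθ₁1 : θ₁ ≤ 1 := by rw [hθ₁]; exact min_le_right _ _
  have hθ₁2 : θ₁ ≤ θ₀ := by rw [hθ₁]; exact min_le_left _ _
  refine ⟨(4 * (2 + 2 * K ^ 2 / c ^ 2 + 1 / c ^ 2) * (1 + K ^ 2) + 1) / (θ₁ / 2),
    1 / ((1 + K ^ 2) * (1 + 2 * (1 + K ^ 2) / c ^ 2)), θ₁ / 2, by positivity, by positivity, ?_,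
    by positivity, ?_⟩
  · rw [div_le_one (by positivity)]
    have h1 : 1 ≤ 1 + K ^ 2 := by nlinarith [sq_nonneg K]
    have h2 : 1 ≤ 1 + 2 * (1 + K ^ 2) / c ^ 2 := by
      have : 0 ≤ 2 * (1 + K ^ 2) / c ^ 2 := by positivity
      linarith
    nlinarith
  intro l n₀ hl
  obtain ⟨k, hk⟩ : ∃ k : ℕ, k = n₀ + n₁ + 1 := ⟨_, rfl⟩
  obtain ⟨n, hn⟩ : ∃ n : ℕ, n = l ^ 2 * k := ⟨_, rfl⟩
  have hl2 : 1 ≤ l ^ 2 := Nat.one_le_pow _ _ hl
  have hkn : k ≤ n := by rw [hn]; exact Nat.le_mul_of_pos_left k hl2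
  have hn0 : 0 < n := by omega
  obtain ⟨G, hG, hG'⟩ := hRM n (by omega)
  replace hG := hG.mono hθ₁2
  replace hG' := hG'.mono hθ₁2
  have hJ : Fintype.card (Fin n ⊕ Fin n) = l ^ 2 * (2 * k) := by
    rw [Fintype.card_sum, Fintype.card_fin, hn]; ring
  have hJR : (Fintype.card (Fin n ⊕ Fin n) : ℝ) = 2 * n := by
    rw [Fintype.card_sum, Fintype.card_fin]; push_cast; ring
  have hm : 0 < 2 * k := by omega
  have hJpos : 0 < Fintype.card (Fin n ⊕ Fin n) := by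
    rw [Fintype.card_sum, Fintype.card_fin]; omega
  have hmJ : 2 * k ≤ Fintype.card (Fin n ⊕ Fin n) := by
    rw [Fintype.card_sum, Fintype.card_fin]; omega
  have hinj : Function.Injective ((Phi (Fin n ⊕ Fin n) (2 * k)).comp (Psi G)) := by
    rw [LinearMap.coe_comp]
    refine Function.Injective.comp ?_ (Psi_injective G)
    intro z z' h
    have := congrArg (prJ (Fin n ⊕ Fin n) (2 * k)) h
    rwa [prJ_Phi hJpos, prJ_Phi hJpos] at this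
  refine ⟨n, by omega, ↥(LinearMap.range ((Phi (Fin n ⊕ Fin n) (2 * k)).comp (Psi G))),
    inferInstance, inferInstance, Fin n ⊕ Fin n, inferInstance, 2 * k,
    (prJ (Fin n ⊕ Fin n) (2 * k)).comp
      (LinearMap.range ((Phi (Fin n ⊕ Fin n) (2 * k)).comp (Psi G))).subtype, ?_, ?_⟩
  · rw [LinearMap.finrank_range_of_inj hinj, Module.finrank_fin_fun]
  -- every vector of the space
  have hrepr : ∀ w : ↥(LinearMap.range ((Phi (Fin n ⊕ Fin n) (2 * k)).comp (Psi G))),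
      ∃ u, (w : Amb (Fin n ⊕ Fin n) (2 * k)) = Phi (Fin n ⊕ Fin n) (2 * k) (Psi G u) ∧
        prJ (Fin n ⊕ Fin n) (2 * k) w = Psi G u := by
    rintro ⟨w, hw⟩
    obtain ⟨u, hu⟩ := LinearMap.mem_range.mp hw
    refine ⟨u, hu.symm, ?_⟩
    change prJ (Fin n ⊕ Fin n) (2 * k) w = Psi G u
    rw [← hu]
    exact prJ_Phi hJpos _
  have hnorm : ∀ w : ↥(LinearMap.range ((Phi (Fin n ⊕ Fin n) (2 * k)).comp (Psi G))),
      ‖w‖ = ‖Phi (Fin n ⊕ Fin n) (2 * k) (prJ (Fin n ⊕ Fin n) (2 * k) w)‖ := by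
    intro w
    obtain ⟨u, hu1, hu2⟩ := hrepr w
    rw [hu2, ← hu1]
    rfl
  refine
    { hm := hm
      hl := hl
      hJ := hJ
      n1 := ?_
      n2 := ?_
      n4 := ?_
      n3 := ?_
      W1 := ?_
      W2 := ?_ }
  · intro w
    rw [hnorm]
    exact Phi_n1 hJpos _
  · intro w S hS
    rw [hnorm]
    exact Phi_n2 hm hmJ _ S hS
  · intro w
    rw [hnorm]
    exact Phi_n4 l hl hm hJ _
  · intro B f hB hf
    obtain ⟨g, hg1, hg2⟩ := exists_extension_norm_eq _ (f.mkContinuous B fun w => by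
      rw [Real.norm_eq_abs]; exact hf w)
    have hgB : ‖g‖ ≤ B := by
      rw [hg2]
      exact LinearMap.mkContinuous_norm_le _ hB.le _
    obtain ⟨τ, z, h1, h2, h3, h4⟩ := rep l hl hm hJ B hB g.toLinearMap (fun x => by
      rw [← Real.norm_eq_abs]
      exact (g.le_opNorm x).trans (mul_le_mul_of_nonneg_right hgB (norm_nonneg _)))
    refine ⟨τ, z, ?_, h2, h3, h4⟩
    intro w
    obtain ⟨u, hu1, hu2⟩ := hrepr w
    have h5 := hg1 w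
    have h6 : f w = g (w : Amb (Fin n ⊕ Fin n) (2 * k)) := h5.symm
    rw [h6, hu1]
    change g.toLinearMap (Phi (Fin n ⊕ Fin n) (2 * k) (Psi G u)) = _
    rw [h1, ← hu2]
    rfl
  · intro p hp w
    obtain ⟨u, hu1, hu2⟩ := hrepr w
    change 1 / ((1 + K ^ 2) * (1 + 2 * (1 + K ^ 2) / c ^ 2)) *
      ∑ j, prJ (Fin n ⊕ Fin n) (2 * k) w j ^ 2 ≤
      ∑ j, (1 - ind (p j)) * prJ (Fin n ⊕ Fin n) (2 * k) w j ^ 2
    rw [hu2]
    apply graph_W1 hc hG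
    rw [hJR] at hp
    linarith
  · intro t b hb ht
    apply graph_W2 hn0 hθ₁0 hθ₁1 hc hG hG' t b hb
    intro u
    have h1 := ht ⟨Phi (Fin n ⊕ Fin n) (2 * k) (Psi G u), LinearMap.mem_range.mpr ⟨u, rfl⟩⟩
    have h2 : prJ (Fin n ⊕ Fin n) (2 * k) (Phi (Fin n ⊕ Fin n) (2 * k) (Psi G u)) = Psi G u :=
      prJ_Phi hJpos _
    change |Av (fun j => t j *
      prJ (Fin n ⊕ Fin n) (2 * k) (Phi (Fin n ⊕ Fin n) (2 * k) (Psi G u)) j)| ≤
      b * √(Av (fun j =>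
        prJ (Fin n ⊕ Fin n) (2 * k) (Phi (Fin n ⊕ Fin n) (2 * k) (Psi G u)) j ^ 2)) at h1
    rw [h2] at h1
    exact h1

end Run7.h288
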