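import Pool.Agent.Run7.h288.PropI

/-!
The final contradiction of the analytic core.
-/

set_option autoImplicit false

open Finset

namespace Run7.h288

variable {I J : Type} [Fintype I] [DecidableEq I] [Fintype J]

omit [DecidableEq I] in
/-- a Cauchy-Schwarz inequality for double sums -/
theorem Av_sum_mul_le {F G : I → J → ℝ} {X Y : ℝ} (hX : 0 < X) (hY : 0 < Y)
    (hF : Av (fun j => ∑ i, F i j ^ 2) ≤ X ^ 2) (hG : Av (fun j => ∑ i, G i j ^ 2) ≤ Y ^ 2) :
    Av (fun j => ∑ i, F i j * G i j) ≤ X * Y := by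
  have h1 : Av (fun j => ∑ i, F i j * G i j) ≤
      Av (fun j => (Y / (2 * X)) * (∑ i, F i j ^ 2) + (X / (2 * Y)) * ∑ i, G i j ^ 2) := by
    apply Av_mono
    intro j
    rw [mul_sum, mul_sum, ← sum_add_distrib]
    apply sum_le_sum
    intro i _
    have h2 : Y / (2 * X) * F i j ^ 2 + X / (2 * Y) * G i j ^ 2 - F i j * G i j =
        (Y * F i j - X * G i j) ^ 2 / (2 * X * Y) := by
      field_simp; ring
    have h3 : 0 ≤ (Y * F i j - X * G i j) ^ 2 / (2 * X * Y) := by positivity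
    linarith
  refine h1.trans ?_
  rw [Av_add, Av_mul_left, Av_mul_left]
  have h4 : Y / (2 * X) * Av (fun j => ∑ i, F i j ^ 2) ≤ Y / (2 * X) * X ^ 2 :=
    mul_le_mul_of_nonneg_left hF (by positivity)
  have h5 : X / (2 * Y) * Av (fun j => ∑ i, G i j ^ 2) ≤ X / (2 * Y) * Y ^ 2 :=
    mul_le_mul_of_nonneg_left hG (by positivity)
  have h6 : Y / (2 * X) * X ^ 2 + X / (2 * Y) * Y ^ 2 = X * Y := by field_simp; ring
  linarith

/-- Bessel's inequality -/
theorem bessel (f : (I → Bool) → ℝ) :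
    ∑ i, Av (fun η : I → Bool => sg (η i) * f η) ^ 2 ≤ Av (fun ε => f ε ^ 2) := by
  have h1 : 0 ≤ Av (fun ε => (linPart f ε - f ε) ^ 2) := Av_nonneg fun _ => sq_nonneg _
  have h2 : (fun ε => (linPart f ε - f ε) ^ 2) =
      fun ε => (linPart f ε) ^ 2 - 2 * (linPart f ε * f ε) + f ε ^ 2 := by
    funext ε; ring
  have h3 : Av (fun ε => (linPart f ε) ^ 2) = ∑ i, Av (fun η : I → Bool => sg (η i) * f η) ^ 2 := by
    unfold linPart
    exact Av_sum_sq _
  have h4 : Av (fun ε => linPart f ε * f ε) = ∑ i, Av (fun η : I → Bool => sg (η i) * f η) ^ 2 := by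
    have h5 : (fun ε => linPart f ε * f ε) = fun ε : I → Bool =>
        ∑ i, Av (fun η : I → Bool => sg (η i) * f η) * (sg (ε i) * f ε) := by
      funext ε
      unfold linPart
      rw [sum_mul]
      apply sum_congr rfl
      intro i _
      ring
    rw [h5, Av_sum]
    apply sum_congr rfl
    intro i _
    rw [Av_mul_left, sq]
  rw [h2, Av_add, Av_sub, Av_mul_left, h3, h4] at h1
  linarith

namespace Dat

variable {m : ℕ} {l A B C₁ C₄ c₀ θ L D s : ℝ} {a : I → J → ℝ} {τ z : (I → Bool) → J → ℝ}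

/-- the coefficients of the linear part -/
noncomputable def bb (τ : (I → Bool) → J → ℝ) (i : I) (j : J) : ℝ :=
  Av (fun η : I → Bool => sg (η i) * τ η j)

/-- the difference of the linear part and the function -/
noncomputable def ww (τ : (I → Bool) → J → ℝ) (ε : I → Bool) (j : J) : ℝ :=
  linPart (fun ε => τ ε j) ε - τ ε j

theorem ww_sq (h : Dat I J m l A B C₁ C₄ c₀ θ L D s a τ z) :
    Av (fun j => Av (fun ε : I → Bool => ww τ ε j ^ 2)) ≤ (5 * C₄ * B) ^ 2 := by
  have := h.nonempty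
  have h1 : Av (fun j => 3 * Av (fun ε : I → Bool => ww τ ε j ^ 2)) ≤
      Av (fun j => Av (fun S : I → Bool => Av (fun ε : I → Bool => Av (fun η : I → Bool =>
        DD (fun ε => τ ε j) S ε η ^ 2)))) :=
    Av_mono fun j => lemL (fun ε => τ ε j) (fun ε => h.hodd ε j)
  have h2 : Av (fun j => Av (fun S : I → Bool => Av (fun ε : I → Bool => Av (fun η : I → Bool =>
        DD (fun ε => τ ε j) S ε η ^ 2)))) =
      Av (fun S : I → Bool => Av (fun ε : I → Bool => Av (fun η : I → Bool =>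
        Av (fun j => DD (fun ε => τ ε j) S ε η ^ 2)))) := by
    rw [Av_comm]; congr 1; funext S; rw [Av_comm]; congr 1; funext ε; rw [Av_comm]
  have h3 : Av (fun S : I → Bool => Av (fun ε : I → Bool => Av (fun η : I → Bool =>
        Av (fun j => DD (fun ε => τ ε j) S ε η ^ 2)))) ≤ (8 * C₄ * B) ^ 2 := by
    calc _ ≤ Av (fun _ : I → Bool => Av (fun _ : I → Bool => Av (fun _ : I → Bool =>
        (8 * C₄ * B) ^ 2))) :=
          Av_mono fun S => Av_mono fun ε => Av_mono fun η => h.hDD S ε η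
      _ = _ := by rw [Av_const, Av_const, Av_const]
  rw [Av_mul_left, h2] at h1
  nlinarith [sq_nonneg (C₄ * B)]

theorem tau_sq (h : Dat I J m l A B C₁ C₄ c₀ θ L D s a τ z) (ε : I → Bool) :
    Av (fun j => τ ε j ^ 2) ≤ (l * B) ^ 2 := by
  calc Av (fun j => τ ε j ^ 2) ≤ Av (fun j => (l ^ 2 * B) * |τ ε j|) := by
        apply Av_mono
        intro j
        rw [← sq_abs]
        have := h.hτ1 ε j
        nlinarith [abs_nonneg (τ ε j)]
    _ = (l ^ 2 * B) * Av (fun j => |τ ε j|) := Av_mul_left _ _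
    _ ≤ (l ^ 2 * B) * B :=
        mul_le_mul_of_nonneg_left (h.hτ2 ε) (by have := h.hB0; have := h.hl; positivity)
    _ = _ := by ring

theorem bb_sq (h : Dat I J m l A B C₁ C₄ c₀ θ L D s a τ z) :
    Av (fun j => ∑ i, bb τ i j ^ 2) ≤ (l * B) ^ 2 := by
  calc Av (fun j => ∑ i, bb τ i j ^ 2) ≤ Av (fun j => Av (fun ε : I → Bool => τ ε j ^ 2)) :=
        Av_mono fun j => bessel (fun ε => τ ε j)
    _ = Av (fun ε : I → Bool => Av (fun j => τ ε j ^ 2)) := Av_comm _
    _ ≤ Av (fun _ : I → Bool => (l * B) ^ 2) := Av_mono fun ε => h.tau_sq ε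
    _ = _ := Av_const _

theorem abs_bb_le (h : Dat I J m l A B C₁ C₄ c₀ θ L D s a τ z) (i : I) (j : J) :
    |bb τ i j| ≤ l ^ 2 * B := by
  calc |bb τ i j| ≤ Av (fun η : I → Bool => |sg (η i) * τ η j|) := abs_Av_le _
    _ ≤ Av (fun _ : I → Bool => l ^ 2 * B) := by
        apply Av_mono
        intro η
        rw [abs_mul, abs_sg, one_mul]
        exact h.hτ1 η j
    _ = _ := Av_const _

theorem yy_sq (h : Dat I J m l A B C₁ C₄ c₀ θ L D s a τ z) :
    Av (fun ε : I → Bool => Av (fun j => yy a ε j ^ 2)) = s ^ 2 := by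
  rw [Av_comm]
  have h1 : ∀ j, Av (fun ε : I → Bool => yy a ε j ^ 2) = ∑ i, a i j ^ 2 := fun j =>
    Av_sum_sq fun i => a i j
  simp_rw [h1]
  rw [Av_sum, h.hs]

/-- the pairing is at least `7/8` -/
theorem pairing (h : Dat I J m l A B C₁ C₄ c₀ θ L D s a τ z) (hBs : B * s ≤ 1 / 8) :
    7 / 8 ≤ Av (fun j => ∑ i, a i j * bb τ i j) := by
  have h1 : Av (fun ε : I → Bool => Av (fun j => (τ ε j + z ε j) * yy a ε j)) = 1 := by
    have : ∀ ε : I → Bool, Av (fun j => (τ ε j + z ε j) * yy a ε j) = 1 := h.h1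
    simp_rw [this]
    exact Av_const 1
  have h2 : Av (fun ε : I → Bool => Av (fun j => (τ ε j + z ε j) * yy a ε j)) =
      Av (fun ε : I → Bool => Av (fun j => τ ε j * yy a ε j)) +
        Av (fun ε : I → Bool => Av (fun j => z ε j * yy a ε j)) := by
    simp_rw [add_mul, Av_add]
  have h3 : Av (fun ε : I → Bool => Av (fun j => τ ε j * yy a ε j)) =
      Av (fun j => ∑ i, a i j * bb τ i j) := by
    rw [Av_comm]
    congr 1
    funext j
    have h4 : (fun ε : I → Bool => τ ε j * yy a ε j) =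
        fun ε : I → Bool => ∑ i, a i j * (sg (ε i) * τ ε j) := by
      funext ε
      unfold yy
      rw [mul_sum]
      apply sum_congr rfl
      intro i _
      ring
    rw [h4, Av_sum]
    apply sum_congr rfl
    intro i _
    rw [Av_mul_left]
    rfl
  have h5 : Av (fun ε : I → Bool => Av (fun j => z ε j * yy a ε j)) ≤ B * s := by
    have hs := h.s_pos
    have hB := h.hB0
    have h6 : ∀ x y : ℝ, x * y ≤ (s / (2 * B)) * x ^ 2 + (B / (2 * s)) * y ^ 2 := by
      intro x y
      have h7 : s / (2 * B) * x ^ 2 + B / (2 * s) * y ^ 2 - x * y =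
          (s * x - B * y) ^ 2 / (2 * B * s) := by
        field_simp; ring
      have h8 : 0 ≤ (s * x - B * y) ^ 2 / (2 * B * s) := by positivity
      linarith
    calc Av (fun ε : I → Bool => Av (fun j => z ε j * yy a ε j)) ≤
        Av (fun ε : I → Bool => Av (fun j => (s / (2 * B)) * z ε j ^ 2 +
          (B / (2 * s)) * yy a ε j ^ 2)) := Av_mono fun ε => Av_mono fun j => h6 _ _
      _ = (s / (2 * B)) * Av (fun ε : I → Bool => Av (fun j => z ε j ^ 2)) +
          (B / (2 * s)) * Av (fun ε : I → Bool => Av (fun j => yy a ε j ^ 2)) := by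
          simp_rw [Av_add, Av_mul_left]
      _ ≤ (s / (2 * B)) * B ^ 2 + (B / (2 * s)) * s ^ 2 := by
          rw [h.yy_sq]
          have h9 : Av (fun ε : I → Bool => Av (fun j => z ε j ^ 2)) ≤ B ^ 2 := by
            calc _ ≤ Av (fun _ : I → Bool => B ^ 2) := Av_mono fun ε => h.hz ε
              _ = _ := Av_const _
          have := mul_le_mul_of_nonneg_left h9 (by positivity : 0 ≤ s / (2 * B))
          linarith
      _ = B * s := by field_simp; ring
  rw [h2, h3] at h1
  linarith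

/-- the square function of the small coefficients of the linear part -/
noncomputable def gg (d : ℝ) (τ : (I → Bool) → J → ℝ) (j : J) : ℝ := √(∑ i, sm d (bb τ i j) ^ 2)

omit [Fintype J] in
theorem gg_sq (d : ℝ) (τ : (I → Bool) → J → ℝ) (j : J) :
    gg d τ j ^ 2 = ∑ i, sm d (bb τ i j) ^ 2 :=
  Real.sq_sqrt (sum_nonneg fun _ _ => sq_nonneg _)

omit [Fintype J] in
theorem gg_nonneg (d : ℝ) (τ : (I → Bool) → J → ℝ) (j : J) : 0 ≤ gg d τ j := Real.sqrt_nonneg _

/-- mean of the square function of the linear part -/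
theorem Av_gg (h : Dat I J m l A B C₁ C₄ c₀ θ L D s a τ z) (d : ℝ) :
    Av (fun j => gg d τ j) ≤ 4 * (1 + 5 * C₄) * B := by
  have := h.nonempty
  have h1 : ∀ j, gg d τ j ≤ 4 * Av (fun ε : I → Bool => |τ ε j| + |ww τ ε j|) := by
    intro j
    have h2 : gg d τ j ≤ √(∑ i, bb τ i j ^ 2) :=
      Real.sqrt_le_sqrt (sum_le_sum fun i _ => sm_sq_le _ _)
    have h3 := khin (fun i => bb τ i j) (√(∑ i, bb τ i j ^ 2)) (Real.sqrt_nonneg _)
      (Real.sq_sqrt (sum_nonneg fun _ _ => sq_nonneg _))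
    refine h2.trans (h3.trans ?_)
    apply mul_le_mul_of_nonneg_left _ (by norm_num)
    apply Av_mono
    intro ε
    have h4 : ∑ i, sg (ε i) * bb τ i j = τ ε j + ww τ ε j := by
      unfold ww linPart bb
      ring
    rw [h4]
    exact abs_add_le _ _
  have h2 : Av (fun j => Av (fun ε : I → Bool => |τ ε j|)) ≤ B := by
    rw [Av_comm]
    calc _ ≤ Av (fun _ : I → Bool => B) := Av_mono fun ε => h.hτ2 ε
      _ = _ := Av_const _
  have h3 : Av (fun j => Av (fun ε : I → Bool => |ww τ ε j|)) ≤ 5 * C₄ * B := by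
    have hC := h.hC₄
    have hB := h.hB0
    apply le_of_sq_le_sq _ (by positivity)
    calc (Av (fun j => Av (fun ε : I → Bool => |ww τ ε j|))) ^ 2 ≤
        Av (fun j => (Av (fun ε : I → Bool => |ww τ ε j|)) ^ 2) := Av_sq_le _
      _ ≤ Av (fun j => Av (fun ε : I → Bool => |ww τ ε j| ^ 2)) := Av_mono fun j => Av_sq_le _
      _ = Av (fun j => Av (fun ε : I → Bool => ww τ ε j ^ 2)) := by simp_rw [sq_abs]
      _ ≤ _ := h.ww_sq
  calc Av (fun j => gg d τ j) ≤ Av (fun j => 4 * Av (fun ε : I → Bool => |τ ε j| + |ww τ ε j|)) :=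
        Av_mono h1
    _ = 4 * (Av (fun j => Av (fun ε : I → Bool => |τ ε j|)) +
        Av (fun j => Av (fun ε : I → Bool => |ww τ ε j|))) := by
        simp_rw [Av_mul_left, Av_add]
    _ ≤ 4 * (B + 5 * C₄ * B) := by linarith
    _ = _ := by ring

/-- coordinates where the linear part has a large square function -/
theorem big_gg (h : Dat I J m l A B C₁ C₄ c₀ θ L D s a τ z) (d M : ℝ) (hM : 1 ≤ M)
    (hd0 : 0 < d) (hd : d ≤ l ^ 2 * B / (8 * M ^ 2)) :
    Av (fun j => ind (l ^ 2 * B ≤ M * gg d τ j) * gg d τ j ^ 2) ≤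
      2 / pT (2 * M) * (5 * C₄ * B) ^ 2 := by
  have hp := pT_pos (2 * M)
  have hl := h.hl
  have hB := h.hB0
  have key : ∀ j, pT (2 * M) / 2 * (ind (l ^ 2 * B ≤ M * gg d τ j) * gg d τ j ^ 2) ≤
      Av (fun ε : I → Bool => ww τ ε j ^ 2) := by
    intro j
    by_cases hj : l ^ 2 * B ≤ M * gg d τ j
    · rw [ind_true hj, one_mul]
      have hg0 : 0 < gg d τ j := by
        have h1 : 0 < M * gg d τ j := lt_of_lt_of_le (by positivity) hj
        by_contra hcon
        push Not at hcon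
        have : M * gg d τ j ≤ 0 := mul_nonpos_of_nonneg_of_nonpos (by linarith) hcon
        linarith
      have h2 := lemT (fun i => sm d (bb τ i j)) (gg d τ j) (2 * M) (by linarith) hg0
        (gg_sq d τ j) (fun i => by
          refine (abs_sm_le hd0.le _).trans (hd.trans ?_)
          rw [div_le_div_iff₀ (by positivity) (by positivity)]
          nlinarith [mul_le_mul_of_nonneg_left hj (by positivity : 0 ≤ 8 * M)])
      have h3 : Av (fun ε : I → Bool => ind (2 * M * gg d τ j ≤ ∑ i, sg (ε i) * sm d (bb τ i j))) ≤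
          Av (fun ε : I → Bool => ind (2 * M * gg d τ j ≤
            |∑ i, sg (ε i) * ((1 - ind (d < |bb τ i j|)) * bb τ i j)|)) := by
        apply Av_mono
        intro ε
        apply ind_mono
        intro h4
        exact h4.trans (le_abs_self _)
      have h4 := flip_le (fun i => bb τ i j) (fun i => d < |bb τ i j|) (2 * M * gg d τ j)
      have h5 : Av (fun ε : I → Bool => gg d τ j ^ 2 *
          ind (2 * M * gg d τ j ≤ |∑ i, sg (ε i) * bb τ i j|)) ≤
          Av (fun ε : I → Bool => ww τ ε j ^ 2) := by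
        apply Av_mono
        intro ε
        by_cases h6 : 2 * M * gg d τ j ≤ |∑ i, sg (ε i) * bb τ i j|
        · rw [ind_true h6, mul_one]
          have h7 : ∑ i, sg (ε i) * bb τ i j = τ ε j + ww τ ε j := by
            unfold ww linPart bb
            ring
          rw [h7] at h6
          have h8 := abs_add_le (τ ε j) (ww τ ε j)
          have h9 := h.hτ1 ε j
          have h10 : gg d τ j ≤ |ww τ ε j| := by nlinarith
          rw [← sq_abs (ww τ ε j)]
          exact pow_le_pow_left₀ hg0.le h10 2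
        · rw [ind_false h6, mul_zero]; positivity
      rw [Av_mul_left] at h5
      have h6 := mul_le_mul_of_nonneg_left (h2.trans (h3.trans h4)) (sq_nonneg (gg d τ j))
      nlinarith
    · rw [ind_false hj, zero_mul, mul_zero]
      exact Av_nonneg fun _ => sq_nonneg _
  have h1 : Av (fun j => pT (2 * M) / 2 * (ind (l ^ 2 * B ≤ M * gg d τ j) * gg d τ j ^ 2)) ≤
      (5 * C₄ * B) ^ 2 := (Av_mono key).trans h.ww_sq
  rw [Av_mul_left] at h1
  rw [div_mul_eq_mul_div, le_div_iff₀ hp]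
  linarith

/-- Region II is small. -/
theorem reg_II (h : Dat I J m l A B C₁ C₄ c₀ θ L D s a τ z) (M : ℝ) (hM : 1 ≤ M)
    (k9 : 32 * l * M ^ 2 ≤ D) (k10 : 2 * l ^ 2 ≤ D) (k11 : l ^ 4 ≤ L ^ 2) :
    ∑ j, ind (A < M * hh D a j) ≤ 3 / pT (4 * M) * (Fintype.card J / l ^ 2) := by
  have hp := pT_pos (4 * M)
  have hl := h.hl
  have hl0 : 0 < l := by linarith
  have hN := h.Npos
  have hD := h.hD
  have hA0 := h.hA0
  have hs0 := h.hs0
  have hsA := h.hsA
  have hs1 := h.hs1
  have hs := h.s_pos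
  have hL := h.hL
  set N : ℝ := ((Fintype.card J : ℕ) : ℝ) with hNdef
  have hcount := h.count (4 * M) (by linarith) (fun j => A < M * hh D a j ∧ ∀ i, |a i j| ≤ D)
    (fun j hj => hj.2) (fun j hj => by have := hj.1; linarith) (fun j hj => by
      have h1 := hj.1
      have h2 : 1 / (2 * l) ≤ M * hh D a j := by linarith
      have hM0 : 0 < M := by linarith
      calc 1 / D ≤ 1 / (32 * l * M ^ 2) := one_div_le_one_div_of_le (by positivity) k9
        _ = (1 / (2 * l)) / (M * (4 * (4 * M))) := by field_simp; norm_num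
        _ ≤ (M * hh D a j) / (M * (4 * (4 * M))) := div_le_div_of_nonneg_right h2 (by positivity)
        _ = hh D a j / (4 * (4 * M)) := by field_simp)
  rw [← hNdef] at hcount
  have hm : (m:ℝ) = N / l ^ 2 := by
    rw [hNdef, h.hJ]; field_simp
  have h3 : N * (1 / L ^ 2) / (4 * A ^ 2) ≤ N / l ^ 2 := by
    have h4 := h.inv_A_sq
    calc N * (1 / L ^ 2) / (4 * A ^ 2) = N * (1 / L ^ 2) * (1 / (4 * A ^ 2)) := by ring
      _ ≤ N * (1 / L ^ 2) * l ^ 2 := mul_le_mul_of_nonneg_left h4 (by positivity)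
      _ ≤ N * (1 / l ^ 4) * l ^ 2 := by
          apply mul_le_mul_of_nonneg_right _ (by positivity)
          apply mul_le_mul_of_nonneg_left _ hN.le
          exact one_div_le_one_div_of_le (by positivity) k11
      _ = N / l ^ 2 := by field_simp
  have h4 : ∑ j, ind (A < M * hh D a j ∧ ∀ i, |a i j| ≤ D) ≤ 2 * (N / l ^ 2) / pT (4 * M) := by
    rw [le_div_iff₀ hp, mul_comm]
    linarith
  have h5 := h.few_big
  rw [← hNdef] at h5
  have h6 : N * s ^ 2 / D ^ 2 ≤ N / l ^ 2 := by
    rw [div_le_div_iff₀ (by positivity) (by positivity)]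
    have h7 : s ^ 2 * l ^ 2 ≤ D ^ 2 := by
      calc s ^ 2 * l ^ 2 ≤ (2 * l) ^ 2 * l ^ 2 := by
            apply mul_le_mul_of_nonneg_right _ (by positivity)
            exact pow_le_pow_left₀ hs.le hs1 2
        _ = (2 * l ^ 2) ^ 2 := by ring
        _ ≤ D ^ 2 := pow_le_pow_left₀ (by positivity) k10 2
    calc N * s ^ 2 * l ^ 2 = N * (s ^ 2 * l ^ 2) := by ring
      _ ≤ N * D ^ 2 := mul_le_mul_of_nonneg_left h7 hN.le
  have h7 : ∑ j, ind (A < M * hh D a j) ≤ ∑ j, (ind (A < M * hh D a j ∧ ∀ i, |a i j| ≤ D) +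
      ind (∃ i, D < |a i j|)) := by
    apply sum_le_sum
    intro j _
    apply ind_le_add
    intro h8
    by_cases h9 : ∃ i, D < |a i j|
    · exact Or.inr h9
    · push Not at h9
      exact Or.inl ⟨h8, h9⟩
  rw [sum_add_distrib] at h7
  have hp1 : pT (4 * M) ≤ 1 := by
    unfold pT
    have : Real.exp (-(22 * (4 * M) ^ 2)) ≤ 1 := Real.exp_le_one_iff.mpr (by nlinarith [sq_nonneg M])
    linarith
  have h8 : N / l ^ 2 ≤ N / l ^ 2 / pT (4 * M) := by
    rw [le_div_iff₀ hp]
    have : 0 ≤ N / l ^ 2 := by positivity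
    nlinarith
  calc ∑ j, ind (A < M * hh D a j) ≤ 2 * (N / l ^ 2) / pT (4 * M) + N / l ^ 2 / pT (4 * M) := by
        linarith
    _ = 3 / pT (4 * M) * (N / l ^ 2) := by ring

/-- the mean of the square function on region II -/
theorem Av_hh_II (h : Dat I J m l A B C₁ C₄ c₀ θ L D s a τ z) (M : ℝ) (hM : 1 ≤ M)
    (k9 : 32 * l * M ^ 2 ≤ D) (k10 : 2 * l ^ 2 ≤ D) (k11 : l ^ 4 ≤ L ^ 2) :
    Av (fun j => ind (A < M * hh D a j) * hh D a j) ≤ 4 * (3 / pT (4 * M) + 1) * A / l ^ 2 := by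
  have hl := h.hl
  have hl0 : 0 < l := by linarith
  have hN := h.Npos
  have hA0 := h.hA0
  have h1 : ∀ j, hh D a j ≤ 4 * Av (fun ε : I → Bool => |yy a ε j|) := by
    intro j
    have h2 : hh D a j ≤ √(∑ i, a i j ^ 2) :=
      Real.sqrt_le_sqrt (sum_le_sum fun i _ => sm_sq_le _ _)
    have h3 := khin (fun i => a i j) (√(∑ i, a i j ^ 2)) (Real.sqrt_nonneg _)
      (Real.sq_sqrt (sum_nonneg fun _ _ => sq_nonneg _))
    exact h2.trans h3
  have h2 : Av (fun j => ind (A < M * hh D a j) * hh D a j) ≤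
      4 * Av (fun ε : I → Bool => Av (fun j => ind (A < M * hh D a j) * |yy a ε j|)) := by
    calc Av (fun j => ind (A < M * hh D a j) * hh D a j) ≤
        Av (fun j => 4 * Av (fun ε : I → Bool => ind (A < M * hh D a j) * |yy a ε j|)) := by
          apply Av_mono
          intro j
          rw [Av_mul_left]
          have := mul_le_mul_of_nonneg_left (h1 j) (ind_nonneg (A < M * hh D a j))
          linarith
      _ = _ := by rw [Av_mul_left, Av_comm]
  have h3 : ∀ ε : I → Bool, Av (fun j => ind (A < M * hh D a j) * |yy a ε j|) ≤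
      (3 / pT (4 * M) + 1) * A / l ^ 2 := by
    intro ε
    have h4 := h.sum_le_of_ind ε (fun j => A < M * hh D a j)
    have h5 := h.reg_II M hM k9 k10 k11
    unfold Av
    rw [div_le_iff₀ hN]
    have hm : (m:ℝ) = Fintype.card J / l ^ 2 := by
      rw [h.hJ]; field_simp
    calc ∑ j, ind (A < M * hh D a j) * |yy a ε j| ≤ (∑ j, ind (A < M * hh D a j) + m) * A := h4
      _ ≤ (3 / pT (4 * M) * (Fintype.card J / l ^ 2) + Fintype.card J / l ^ 2) * A := by
          apply mul_le_mul_of_nonneg_right _ hA0.le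
          rw [← hm] at h5 ⊢
          linarith
      _ = _ := by field_simp
  calc _ ≤ 4 * Av (fun ε : I → Bool => Av (fun j => ind (A < M * hh D a j) * |yy a ε j|)) := h2
    _ ≤ 4 * Av (fun _ : I → Bool => (3 / pT (4 * M) + 1) * A / l ^ 2) :=
        mul_le_mul_of_nonneg_left (Av_mono h3) (by norm_num)
    _ = _ := by rw [Av_const]; ring

/-- **The contradiction.** -/
theorem contra (h : Dat I J m l A B C₁ C₄ c₀ θ L D s a τ z) (γ M₁ M₃ δ : ℝ) (hγ : 0 < γ)
    (hγA : γ * s ≤ A) (hM₁ : 1 ≤ M₁) (hM₃ : 1 ≤ M₃) (hδ : 0 < δ) (k1 : C₁ / γ ≤ 1 / 8)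
    (k2 : 8 * C₁ * l ^ 5 / D ≤ 1 / 8) (k3 : 2 * l ^ 2 * C₁ / L ≤ 1 / 8)
    (k4 : 2 * l ^ 3 * C₁ / (D * δ) ≤ 1 / 8) (k5 : 4 * (1 + 5 * C₄) * C₁ / M₁ ≤ 1 / 8)
    (k6 : 4 * (3 / pT (4 * M₁) + 1) * C₁ / M₃ ≤ 1 / 8)
    (k7 : 2 * (5 * C₄) * C₁ / (pT (2 * M₃) * γ) ≤ 1 / 8) (k8 : δ ≤ 1 / (8 * M₃ ^ 2))
    (k9 : 32 * l * M₁ ^ 2 ≤ D) (k10 : 2 * l ^ 2 ≤ D) (k11 : l ^ 4 ≤ L ^ 2) : False := by
  have hl := h.hl
  have hl0 : 0 < l := by linarith
  have hN := h.Npos
  have hD := h.hD
  have hA0 := h.hA0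
  have hB0 := h.hB0
  have hs0 := h.hs0
  have hsA := h.hsA
  have hs1 := h.hs1
  have hs := h.s_pos
  have hL := h.hL
  have hAB := h.hAB
  have hC₁ := h.hC₁
  have hC₄ := h.hC₄
  have hne := h.nonempty
  have hM₁0 : 0 < M₁ := by linarith
  have hM₃0 : 0 < M₃ := by linarith
  have hp₃ := pT_pos (2 * M₃)
  have hp₁ := pT_pos (4 * M₁)
  -- bounds for `B`
  have hB1 : B ≤ 2 * l * C₁ := by
    have h1 : 1 / (2 * l) ≤ A := hs0.trans hsA
    rw [div_le_iff₀ (by positivity)] at h1
    calc B = B * 1 := by ring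
      _ ≤ B * (A * (2 * l)) := mul_le_mul_of_nonneg_left h1 hB0.le
      _ = 2 * l * (A * B) := by ring
      _ = _ := by rw [hAB]
  have hBs : B * s ≤ C₁ / γ := by
    rw [le_div_iff₀ hγ]
    calc B * s * γ = B * (γ * s) := by ring
      _ ≤ B * A := mul_le_mul_of_nonneg_left hγA hB0.le
      _ = C₁ := by rw [mul_comm, hAB]
  have hpair := h.pairing (hBs.trans k1)
  have hD1 : 1 ≤ D := by nlinarith
  set d : ℝ := δ * B with hd
  have hd0 : 0 < d := by positivity
  -- pointwise decomposition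
  have hpt : ∀ j, ∑ i, a i j * bb τ i j ≤
      (1 / D) * (∑ i, bb τ i j ^ 2 / d) +
      ∑ i, (ind (1 / D < |a i j| ∧ |a i j| ≤ D) * a i j) * bb τ i j +
      (l ^ 2 * B) * ∑ i, a i j ^ 2 / D +
      (A / M₁ * gg d τ j + (ind (A < M₁ * hh D a j) * hh D a j) * (l ^ 2 * B / M₃) +
        hh D a j * (ind (l ^ 2 * B ≤ M₃ * gg d τ j) * gg d τ j)) := by
    intro j
    have e1 : ∀ i, a i j * bb τ i j = sm (1 / D) (a i j) * lg d (bb τ i j) +
        (ind (1 / D < |a i j| ∧ |a i j| ≤ D) * a i j) * bb τ i j + lg D (a i j) * bb τ i j +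
        sm (1 / D) (a i j) * sm d (bb τ i j) := by
      intro i
      have e2 : a i j = sm (1 / D) (a i j) + ind (1 / D < |a i j| ∧ |a i j| ≤ D) * a i j +
          lg D (a i j) := by
        unfold sm lg
        by_cases h1 : 1 / D < |a i j|
        · by_cases h2 : D < |a i j|
          · rw [ind_true h1, ind_true h2, ind_false (fun h3 => not_lt.mpr h3.2 h2)]; ring
          · rw [ind_true h1, ind_false h2, ind_true ⟨h1, not_lt.mp h2⟩]; ring
        · have h2 : ¬ D < |a i j| := by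
            intro h3
            apply h1
            have : 1 / D ≤ 1 := by rw [div_le_one hD]; exact hD1
            linarith
          rw [ind_false h1, ind_false h2, ind_false (fun h3 => h1 h3.1)]; ring
      have e3 := sm_add_lg d (bb τ i j)
      calc a i j * bb τ i j = (sm (1 / D) (a i j) +
            ind (1 / D < |a i j| ∧ |a i j| ≤ D) * a i j + lg D (a i j)) * bb τ i j := by
            rw [← e2]
        _ = sm (1 / D) (a i j) * bb τ i j +
            (ind (1 / D < |a i j| ∧ |a i j| ≤ D) * a i j) * bb τ i j +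
              lg D (a i j) * bb τ i j := by ring
        _ = sm (1 / D) (a i j) * (sm d (bb τ i j) + lg d (bb τ i j)) +
            (ind (1 / D < |a i j| ∧ |a i j| ≤ D) * a i j) * bb τ i j +
              lg D (a i j) * bb τ i j := by rw [e3]
        _ = _ := by ring
    simp_rw [e1]
    rw [sum_add_distrib, sum_add_distrib, sum_add_distrib]
    have f1 : ∑ i, sm (1 / D) (a i j) * lg d (bb τ i j) ≤ (1 / D) * ∑ i, bb τ i j ^ 2 / d := by
      rw [mul_sum]
      apply sum_le_sum
      intro i _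
      calc sm (1 / D) (a i j) * lg d (bb τ i j) ≤ |sm (1 / D) (a i j) * lg d (bb τ i j)| :=
            le_abs_self _
        _ = |sm (1 / D) (a i j)| * |lg d (bb τ i j)| := abs_mul _ _
        _ ≤ (1 / D) * (bb τ i j ^ 2 / d) :=
            mul_le_mul (abs_sm_le (by positivity) _) (abs_lg_le_sq_div hd0 _) (abs_nonneg _)
              (by positivity)
    have f2 : ∑ i, lg D (a i j) * bb τ i j ≤ (l ^ 2 * B) * ∑ i, a i j ^ 2 / D := by
      rw [mul_sum]
      apply sum_le_sum
      intro i _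
      calc lg D (a i j) * bb τ i j ≤ |lg D (a i j) * bb τ i j| := le_abs_self _
        _ = |bb τ i j| * |lg D (a i j)| := by rw [abs_mul, mul_comm]
        _ ≤ (l ^ 2 * B) * (a i j ^ 2 / D) :=
            mul_le_mul (h.abs_bb_le i j) (abs_lg_le_sq_div hD _) (abs_nonneg _) (by positivity)
    have f3 : ∑ i, sm (1 / D) (a i j) * sm d (bb τ i j) ≤ hh D a j * gg d τ j := by
      unfold hh gg
      rw [← Real.sqrt_mul (sum_nonneg fun _ _ => sq_nonneg _)]
      apply Real.le_sqrt_of_sq_le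
      exact sum_mul_sq_le_sq_mul_sq _ _ _
    have g1 : hh D a j * gg d τ j ≤ A / M₁ * gg d τ j +
        (ind (A < M₁ * hh D a j) * hh D a j) * (l ^ 2 * B / M₃) +
        hh D a j * (ind (l ^ 2 * B ≤ M₃ * gg d τ j) * gg d τ j) := by
      have hh0 := hh_nonneg D a j
      have gg0 := gg_nonneg d τ j
      have t1 : 0 ≤ A / M₁ * gg d τ j := by positivity
      have t2 : 0 ≤ (ind (A < M₁ * hh D a j) * hh D a j) * (l ^ 2 * B / M₃) := by
        have := ind_nonneg (A < M₁ * hh D a j)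
        positivity
      by_cases h1 : l ^ 2 * B ≤ M₃ * gg d τ j
      · rw [ind_true h1]; linarith
      · rw [ind_false h1]
        by_cases h2 : A < M₁ * hh D a j
        · rw [ind_true h2]
          have h3 : gg d τ j ≤ l ^ 2 * B / M₃ := by
            rw [le_div_iff₀ hM₃0]; push Not at h1; linarith
          have := mul_le_mul_of_nonneg_left h3 hh0
          linarith
        · rw [ind_false h2]
          have h3 : hh D a j ≤ A / M₁ := by
            rw [le_div_iff₀ hM₁0]; push Not at h2; linarith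
          have := mul_le_mul_of_nonneg_right h3 gg0
          linarith
    linarith
  have hfin := Av_mono hpt
  simp only [Av_add, Av_mul_left] at hfin
  -- term 1
  have t1 : 1 / D * Av (fun j => ∑ i, bb τ i j ^ 2 / d) ≤ 1 / 8 := by
    have e1 : (fun j => ∑ i, bb τ i j ^ 2 / d) = fun j : J => (1 / d) * ∑ i, bb τ i j ^ 2 := by
      funext j; rw [mul_sum]; apply sum_congr rfl; intro i _; ring
    rw [e1, Av_mul_left]
    calc 1 / D * (1 / d * Av (fun j => ∑ i, bb τ i j ^ 2)) ≤ 1 / D * (1 / d * (l * B) ^ 2) := by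
          apply mul_le_mul_of_nonneg_left _ (by positivity)
          exact mul_le_mul_of_nonneg_left h.bb_sq (by positivity)
      _ = l ^ 2 * B / (D * δ) := by rw [hd]; field_simp
      _ ≤ l ^ 2 * (2 * l * C₁) / (D * δ) := by
          apply div_le_div_of_nonneg_right _ (by positivity)
          exact mul_le_mul_of_nonneg_left hB1 (by positivity)
      _ = 2 * l ^ 3 * C₁ / (D * δ) := by ring
      _ ≤ _ := k4
  -- term 2
  have t2 : Av (fun j => ∑ i, (ind (1 / D < |a i j| ∧ |a i j| ≤ D) * a i j) * bb τ i j) ≤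
      1 / 8 := by
    have e1 := Av_sum_mul_le (J := J)
      (F := fun i j => ind (1 / D < |a i j| ∧ |a i j| ≤ D) * a i j)
      (G := fun i j => bb τ i j) (X := 1 / L) (Y := l * B) (by positivity) (by positivity) ?_ h.bb_sq
    · refine e1.trans ?_
      calc 1 / L * (l * B) ≤ 1 / L * (l * (2 * l * C₁)) := by
            apply mul_le_mul_of_nonneg_left _ (by positivity)
            exact mul_le_mul_of_nonneg_left hB1 hl0.le
        _ = 2 * l ^ 2 * C₁ / L := by ring
        _ ≤ _ := k3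
    · have e2 : (fun j => ∑ i, (ind (1 / D < |a i j| ∧ |a i j| ≤ D) * a i j) ^ 2) =
          fun j : J => ∑ i, ind (1 / D < |a i j| ∧ |a i j| ≤ D) * a i j ^ 2 := by
        funext j; apply sum_congr rfl; intro i _; rw [mul_pow, ind_sq]
      rw [e2, Av_sum, div_pow, one_pow]
      exact h.hmid
  -- term 3
  have t3 : l ^ 2 * B * Av (fun j => ∑ i, a i j ^ 2 / D) ≤ 1 / 8 := by
    have e1 : (fun j => ∑ i, a i j ^ 2 / D) = fun j : J => (1 / D) * ∑ i, a i j ^ 2 := by
      funext j; rw [mul_sum]; apply sum_congr rfl; intro i _; ring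
    rw [e1, Av_mul_left, Av_sum, h.hs]
    calc l ^ 2 * B * (1 / D * s ^ 2) ≤ l ^ 2 * (2 * l * C₁) * (1 / D * (2 * l) ^ 2) := by
          apply mul_le_mul
          · exact mul_le_mul_of_nonneg_left hB1 (by positivity)
          · apply mul_le_mul_of_nonneg_left _ (by positivity)
            exact pow_le_pow_left₀ hs.le hs1 2
          · positivity
          · positivity
      _ = 8 * C₁ * l ^ 5 / D := by ring
      _ ≤ _ := k2
  -- term 4
  have t4 : A / M₁ * Av (fun j => gg d τ j) ≤ 1 / 8 := by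
    calc A / M₁ * Av (fun j => gg d τ j) ≤ A / M₁ * (4 * (1 + 5 * C₄) * B) :=
          mul_le_mul_of_nonneg_left (h.Av_gg d) (by positivity)
      _ = 4 * (1 + 5 * C₄) * (A * B) / M₁ := by ring
      _ ≤ _ := by rw [hAB]; exact k5
  -- term 5
  have t5 : Av (fun j => (ind (A < M₁ * hh D a j) * hh D a j) * (l ^ 2 * B / M₃)) ≤ 1 / 8 := by
    rw [Av_mul_right]
    calc Av (fun j => ind (A < M₁ * hh D a j) * hh D a j) * (l ^ 2 * B / M₃) ≤
        (4 * (3 / pT (4 * M₁) + 1) * A / l ^ 2) * (l ^ 2 * B / M₃) :=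
          mul_le_mul_of_nonneg_right (h.Av_hh_II M₁ hM₁ k9 k10 k11) (by positivity)
      _ = 4 * (3 / pT (4 * M₁) + 1) * (A * B) / M₃ := by field_simp
      _ ≤ _ := by rw [hAB]; exact k6
  -- term 6
  have t6 : Av (fun j => hh D a j * (ind (l ^ 2 * B ≤ M₃ * gg d τ j) * gg d τ j)) ≤ 1 / 8 := by
    have e0 : d ≤ l ^ 2 * B / (8 * M₃ ^ 2) := by
      calc d = B * δ := by rw [hd]; ring
        _ ≤ B * (1 / (8 * M₃ ^ 2)) := mul_le_mul_of_nonneg_left k8 hB0.le
        _ = (1 * B) / (8 * M₃ ^ 2) := by ring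
        _ ≤ _ := by
            apply div_le_div_of_nonneg_right _ (by positivity)
            apply mul_le_mul_of_nonneg_right _ hB0.le
            nlinarith
    have e1 := h.big_gg d M₃ hM₃ hd0 e0
    have e2 := Av_sum_mul_le (I := Unit) (J := J)
      (F := fun _ j => hh D a j) (G := fun _ j => ind (l ^ 2 * B ≤ M₃ * gg d τ j) * gg d τ j)
      (X := s) (Y := 2 / pT (2 * M₃) * (5 * C₄ * B)) hs (by positivity) ?_ ?_
    · simp only [univ_unique, sum_const, card_singleton, one_smul] at e2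
      refine e2.trans ?_
      calc s * (2 / pT (2 * M₃) * (5 * C₄ * B)) = 2 * (5 * C₄) / pT (2 * M₃) * (B * s) := by ring
        _ ≤ 2 * (5 * C₄) / pT (2 * M₃) * (C₁ / γ) :=
            mul_le_mul_of_nonneg_left hBs (by positivity)
        _ = 2 * (5 * C₄) * C₁ / (pT (2 * M₃) * γ) := by field_simp
        _ ≤ _ := k7
    · simp only [univ_unique, sum_const, card_singleton, one_smul]
      calc Av (fun j => hh D a j ^ 2) ≤ Av (fun j => ∑ i, a i j ^ 2) :=
            Av_mono fun j => hh_sq_le a D j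
        _ = s ^ 2 := by rw [Av_sum, h.hs]
    · simp only [univ_unique, sum_const, card_singleton, one_smul, mul_pow, ind_sq]
      refine e1.trans ?_
      have hp1 : pT (2 * M₃) ≤ 1 := by
        unfold pT
        have : Real.exp (-(22 * (2 * M₃) ^ 2)) ≤ 1 :=
          Real.exp_le_one_iff.mpr (by nlinarith [sq_nonneg M₃])
        linarith
      have h1 : 1 ≤ 2 / pT (2 * M₃) := by
        rw [le_div_iff₀ hp₃]; linarith
      have h2 : 2 / pT (2 * M₃) ≤ (2 / pT (2 * M₃)) ^ 2 := by nlinarith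
      have h3 := mul_le_mul_of_nonneg_right h2 (sq_nonneg (5 * C₄ * B))
      calc 2 / pT (2 * M₃) * (5 * C₄ * B) ^ 2 ≤ (2 / pT (2 * M₃)) ^ 2 * (5 * C₄ * B) ^ 2 := h3
        _ = _ := by ring
  linarith

end Dat

end Run7.h288
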