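import Pool.Agent.Run7.h288.Cube

/-!
Walsh expansion on the cube of signs, and the linearisation lemma: an odd function on the cube
whose mixed second differences are small in mean square is close to its linear part.
-/

set_option autoImplicit false

open Finset

namespace Run7.h288

variable {I : Type*} [Fintype I] [DecidableEq I]

/-- Walsh functions -/
noncomputable def wal (A : Finset I) (ε : I → Bool) : ℝ := ∏ i ∈ A, sg (ε i)

/-- Walsh coefficients -/
noncomputable def fh (f : (I → Bool) → ℝ) (A : Finset I) : ℝ := Av (fun ε => f ε * wal A ε)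

omit [DecidableEq I] in
theorem sum_wal (ε η : I → Bool) :
    ∑ A : Finset I, wal A ε * wal A η = if ε = η then 2 ^ Fintype.card I else 0 := by
  have h1 : ∑ A : Finset I, wal A ε * wal A η = ∏ i, (1 + sg (ε i) * sg (η i)) := by
    rw [Finset.prod_one_add, Finset.powerset_univ]
    apply sum_congr rfl
    intro A _
    unfold wal
    rw [← prod_mul_distrib]
  rw [h1]
  by_cases h : ε = η
  · subst h
    rw [if_pos rfl]
    simp_rw [sg_mul_self]
    norm_num
  · rw [if_neg h]
    obtain ⟨i, hi⟩ := Function.ne_iff.mp h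
    apply prod_eq_zero (mem_univ i)
    cases h1 : ε i <;> cases h2 : η i <;> simp_all

theorem walsh_expansion (f : (I → Bool) → ℝ) (ε : I → Bool) :
    f ε = ∑ A : Finset I, fh f A * wal A ε := by
  unfold fh
  simp_rw [← Av_mul_right]
  rw [← Av_sum]
  have h : (fun η : I → Bool => ∑ A : Finset I, f η * wal A η * wal A ε) =
      fun η => f η * (if η = ε then 2 ^ Fintype.card I else 0) := by
    funext η
    rw [← sum_wal, mul_sum]
    apply sum_congr rfl
    intro A _
    ring
  rw [h]
  unfold Av
  simp only [mul_ite, mul_zero, sum_ite_eq', mem_univ, if_true, Fintype.card_fun,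
    Fintype.card_bool]
  push_cast
  field_simp

theorem Av_mul_eq (f g : (I → Bool) → ℝ) :
    Av (fun ε => f ε * g ε) = ∑ A : Finset I, fh f A * fh g A := by
  have h : (fun ε => f ε * g ε) = fun ε => ∑ A : Finset I, fh g A * (f ε * wal A ε) := by
    funext ε
    conv_lhs => rw [walsh_expansion g ε]
    rw [mul_sum]
    apply sum_congr rfl
    intro A _
    ring
  rw [h, Av_sum]
  apply sum_congr rfl
  intro A _
  rw [Av_mul_left, mul_comm]
  rfl

theorem parseval (f : (I → Bool) → ℝ) :
    Av (fun ε => f ε ^ 2) = ∑ A : Finset I, fh f A ^ 2 := by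
  simp_rw [sq]
  exact Av_mul_eq f f

/-- mixing two points of the cube -/
def mix (S ε η : I → Bool) : I → Bool := fun i => if S i then ε i else η i

theorem Av_wal_mix (A : Finset I) (ε : I → Bool) :
    Av (fun S : I → Bool => Av (fun η : I → Bool => wal A (mix S ε η))) =
      (1 / 2) ^ A.card * wal A ε := by
  have h1 : ∀ S : I → Bool, Av (fun η : I → Bool => wal A (mix S ε η)) =
      ∏ i, (if i ∈ A then (if S i then sg (ε i) else 0) else 1) := by
    intro S
    have h2 := Av_prod (I := I) (fun i b => if i ∈ A then sg (if S i then ε i else b) else 1)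
    have h3 : (fun η : I → Bool => wal A (mix S ε η)) =
        fun η : I → Bool => ∏ i, (if i ∈ A then sg (if S i then ε i else η i) else 1) := by
      funext η
      rw [Finset.prod_ite_mem, Finset.univ_inter]
      rfl
    rw [h3, h2]
    apply prod_congr rfl
    intro i _
    by_cases hA : i ∈ A
    · simp only [hA, if_true]
      cases hS : S i
      · simp
      · simp
    · simp [hA]
  simp_rw [h1]
  have h4 := Av_prod (I := I) (fun i b => if i ∈ A then (if b then sg (ε i) else 0) else 1)
  rw [h4]
  have h5 : ∀ i, ((if i ∈ A then (if (true : Bool) = true then sg (ε i) else 0) else (1:ℝ)) +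
      (if i ∈ A then (if (false : Bool) = true then sg (ε i) else 0) else 1)) / 2 =
      if i ∈ A then (1 / 2) * sg (ε i) else 1 := by
    intro i
    by_cases hA : i ∈ A
    · simp [hA]; ring
    · simp [hA]
  rw [prod_congr rfl (fun i _ => h5 i), Finset.prod_ite_mem, Finset.univ_inter, prod_mul_distrib,
    prod_const]
  rfl

/-- the noise operator -/
theorem Av_mix (f : (I → Bool) → ℝ) (ε : I → Bool) :
    Av (fun S : I → Bool => Av (fun η : I → Bool => f (mix S ε η))) =
      ∑ A : Finset I, fh f A * ((1 / 2) ^ A.card * wal A ε) := by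
  have h1 : ∀ S : I → Bool, Av (fun η : I → Bool => f (mix S ε η)) =
      ∑ A : Finset I, fh f A * Av (fun η : I → Bool => wal A (mix S ε η)) := by
    intro S
    have h2 : (fun η : I → Bool => f (mix S ε η)) =
        fun η : I → Bool => ∑ A : Finset I, fh f A * wal A (mix S ε η) := by
      funext η
      exact walsh_expansion f _
    rw [h2, Av_sum]
    apply sum_congr rfl
    intro A _
    rw [Av_mul_left]
  simp_rw [h1]
  rw [Av_sum]
  apply sum_congr rfl
  intro A _
  rw [Av_mul_left, Av_wal_mix]

theorem Av_mul_mix (f : (I → Bool) → ℝ) :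
    Av (fun S : I → Bool => Av (fun ε : I → Bool => Av (fun η : I → Bool =>
      f ε * f (mix S ε η)))) = ∑ A : Finset I, (1 / 2) ^ A.card * fh f A ^ 2 := by
  rw [Av_comm]
  have h1 : ∀ ε : I → Bool, Av (fun S : I → Bool => Av (fun η : I → Bool =>
      f ε * f (mix S ε η))) = ∑ A : Finset I, (fh f A * (1 / 2) ^ A.card) * (f ε * wal A ε) := by
    intro ε
    simp_rw [Av_mul_left]
    rw [Av_mix, mul_sum]
    apply sum_congr rfl
    intro A _
    ring
  simp_rw [h1]
  rw [Av_sum]
  apply sum_congr rfl
  intro A _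
  rw [Av_mul_left]
  change _ * fh f A = _
  ring

/-- complement of a boolean vector -/
def cpl (ε : I → Bool) : I → Bool := fun i => !(ε i)

def cplEquiv : (I → Bool) ≃ (I → Bool) where
  toFun := cpl
  invFun := cpl
  left_inv ε := by funext i; simp [cpl]
  right_inv ε := by funext i; simp [cpl]

omit [Fintype I] [DecidableEq I] in
theorem mix_cpl (S ε η : I → Bool) : mix (cpl S) ε η = mix S η ε := by
  funext i
  unfold mix cpl
  cases S i <;> simp

omit [Fintype I] [DecidableEq I] in
theorem wal_cpl (A : Finset I) (ε : I → Bool) : wal A (cpl ε) = (-1) ^ A.card * wal A ε := by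
  unfold wal cpl
  simp_rw [sg_not]
  rw [← prod_const, ← prod_mul_distrib]
  apply prod_congr rfl
  intro i _
  ring

theorem fh_odd {f : (I → Bool) → ℝ} (hf : ∀ ε, f (cpl ε) = - f ε) {A : Finset I}
    (hA : Even A.card) : fh f A = 0 := by
  have h : fh f A = - fh f A := by
    calc fh f A = Av (fun ε : I → Bool => f (cplEquiv ε) * wal A (cplEquiv ε)) :=
          (Av_comp_equiv cplEquiv (fun ε => f ε * wal A ε)).symm
      _ = Av (fun ε : I → Bool => - (f ε * wal A ε)) := by
          congr 1
          funext ε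
          change f (cpl ε) * wal A (cpl ε) = _
          rw [hf, wal_cpl, hA.neg_one_pow]
          ring
      _ = _ := Av_neg _
  linarith

/-- the swap of two points on a set of coordinates -/
def swapMix (S : I → Bool) : (I → Bool) × (I → Bool) ≃ (I → Bool) × (I → Bool) where
  toFun p := (mix S p.1 p.2, mix S p.2 p.1)
  invFun p := (mix S p.1 p.2, mix S p.2 p.1)
  left_inv p := by
    apply Prod.ext
    · funext i; simp only [mix]; cases S i <;> simp
    · funext i; simp only [mix]; cases S i <;> simp
  right_inv p := by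
    apply Prod.ext
    · funext i; simp only [mix]; cases S i <;> simp
    · funext i; simp only [mix]; cases S i <;> simp

theorem Av_prod_eq {Ω Ω' : Type*} [Fintype Ω] [Fintype Ω'] (F : Ω → Ω' → ℝ) :
    Av (fun p : Ω × Ω' => F p.1 p.2) = Av (fun x => Av (fun y => F x y)) := by
  unfold Av
  rw [Fintype.sum_prod_type, ← sum_div, Fintype.card_prod]
  push_cast
  rw [div_div, mul_comm]

theorem Av_swapMix (S : I → Bool) (F : (I → Bool) → (I → Bool) → ℝ) :
    Av (fun ε : I → Bool => Av (fun η : I → Bool => F (mix S ε η) (mix S η ε))) =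
      Av (fun ε : I → Bool => Av (fun η : I → Bool => F ε η)) := by
  rw [← Av_prod_eq (fun ε η : I → Bool => F (mix S ε η) (mix S η ε)), ← Av_prod_eq F]
  exact Av_comp_equiv (swapMix S) (fun p : (I → Bool) × (I → Bool) => F p.1 p.2)

/-- the mixed second difference -/
noncomputable def DD (f : (I → Bool) → ℝ) (S ε η : I → Bool) : ℝ :=
  f ε + f η - f (mix S ε η) - f (mix S η ε)

theorem Av_DD (f : (I → Bool) → ℝ) (hf : ∀ ε, f (cpl ε) = - f ε) (S : I → Bool) :
    Av (fun ε : I → Bool => Av (fun η : I → Bool => DD f S ε η ^ 2)) =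
      4 * Av (fun ε => f ε ^ 2) - 4 * Av (fun ε : I → Bool => Av (fun η : I → Bool =>
        f ε * f (mix S ε η))) - 4 * Av (fun ε : I → Bool => Av (fun η : I → Bool =>
        f ε * f (mix (cpl S) ε η))) := by
  have h0 : Av f = 0 := by
    have := fh_odd hf (A := ∅) (by simp)
    unfold fh wal at this
    simpa using this
  have hexp : ∀ ε η : I → Bool, DD f S ε η ^ 2 =
      f ε ^ 2 + f η ^ 2 + f (mix S ε η) ^ 2 + f (mix S η ε) ^ 2 + 2 * (f ε * f η)
        + 2 * (f (mix S ε η) * f (mix S η ε)) - 2 * (f ε * f (mix S ε η))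
        - 2 * (f ε * f (mix S η ε)) - 2 * (f η * f (mix S ε η)) - 2 * (f η * f (mix S η ε)) := by
    intro ε η
    unfold DD
    ring
  simp_rw [hexp, Av_sub, Av_add, Av_mul_left]
  have e1 : Av (fun ε : I → Bool => Av (fun _ : I → Bool => f ε ^ 2)) = Av (fun ε => f ε ^ 2) := by
    simp_rw [Av_const]
  have e2 : Av (fun _ : I → Bool => Av (fun η : I → Bool => f η ^ 2)) = Av (fun ε => f ε ^ 2) := by
    rw [Av_const]
  have e3 : Av (fun ε : I → Bool => Av (fun η : I → Bool => f (mix S ε η) ^ 2)) =
      Av (fun ε => f ε ^ 2) := by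
    rw [Av_swapMix S (fun a _ => f a ^ 2), e1]
  have e4 : Av (fun ε : I → Bool => Av (fun η : I → Bool => f (mix S η ε) ^ 2)) =
      Av (fun ε => f ε ^ 2) := by
    rw [Av_comm, e3]
  have e5 : Av (fun ε : I → Bool => f ε * Av (fun η : I → Bool => f η)) = 0 := by
    have : Av (fun η : I → Bool => f η) = 0 := h0
    simp_rw [this, mul_zero]
    exact Av_zero
  have e6 : Av (fun ε : I → Bool => Av (fun η : I → Bool => f (mix S ε η) * f (mix S η ε))) =
      0 := by
    rw [Av_swapMix S (fun a b => f a * f b)]
    simp_rw [Av_mul_left]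
    exact e5
  have e7 : Av (fun ε : I → Bool => f ε * Av (fun η : I → Bool => f (mix S η ε))) =
      Av (fun ε : I → Bool => f ε * Av (fun η : I → Bool => f (mix (cpl S) ε η))) := by
    simp_rw [mix_cpl]
  have e8 : Av (fun ε : I → Bool => Av (fun η : I → Bool => f η * f (mix S ε η))) =
      Av (fun ε : I → Bool => f ε * Av (fun η : I → Bool => f (mix (cpl S) ε η))) := by
    rw [Av_comm]
    simp_rw [mix_cpl, Av_mul_left]
  have e9 : Av (fun ε : I → Bool => Av (fun η : I → Bool => f η * f (mix S η ε))) =
      Av (fun ε : I → Bool => f ε * Av (fun η : I → Bool => f (mix S ε η))) := by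
    rw [Av_comm]
    simp_rw [Av_mul_left]
  rw [e1, e2, e3, e4, e5, e6, e7, e8, e9]
  ring

/-- **Lemma L**, first form. -/
theorem lemL0 (f : (I → Bool) → ℝ) (hf : ∀ ε, f (cpl ε) = - f ε)
    (h1 : ∀ i, Av (fun ε : I → Bool => sg (ε i) * f ε) = 0) :
    3 * Av (fun ε => f ε ^ 2) ≤ Av (fun S : I → Bool => Av (fun ε : I → Bool =>
      Av (fun η : I → Bool => DD f S ε η ^ 2))) := by
  simp_rw [Av_DD f hf]
  rw [Av_sub, Av_sub, Av_mul_left, Av_mul_left, Av_const]
  have h2 : Av (fun S : I → Bool => Av (fun ε : I → Bool => Av (fun η : I → Bool =>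
      f ε * f (mix (cpl S) ε η)))) = Av (fun S : I → Bool => Av (fun ε : I → Bool =>
      Av (fun η : I → Bool => f ε * f (mix S ε η)))) :=
    Av_comp_equiv cplEquiv (fun S : I → Bool => Av (fun ε : I → Bool =>
      Av (fun η : I → Bool => f ε * f (mix S ε η))))
  rw [Av_mul_left 4 (fun S : I → Bool => Av (fun ε : I → Bool =>
      Av (fun η : I → Bool => f ε * f (mix (cpl S) ε η)))), h2, Av_mul_mix, parseval, mul_sum, mul_sum, mul_sum, ← sum_sub_distrib, ← sum_sub_distrib]
  apply sum_le_sum
  intro A _
  rcases Nat.even_or_odd A.card with hA | hA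
  · rw [fh_odd hf hA]; norm_num
  · rcases Nat.lt_or_ge A.card 3 with h3 | h3
    · have h4 : A.card = 1 := by
        obtain ⟨k, hk⟩ := hA
        omega
      obtain ⟨i, rfl⟩ := Finset.card_eq_one.mp h4
      have h5 : fh f {i} = 0 := by
        rw [← h1 i]
        unfold fh wal
        simp only [prod_singleton]
        congr 1
        funext ε
        ring
      rw [h5]; norm_num
    · have h6 : ((1:ℝ) / 2) ^ A.card ≤ (1 / 2) ^ 3 :=
        pow_le_pow_of_le_one (by norm_num) (by norm_num) h3
      have h7 := sq_nonneg (fh f A)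
      nlinarith

/-- the linear part of a function on the cube -/
noncomputable def linPart (f : (I → Bool) → ℝ) (ε : I → Bool) : ℝ :=
  ∑ i, sg (ε i) * Av (fun η : I → Bool => sg (η i) * f η)

omit [DecidableEq I] in
theorem DD_lin (b : I → ℝ) (S ε η : I → Bool) :
    DD (fun ε : I → Bool => ∑ i, sg (ε i) * b i) S ε η = 0 := by
  unfold DD
  rw [← sum_add_distrib, ← sum_sub_distrib, ← sum_sub_distrib]
  apply sum_eq_zero
  intro i _
  unfold mix
  cases S i <;> simp

/-- **Lemma L.** -/
theorem lemL (f : (I → Bool) → ℝ) (hf : ∀ ε, f (cpl ε) = - f ε) :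
    3 * Av (fun ε => (linPart f ε - f ε) ^ 2) ≤ Av (fun S : I → Bool =>
      Av (fun ε : I → Bool => Av (fun η : I → Bool => DD f S ε η ^ 2))) := by
  have h := lemL0 (fun ε => linPart f ε - f ε) ?_ ?_
  · refine h.trans (le_of_eq ?_)
    congr 1; funext S; congr 1; funext ε; congr 1; funext η
    have h1 := DD_lin (fun i => Av (fun η : I → Bool => sg (η i) * f η)) S ε η
    have h2 : DD (fun ε => linPart f ε - f ε) S ε η =
        DD (fun ε : I → Bool => ∑ i, sg (ε i) * Av (fun η : I → Bool => sg (η i) * f η)) S ε η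
          - DD f S ε η := by
      unfold DD linPart
      ring
    rw [h2, h1]
    ring
  · intro ε
    unfold linPart
    rw [hf]
    have : ∑ i, sg (cpl ε i) * Av (fun η : I → Bool => sg (η i) * f η) =
        - ∑ i, sg (ε i) * Av (fun η : I → Bool => sg (η i) * f η) := by
      rw [← sum_neg_distrib]
      apply sum_congr rfl
      intro i _
      unfold cpl
      rw [sg_not]
      ring
    rw [this]
    ring
  · intro i
    have h1 : (fun ε : I → Bool => sg (ε i) * (linPart f ε - f ε)) =
        fun ε : I → Bool => (∑ k, sg (ε k) * (if k = i then 1 else 0)) *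
          (∑ k, sg (ε k) * Av (fun η : I → Bool => sg (η k) * f η)) - sg (ε i) * f ε := by
      funext ε
      unfold linPart
      simp only [mul_ite, mul_one, mul_zero, sum_ite_eq', mem_univ, if_true]
      ring
    rw [h1, Av_sub, Av_sum_mul_sum]
    simp only [ite_mul, one_mul, zero_mul, sum_ite_eq', mem_univ, if_true, sub_self]

end Run7.h288
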