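import Pool.Agent.Run7.h288.ToDat

/-!
Selection of a scale and of a block of vectors.
-/

set_option autoImplicit false

open Finset

namespace Run7.h288

/-- exclusive propositions -/
theorem sum_ind_le_one {κ : Type*} (S : Finset κ) (p : κ → Prop)
    (h : ∀ k ∈ S, ∀ k' ∈ S, p k → p k' → k = k') : ∑ k ∈ S, ind (p k) ≤ 1 := by
  classical
  by_cases h1 : ∃ k ∈ S, p k
  · obtain ⟨k, hk, hpk⟩ := h1
    rw [sum_eq_single_of_mem k hk]
    · exact ind_le_one _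
    · intro k' hk' hne
      exact ind_false fun hp => hne (h k' hk' k hk hp hpk)
  · push Not at h1
    rw [sum_eq_zero fun k hk => ind_false (h1 k hk)]
    norm_num

theorem ind_scale_sum (D : ℕ) (hD : 1 ≤ D) (n : ℕ) (x : ℝ) :
    ∑ k ∈ range n, ind ((D:ℝ) ^ (2 * k) < x ∧ x ≤ (D:ℝ) ^ (2 * k + 2)) ≤ 1 := by
  apply sum_ind_le_one
  have hD1 : (1:ℝ) ≤ D := by exact_mod_cast hD
  have key : ∀ k k' : ℕ, k < k' → ((D:ℝ) ^ (2 * k) < x ∧ x ≤ (D:ℝ) ^ (2 * k + 2)) →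
      ((D:ℝ) ^ (2 * k') < x ∧ x ≤ (D:ℝ) ^ (2 * k' + 2)) → False := by
    intro k k' hkk h1 h2
    have h3 : (D:ℝ) ^ (2 * k + 2) ≤ (D:ℝ) ^ (2 * k') := pow_le_pow_right₀ hD1 (by omega)
    linarith [h1.2, h2.1]
  intro k _ k' _ h1 h2
  rcases lt_trichotomy k k' with h | h | h
  · exact absurd (key k k' h h1 h2) not_false
  · exact h
  · exact absurd (key k' k h h2 h1) not_false

section

variable {X J : Type} [NormedAddCommGroup X] [NormedSpace ℝ X] [Fintype J] {m l : ℕ}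
  {C₄ c₀ θ : ℝ} {ι : X →ₗ[ℝ] (J → ℝ)}

theorem sys_to_dat (hX : GoodSpace X J m l C₄ c₀ θ ι) (hC₄ : 0 < C₄) (hc₀ : 0 < c₀)
    (hc₀' : c₀ ≤ 1) (hθ : 0 < θ) (C₁ : ℝ) (hC₁ : 1 ≤ C₁) (L D : ℕ) (hL : 1 ≤ L) (hD : 1 ≤ D)
    (e : Fin (D ^ (4 * L ^ 2)) → X) (φ : Fin (D ^ (4 * L ^ 2)) → X →ₗ[ℝ] ℝ)
    (hS : Sys X (D ^ (4 * L ^ 2)) C₁ e φ) :
    ∃ (t : ℕ) (A B s : ℝ) (a : Fin (t ^ 2) → J → ℝ) (τ z : (Fin (t ^ 2) → Bool) → J → ℝ),
      Dat (Fin (t ^ 2)) J m (l : ℝ) A B C₁ C₄ c₀ θ (L : ℝ) (D : ℝ) s a τ z := by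
  have hl1 : (1:ℝ) ≤ l := by exact_mod_cast hX.hl
  have hl0 : (0:ℝ) < l := by linarith
  have hL1 : (1:ℝ) ≤ L := by exact_mod_cast hL
  have hD1 : (1:ℝ) ≤ D := by exact_mod_cast hD
  have hD0 : (0:ℝ) < D := by linarith
  have hL0 : (0:ℝ) < L := by linarith
  obtain ⟨K, hK⟩ : ∃ K : ℕ, K = D ^ (4 * L ^ 2) := ⟨_, rfl⟩
  have hK0 : 0 < K := by rw [hK]; positivity
  have hKR : (0:ℝ) < K := by exact_mod_cast hK0
  have hcardK : ((Fintype.card (Fin (D ^ (4 * L ^ 2))) : ℕ) : ℝ) = K := by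
    rw [Fintype.card_fin, ← hK]
  have hne : Nonempty (Fin (D ^ (4 * L ^ 2))) := ⟨⟨0, by rw [← hK]; exact hK0⟩⟩
  obtain ⟨q, hq⟩ : ∃ q : Fin (D ^ (4 * L ^ 2)) → ℝ, ∀ i, q i = Av (fun j => ι (e i) j ^ 2) :=
    ⟨_, fun _ => rfl⟩
  have hq0 : ∀ i, 0 < q i := by
    intro i
    have h1 : e i ≠ 0 := by
      intro h2
      have := hS.bi i
      rw [h2, map_zero] at this
      norm_num at this
    have h3 : 0 < ‖e i‖ ^ 2 := by have := norm_pos_iff.mpr h1; positivity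
    have h4 := hX.n4 (e i)
    rw [← hq] at h4
    have h5 : 0 < (l:ℝ) ^ 2 * q i := by linarith
    exact (mul_pos_iff_of_pos_left (by positivity)).mp h5
  have hqq : ∀ i i', q i ≤ 4 * (l:ℝ) ^ 2 * q i' := by
    intro i i'
    calc q i ≤ ‖e i‖ ^ 2 := by rw [hq]; exact hX.n1 _
      _ ≤ (2 * ‖e i'‖) ^ 2 := pow_le_pow_left₀ (norm_nonneg _) (hS.en i i') 2
      _ = 4 * ‖e i'‖ ^ 2 := by ring
      _ ≤ 4 * ((l:ℝ) ^ 2 * Av (fun j => ι (e i') j ^ 2)) :=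
          mul_le_mul_of_nonneg_left (hX.n4 _) (by norm_num)
      _ = _ := by rw [← hq]; ring
  obtain ⟨Q, hQ⟩ : ∃ Q : ℝ, Q = (∑ i, q i) / K := ⟨_, rfl⟩
  have hsum : ∑ i, q i = K * Q := by rw [hQ]; field_simp
  have hQ0 : 0 < Q := by
    rw [hQ]
    exact div_pos (sum_pos (fun i _ => hq0 i) univ_nonempty) hKR
  have hQ1 : ∀ i, q i / Q ≤ 4 * (l:ℝ) ^ 2 := by
    intro i
    rw [div_le_iff₀ hQ0]
    have h1 : ∑ _i' : Fin (D ^ (4 * L ^ 2)), q i ≤ ∑ i', 4 * (l:ℝ) ^ 2 * q i' :=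
      sum_le_sum fun i' _ => hqq i i'
    rw [sum_const, card_univ, nsmul_eq_mul, hcardK, ← mul_sum, hsum] at h1
    have h2 : (K:ℝ) * q i ≤ K * (4 * (l:ℝ) ^ 2 * Q) := by linarith
    exact le_of_mul_le_mul_left h2 hKR
  have hQ2 : ∀ i, 1 / (4 * (l:ℝ) ^ 2) ≤ q i / Q := by
    intro i
    rw [div_le_div_iff₀ (by positivity) hQ0]
    have h1 : ∑ i', q i' ≤ ∑ _i' : Fin (D ^ (4 * L ^ 2)), 4 * (l:ℝ) ^ 2 * q i :=
      sum_le_sum fun i' _ => hqq i' i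
    rw [sum_const, card_univ, nsmul_eq_mul, hcardK, hsum] at h1
    have h2 := le_of_mul_le_mul_left h1 hKR
    linarith
  obtain ⟨ρ, hρ⟩ : ∃ ρ : ℝ, ρ = √Q := ⟨_, rfl⟩
  have hρ0 : 0 < ρ := by rw [hρ]; exact Real.sqrt_pos.mpr hQ0
  have hρ2 : ρ ^ 2 = Q := by rw [hρ]; exact Real.sq_sqrt hQ0.le
  have hx2 : ∀ i j, ι ((1 / ρ) • e i) j ^ 2 = (1 / Q) * ι (e i) j ^ 2 := by
    intro i j
    rw [map_smul, Pi.smul_apply, smul_eq_mul, mul_pow, div_pow, hρ2, one_pow]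
  have hqx : ∀ i, Av (fun j => ι ((1 / ρ) • e i) j ^ 2) = q i / Q := by
    intro i
    simp_rw [hx2]
    rw [Av_mul_left, hq]
    ring
  -- the scales
  obtain ⟨md, hmd⟩ : ∃ md : ℕ → Fin (D ^ (4 * L ^ 2)) → ℝ, ∀ k i, md k i =
      Av (fun j => ind ((D:ℝ) ^ (2 * k) < |ι ((1 / ρ) • e i) j| ∧
        |ι ((1 / ρ) • e i) j| ≤ (D:ℝ) ^ (2 * k + 2)) * ι ((1 / ρ) • e i) j ^ 2) :=
    ⟨_, fun _ _ => rfl⟩
  have hmsum : ∑ k ∈ range (L ^ 2), ∑ i, md k i ≤ K := by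
    rw [sum_comm]
    calc ∑ i, ∑ k ∈ range (L ^ 2), md k i ≤ ∑ i, q i / Q := by
          apply sum_le_sum
          intro i _
          simp_rw [hmd]
          rw [← Av_sum, ← hqx]
          apply Av_mono
          intro j
          rw [← sum_mul]
          have h1 := ind_scale_sum D hD (L ^ 2) |ι ((1 / ρ) • e i) j|
          have h2 := mul_le_mul_of_nonneg_right h1 (sq_nonneg (ι ((1 / ρ) • e i) j))
          linarith
      _ = K := by rw [← sum_div, hsum]; field_simp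
  obtain ⟨k, hk, hkm⟩ : ∃ k, k < L ^ 2 ∧ ∑ i, md k i ≤ K / (L:ℝ) ^ 2 := by
    by_contra hcon
    push Not at hcon
    have hL2 : 0 < L ^ 2 := by positivity
    have h1 : ∑ _k ∈ range (L ^ 2), (K:ℝ) / (L:ℝ) ^ 2 < ∑ k ∈ range (L ^ 2), ∑ i, md k i :=
      sum_lt_sum_of_nonempty ⟨0, mem_range.mpr hL2⟩ fun k hk => hcon k (mem_range.mp hk)
    rw [sum_const, card_range, nsmul_eq_mul] at h1
    have h2 : ((L ^ 2 : ℕ) : ℝ) * ((K:ℝ) / (L:ℝ) ^ 2) = K := by push_cast; field_simp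
    linarith
  -- the block
  obtain ⟨t, ht⟩ : ∃ t : ℕ, t = D ^ (2 * k + 1) := ⟨_, rfl⟩
  have ht0 : 0 < t := by rw [ht]; positivity
  obtain ⟨b, hb⟩ : ∃ b : ℕ, b = D ^ (4 * L ^ 2 - (4 * k + 2)) := ⟨_, rfl⟩
  have hb0 : 0 < b := by rw [hb]; positivity
  have hbt : b * t ^ 2 = D ^ (4 * L ^ 2) := by
    rw [hb, ht, ← pow_mul, ← pow_add]
    congr 1
    omega
  obtain ⟨E, hE⟩ : ∃ E : Fin b × Fin (t ^ 2) ≃ Fin (D ^ (4 * L ^ 2)), True :=
    ⟨finProdFinEquiv.trans (finCongr hbt), trivial⟩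
  obtain ⟨β, hβ⟩ : ∃ β : Fin b, ∑ i, md k (E (β, i)) ≤ (t:ℝ) ^ 2 / (L:ℝ) ^ 2 := by
    by_contra hcon
    push Not at hcon
    have hne' : Nonempty (Fin b) := ⟨⟨0, hb0⟩⟩
    have h1 : ∑ _β : Fin b, (t:ℝ) ^ 2 / (L:ℝ) ^ 2 < ∑ β : Fin b, ∑ i, md k (E (β, i)) :=
      sum_lt_sum_of_nonempty univ_nonempty fun β _ => hcon β
    rw [← Fintype.sum_prod_type' (f := fun β i => md k (E (β, i))),
      E.sum_comp (fun i => md k i), sum_const, card_univ, Fintype.card_fin, nsmul_eq_mul] at h1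
    have h2 : (b:ℝ) * ((t:ℝ) ^ 2 / (L:ℝ) ^ 2) = K / (L:ℝ) ^ 2 := by
      rw [hK, ← hbt]; push_cast; ring
    linarith
  have hinj : Function.Injective fun i : Fin (t ^ 2) => E (β, i) := by
    intro i i' h
    have := E.injective h
    exact (Prod.ext_iff.mp this).2
  have hts : (t:ℝ) = (D:ℝ) ^ (2 * k + 1) := by rw [ht]; push_cast; ring
  obtain ⟨A, B, s, a, τ, z, hdat⟩ := block hX hC₄ hc₀ hc₀' hθ C₁ hC₁ L D hL hD t ht0
    (fun i => (1 / ρ) • e (E (β, i))) (fun i => ρ • φ (E (β, i)))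
    (by
      intro i
      rw [LinearMap.smul_apply, map_smul, hS.bi, smul_eq_mul, smul_eq_mul]
      field_simp)
    (by
      intro i j hij
      rw [LinearMap.smul_apply, map_smul, hS.bi' _ _ (fun h => hij (hinj h)), smul_zero,
        smul_zero])
    (by
      intro ε η w
      have h1 := hS.sys (t ^ 2) (fun i => E (β, i)) hinj ε η w
      have h2 : ∑ i, sg (ε i) * (ρ • φ (E (β, i))) w =
          ρ * ∑ i, sg (ε i) * φ (E (β, i)) w := by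
        rw [mul_sum]
        apply sum_congr rfl
        intro i _
        rw [LinearMap.smul_apply, smul_eq_mul]
        ring
      have h3 : ∑ i, sg (η i) • ((1 / ρ) • e (E (β, i))) =
          (1 / ρ) • ∑ i, sg (η i) • e (E (β, i)) := by
        rw [smul_sum]
        apply sum_congr rfl
        intro i _
        rw [smul_comm]
      rw [h2, h3, abs_mul, norm_smul, Real.norm_of_nonneg (by positivity), abs_of_pos hρ0]
      calc ρ * |∑ i, sg (ε i) * φ (E (β, i)) w| * (1 / ρ * ‖∑ i, sg (η i) • e (E (β, i))‖) =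
          |∑ i, sg (ε i) * φ (E (β, i)) w| * ‖∑ i, sg (η i) • e (E (β, i))‖ := by field_simp
        _ ≤ C₁ * ((t ^ 2 : ℕ) : ℝ) * ‖w‖ := h1
        _ = _ := by push_cast; ring)
    (by intro i; rw [hqx]; exact hQ2 _)
    (by intro i; rw [hqx]; exact hQ1 _)
    (by
      refine le_trans (le_of_eq ?_) hβ
      apply sum_congr rfl
      intro i _
      rw [hmd]
      have h1 : (t:ℝ) / D = (D:ℝ) ^ (2 * k) := by rw [hts, pow_succ]; field_simp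
      have h2 : (t:ℝ) * D = (D:ℝ) ^ (2 * k + 2) := by rw [hts]; ring
      rw [h1, h2])
  exact ⟨t, A, B, s, a, τ, z, hdat⟩

end

end Run7.h288
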