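import Pool.Agent.Run7.h288.ToDat

/-!
Statement: a complemented subspace with a 2-symmetric basis gives a system.
-/

set_option autoImplicit false

namespace Run7.h288

def S_Sys : Prop :=
  ∀ (X : Type) [NormedAddCommGroup X] [NormedSpace ℝ X] (k K : ℕ) (C : ℝ) (hK : K ≤ k)
    (e : Fin k → X), LinearIndependent ℝ e →
    ∀ P : X →L[ℝ] X, (∀ x : X, P x ∈ Submodule.span ℝ (Set.range e)) →
      (∀ y ∈ Submodule.span ℝ (Set.range e), P y = y) → ‖P‖ ≤ C →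
      (∀ σ : Equiv.Perm (Fin k), ∀ ε : Fin k → ℝ, (∀ i, ε i = 1 ∨ ε i = -1) →
        ∀ a : Fin k → ℝ, ‖∑ i, (ε i * a i) • e (σ i)‖ ≤ 2 * ‖∑ i, a i • e i‖) →
      ∃ φ : Fin K → X →ₗ[ℝ] ℝ, Sys X K (2 * C) (fun i => e (Fin.castLE hK i)) φ

end Run7.h288
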