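import Pool.Agent.Run7.h288.Exists
import Pool.Agent.Run7.h288.Select
import Pool.Agent.Run7.h288.SysStm

/-!
The final assembly.
-/

set_option autoImplicit false

open Finset Filter Topology

namespace Run7.h288

theorem Sys.mono {X : Type} [NormedAddCommGroup X] [NormedSpace ℝ X] {K : ℕ} {C C' : ℝ}
    {e : Fin K → X} {φ : Fin K → X →ₗ[ℝ] ℝ} (h : C ≤ C') (hS : Sys X K C e φ) :
    Sys X K C' e φ := by
  refine ⟨hS.bi, hS.bi', hS.en, fun r u hu ε η x => (hS.sys r u hu ε η x).trans ?_⟩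
  apply mul_le_mul_of_nonneg_right _ (norm_nonneg _)
  exact mul_le_mul_of_nonneg_right h (Nat.cast_nonneg _)

theorem main (hRM : S_RM) (hSys : S_Sys) :
    ¬ (∃ C : ℝ, ∃ k : ℕ → ℕ, Tendsto k atTop atTop ∧
      ∀ n : ℕ, ∀ (X : Type) [NormedAddCommGroup X] [NormedSpace ℝ X],
        Module.finrank ℝ X = n →
        ∃ e : Fin (k n) → X, LinearIndependent ℝ e ∧
          (∃ P : X →L[ℝ] X,
              (∀ x : X, P x ∈ Submodule.span ℝ (Set.range e)) ∧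
              (∀ y ∈ Submodule.span ℝ (Set.range e), P y = y) ∧
              ‖P‖ ≤ C) ∧
          ∀ σ : Equiv.Perm (Fin (k n)), ∀ ε : Fin (k n) → ℝ,
            (∀ i, ε i = 1 ∨ ε i = -1) →
            ∀ a : Fin (k n) → ℝ,
              ‖∑ i, (ε i * a i) • e (σ i)‖ ≤ 2 * ‖∑ i, a i • e i‖) := by
  rintro ⟨C, k, hk, h⟩
  obtain ⟨C₄, c₀, θ, hC₄, hc₀, hc₀', hθ, hspace⟩ := exists_space hRM
  obtain ⟨l, hl, L, D, hL, hD, hcore⟩ := core (max (2 * C) 1) C₄ c₀ θ (le_max_right _ _) hC₄ hc₀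
    hc₀' hθ
  obtain ⟨n₀, hn₀⟩ := (tendsto_atTop_atTop.mp hk) (D ^ (4 * L ^ 2))
  obtain ⟨n, hn, X, iX, iX', J, iJ, m, ι, hfin, hgood⟩ := hspace l n₀ hl
  obtain ⟨e, he, ⟨P, hP1, hP2, hP3⟩, hsym⟩ := h n X hfin
  obtain ⟨φ, hφ⟩ := hSys X (k n) (D ^ (4 * L ^ 2)) C (hn₀ n hn) e he P hP1 hP2 hP3 hsym
  obtain ⟨t, A, B, s, a, τ, z, hdat⟩ := sys_to_dat hgood hC₄ hc₀ hc₀' hθ (max (2 * C) 1)
    (le_max_right _ _) L D hL hD _ φ (hφ.mono (le_max_left _ _))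
  exact hcore (Fin (t ^ 2)) J m A B s a τ z hdat

end Run7.h288
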