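import Pool.Agent.Run7.h288.Core

/-!
The norm of the random combinations is much larger than their L2-size.
-/

set_option autoImplicit false

open Finset

namespace Run7.h288

variable {I J : Type} [Fintype I] [DecidableEq I] [Fintype J]

namespace Dat

variable {m : ℕ} {l A B C₁ C₄ c₀ θ L D s : ℝ} {a : I → J → ℝ} {τ z : (I → Bool) → J → ℝ}

omit [DecidableEq I] [Fintype J] in
theorem sum_split (a : I → J → ℝ) (D : ℝ) (j : J) (hj : ∀ i, |a i j| ≤ D) :
    ∑ i, a i j ^ 2 = hh D a j ^ 2 + ∑ i, ind (1 / D < |a i j| ∧ |a i j| ≤ D) * a i j ^ 2 := by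
  rw [hh_sq, ← sum_add_distrib]
  apply sum_congr rfl
  intro i _
  unfold sm
  by_cases h15 : 1 / D < |a i j|
  · rw [ind_true h15, ind_true ⟨h15, hj i⟩]; ring
  · rw [ind_false h15, ind_false (fun h => h15 h.1)]; ring

omit [DecidableEq I] [Fintype J] in
theorem hh_sq_le (a : I → J → ℝ) (D : ℝ) (j : J) : hh D a j ^ 2 ≤ ∑ i, a i j ^ 2 := by
  rw [hh_sq]
  exact sum_le_sum fun i _ => sm_sq_le _ _

theorem total (h : Dat I J m l A B C₁ C₄ c₀ θ L D s a τ z) :
    ∑ j, ∑ i, a i j ^ 2 = Fintype.card J * s ^ 2 := by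
  rw [sum_comm, ← h.hs, mul_sum]
  apply sum_congr rfl
  intro i _
  have hN := h.Npos
  unfold Av
  field_simp

theorem s_pos (h : Dat I J m l A B C₁ C₄ c₀ θ L D s a τ z) : 0 < s := by
  have h1 := h.hs0
  have h2 := h.hl
  have : 0 < 1 / (2 * l) := by positivity
  linarith

theorem few_big (h : Dat I J m l A B C₁ C₄ c₀ θ L D s a τ z) :
    ∑ j, ind (∃ i, D < |a i j|) ≤ Fintype.card J * s ^ 2 / D ^ 2 := by
  have hD := h.hD
  rw [le_div_iff₀ (by positivity), ← h.total, sum_mul]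
  apply sum_le_sum
  intro j _
  by_cases hj : ∃ i, D < |a i j|
  · rw [ind_true hj, one_mul]
    obtain ⟨i, hi⟩ := hj
    calc D ^ 2 ≤ a i j ^ 2 := by rw [← sq_abs (a i j)]; exact pow_le_pow_left₀ hD.le hi.le 2
      _ ≤ _ := single_le_sum (f := fun i => a i j ^ 2) (fun i _ => sq_nonneg _) (mem_univ i)
  · rw [ind_false hj, zero_mul]
    exact sum_nonneg fun i _ => sq_nonneg _

theorem sum_mid (h : Dat I J m l A B C₁ C₄ c₀ θ L D s a τ z) :
    ∑ j, ∑ i, ind (1 / D < |a i j| ∧ |a i j| ≤ D) * a i j ^ 2 ≤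
      Fintype.card J * (1 / L ^ 2) := by
  have hN := h.Npos
  have h4 : ∑ j, ∑ i, ind (1 / D < |a i j| ∧ |a i j| ≤ D) * a i j ^ 2 =
      Fintype.card J * ∑ i, Av (fun j => ind (1 / D < |a i j| ∧ |a i j| ≤ D) * a i j ^ 2) := by
    rw [sum_comm, mul_sum]
    apply sum_congr rfl
    intro i _
    unfold Av
    field_simp
  rw [h4]
  exact mul_le_mul_of_nonneg_left h.hmid hN.le

theorem inv_A_sq (h : Dat I J m l A B C₁ C₄ c₀ θ L D s a τ z) : 1 / (4 * A ^ 2) ≤ l ^ 2 := by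
  have h1 := h.hs0
  have h2 := h.hsA
  have h3 := h.hl
  have h4 := h.hA0
  rw [div_le_iff₀ (by positivity)]
  have h5 : 1 / (2 * l) ≤ A := h1.trans h2
  rw [div_le_iff₀ (by positivity)] at h5
  nlinarith

/-- **Property I.** -/
theorem A_large (h : Dat I J m l A B C₁ C₄ c₀ θ L D s a τ z) (γ T : ℝ) (hγ : 0 < γ) (hT : 1 ≤ T)
    (hTγ : 8 * γ / c₀ ≤ T) (n1 : 1 / l ≤ θ / 2) (n2 : 4 * l ^ 2 / D ^ 2 ≤ θ / 2)
    (n3 : 8 * l ^ 2 / c₀ ≤ L ^ 2) (n4 : 16 * T * l / c₀ ≤ D) (n5 : l ^ 4 ≤ L ^ 2)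
    (n6 : 8 < pT T * c₀ * l) : γ * s ≤ A := by
  by_contra hcon
  push Not at hcon
  have hN := h.Npos
  have hs := h.s_pos
  have hl := h.hl
  have hl0 : 0 < l := by linarith
  have hc₀ := h.hc₀
  have hc₀' := h.hc₀'
  have hD := h.hD
  have hL := h.hL
  have hA0 := h.hA0
  have hs0 := h.hs0
  have hs1 := h.hs1
  set N : ℝ := ((Fintype.card J : ℕ) : ℝ) with hNdef
  set p : J → Prop := fun j => l * s ^ 2 < hh D a j ^ 2 ∨ ∃ i, D < |a i j| with hp
  have hp1 : ∑ j, ind (l * s ^ 2 < hh D a j ^ 2) ≤ N / l := by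
    rw [le_div_iff₀ hl0]
    have h2 : (∑ j, ind (l * s ^ 2 < hh D a j ^ 2)) * (l * s ^ 2) ≤ N * s ^ 2 := by
      rw [← h.total, sum_mul]
      apply sum_le_sum
      intro j _
      refine le_trans ?_ (hh_sq_le a D j)
      by_cases hj : l * s ^ 2 < hh D a j ^ 2
      · rw [ind_true hj]; linarith
      · rw [ind_false hj, zero_mul]; positivity
    have h3 : 0 < s ^ 2 := by positivity
    nlinarith
  have hp2 : ∑ j, ind (∃ i, D < |a i j|) ≤ N * (θ / 2) := by
    refine h.few_big.trans ?_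
    rw [← hNdef, mul_div_assoc]
    apply mul_le_mul_of_nonneg_left _ hN.le
    refine le_trans ?_ n2
    apply div_le_div_of_nonneg_right _ (by positivity)
    nlinarith
  have hpsum : ∑ j, ind (p j) ≤ θ * N := by
    calc ∑ j, ind (p j) ≤ ∑ j, (ind (l * s ^ 2 < hh D a j ^ 2) + ind (∃ i, D < |a i j|)) :=
          sum_le_sum fun j _ => ind_le_add fun h => h
      _ = ∑ j, ind (l * s ^ 2 < hh D a j ^ 2) + ∑ j, ind (∃ i, D < |a i j|) := sum_add_distrib
      _ ≤ N / l + N * (θ / 2) := add_le_add hp1 hp2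
      _ ≤ N * (θ / 2) + N * (θ / 2) := by
          have : N / l = N * (1 / l) := by ring
          rw [this]
          have := mul_le_mul_of_nonneg_left n1 hN.le
          linarith
      _ = θ * N := by ring
  have hW := h.hW p hpsum
  have hW2 : c₀ * (N * s ^ 2) ≤ ∑ j, (1 - ind (p j)) * ∑ i, a i j ^ 2 := by
    have h1 : ∑ i, (c₀ * ∑ j, a i j ^ 2) ≤ ∑ i, ∑ j, (1 - ind (p j)) * a i j ^ 2 :=
      sum_le_sum fun i _ => hW i
    rw [← mul_sum, sum_comm, h.total, sum_comm] at h1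
    refine h1.trans (le_of_eq ?_)
    apply sum_congr rfl
    intro j _
    rw [mul_sum]
  set G : J → Prop := fun j => ¬ p j ∧ c₀ ^ 2 * s ^ 2 / 4 ≤ hh D a j ^ 2 with hG
  have hG0 : ∑ j, (1 - ind (p j)) * ∑ i, a i j ^ 2 ≤
      ∑ j, (ind (G j) * (l * s ^ 2) + c₀ * s ^ 2 / 4 +
        ∑ i, ind (1 / D < |a i j| ∧ |a i j| ≤ D) * a i j ^ 2) := by
    apply sum_le_sum
    intro j _
    have hmid0 : 0 ≤ ∑ i, ind (1 / D < |a i j| ∧ |a i j| ≤ D) * a i j ^ 2 :=
      sum_nonneg fun i _ => mul_nonneg (ind_nonneg _) (sq_nonneg _)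
    have hc : 0 ≤ c₀ * s ^ 2 / 4 := by positivity
    have hls : 0 ≤ l * s ^ 2 := by positivity
    by_cases hpj : p j
    · rw [ind_true hpj, sub_self, zero_mul]
      have := mul_nonneg (ind_nonneg (G j)) hls
      linarith
    · rw [ind_false hpj, sub_zero, one_mul]
      have hpj' : ∀ i, |a i j| ≤ D := by
        intro i
        by_contra hcon2
        exact hpj (Or.inr ⟨i, not_le.mp hcon2⟩)
      rw [sum_split a D j hpj']
      by_cases hGj : G j
      · rw [ind_true hGj, one_mul]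
        have : hh D a j ^ 2 ≤ l * s ^ 2 := by
          by_contra hcon2
          exact hpj (Or.inl (not_le.mp hcon2))
        linarith
      · rw [ind_false hGj, zero_mul]
        have h3 : hh D a j ^ 2 < c₀ ^ 2 * s ^ 2 / 4 := by
          by_contra hcon2
          exact hGj ⟨hpj, not_lt.mp hcon2⟩
        have h4 : c₀ ^ 2 * s ^ 2 / 4 ≤ c₀ * s ^ 2 / 4 := by
          have : c₀ ^ 2 ≤ c₀ := by nlinarith
          have := mul_le_mul_of_nonneg_right this (sq_nonneg s)
          linarith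
        linarith
  rw [sum_add_distrib, sum_add_distrib, ← sum_mul, sum_const, card_univ, nsmul_eq_mul] at hG0
  have hmid := h.sum_mid
  rw [← hNdef] at hG0 hmid
  set g : ℝ := ∑ j, ind (G j) with hg
  have hs2 : 1 / (4 * l ^ 2) ≤ s ^ 2 := by
    have : (1 / (2 * l)) ^ 2 ≤ s ^ 2 := pow_le_pow_left₀ (by positivity) hs0 2
    calc 1 / (4 * l ^ 2) = (1 / (2 * l)) ^ 2 := by rw [div_pow]; ring
      _ ≤ _ := this
  have hL2 : N * (1 / L ^ 2) ≤ N * (c₀ * s ^ 2 / 2) := by
    apply mul_le_mul_of_nonneg_left _ hN.le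
    calc 1 / L ^ 2 ≤ 1 / (8 * l ^ 2 / c₀) := one_div_le_one_div_of_le (by positivity) n3
      _ = c₀ * (1 / (4 * l ^ 2)) / 2 := by field_simp; norm_num
      _ ≤ c₀ * s ^ 2 / 2 := by
          have := mul_le_mul_of_nonneg_left hs2 hc₀.le
          linarith
  have hg1 : c₀ * N / 4 ≤ g * l := by
    have h3 : 0 < s ^ 2 := by positivity
    have h4 : (c₀ * N / 4) * s ^ 2 ≤ (g * l) * s ^ 2 := by nlinarith
    exact le_of_mul_le_mul_right h4 h3
  -- apply the counting lemma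
  have hhlow : ∀ j, G j → c₀ * s / 2 ≤ hh D a j := by
    intro j hj
    have h3 := hj.2
    have h4 : (c₀ * s / 2) ^ 2 ≤ hh D a j ^ 2 := by
      calc (c₀ * s / 2) ^ 2 = c₀ ^ 2 * s ^ 2 / 4 := by ring
        _ ≤ _ := h3
    exact le_of_sq_le_sq h4 (hh_nonneg D a j)
  have hcount := h.count T hT G ?_ ?_ ?_
  · rw [← hNdef] at hcount
    have hm : (m:ℝ) = N / l ^ 2 := by
      rw [hNdef, h.hJ]; field_simp
    have h3 : N * (1 / L ^ 2) / (4 * A ^ 2) ≤ N / l ^ 2 := by
      have h4 := h.inv_A_sq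
      calc N * (1 / L ^ 2) / (4 * A ^ 2) = N * (1 / L ^ 2) * (1 / (4 * A ^ 2)) := by ring
        _ ≤ N * (1 / L ^ 2) * l ^ 2 := mul_le_mul_of_nonneg_left h4 (by positivity)
        _ ≤ N * (1 / l ^ 4) * l ^ 2 := by
            apply mul_le_mul_of_nonneg_right _ (by positivity)
            apply mul_le_mul_of_nonneg_left _ hN.le
            exact one_div_le_one_div_of_le (by positivity) n5
        _ = N / l ^ 2 := by field_simp
    have hpT := pT_pos T
    have h5 : pT T * g ≤ 2 * N / l ^ 2 := by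
      calc pT T * g ≤ m + N * (1 / L ^ 2) / (4 * A ^ 2) := hcount
        _ ≤ N / l ^ 2 + N / l ^ 2 := by rw [hm]; linarith
        _ = 2 * N / l ^ 2 := by ring
    rw [le_div_iff₀ (by positivity)] at h5
    have h6 : pT T * (c₀ * N / 4) * l ≤ pT T * (g * l) * l :=
      mul_le_mul_of_nonneg_right (mul_le_mul_of_nonneg_left hg1 hpT.le) hl0.le
    have h7 : pT T * c₀ * l * N ≤ 8 * N := by
      calc pT T * c₀ * l * N = 4 * (pT T * (c₀ * N / 4) * l) := by ring
        _ ≤ 4 * (pT T * (g * l) * l) := mul_le_mul_of_nonneg_left h6 (by norm_num)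
        _ = 4 * (pT T * g * l ^ 2) := by ring
        _ ≤ 4 * (2 * N) := mul_le_mul_of_nonneg_left h5 (by norm_num)
        _ = 8 * N := by ring
    have h8 : pT T * c₀ * l ≤ 8 := le_of_mul_le_mul_right h7 hN
    exact absurd n6 (not_lt.mpr h8)
  · intro j hj i
    by_contra hcon2
    exact hj.1 (Or.inr ⟨i, not_le.mp hcon2⟩)
  · intro j hj
    have h3 := hhlow j hj
    have h4 : 8 * γ ≤ T * c₀ := by rwa [div_le_iff₀ hc₀] at hTγ
    calc 4 * A ≤ 4 * (γ * s) := by linarith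
      _ = (8 * γ) * s / 2 := by ring
      _ ≤ (T * c₀) * s / 2 := by
          have := mul_le_mul_of_nonneg_right h4 hs.le
          linarith
      _ = T * (c₀ * s / 2) := by ring
      _ ≤ _ := mul_le_mul_of_nonneg_left h3 (by linarith)
  · intro j hj
    have h3 := hhlow j hj
    have hT0 : 0 < T := by linarith
    calc 1 / D ≤ 1 / (16 * T * l / c₀) := one_div_le_one_div_of_le (by positivity) n4
      _ = (c₀ * (1 / (2 * l)) / 2) / (4 * T) := by field_simp; norm_num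
      _ ≤ (c₀ * s / 2) / (4 * T) := by
          apply div_le_div_of_nonneg_right _ (by positivity)
          have := mul_le_mul_of_nonneg_left hs0 hc₀.le
          linarith
      _ ≤ _ := div_le_div_of_nonneg_right h3 (by positivity)

end Dat

end Run7.h288
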