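import Pool.Agent.Run7.h288.Cube

/-!
The norm: the maximum of a normalised Euclidean norm and of the averages over sets of `m`
coordinates, on the image of a given injective linear map; representation of its functionals.
-/

set_option autoImplicit false

open Finset

namespace Run7.h288

section norm

variable (J : Type) [Fintype J] (m : ℕ)

/-- index set of the second part of the norm -/
abbrev Idx : Type := {A : Finset J // A.card = m} × (J → Bool)

/-- the ambient space -/
abbrev Amb : Type := EuclideanSpace ℝ J × (Idx J m → ℝ)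

noncomputable instance instFintypeIdx : Fintype (Idx J m) := by
  classical
  exact inferInstance

/-- the embedding into the ambient space -/
noncomputable def Phi : (J → ℝ) →ₗ[ℝ] Amb J m where
  toFun z := (WithLp.toLp 2 (fun j => (1 / √(Fintype.card J)) * z j),
    fun a => (1 / (m:ℝ)) * ∑ j ∈ a.1.1, sg (a.2 j) * z j)
  map_add' z z' := by
    apply Prod.ext
    · ext j
      simp [mul_add]
    · funext a
      simp [mul_add, sum_add_distrib]
  map_smul' c z := by
    apply Prod.ext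
    · ext j
      simp
      ring
    · funext a
      simp only [Pi.smul_apply, smul_eq_mul, RingHom.id_apply, Prod.smul_snd]
      rw [mul_sum, mul_sum, mul_sum]
      apply sum_congr rfl
      intro j _
      ring

/-- the left inverse -/
noncomputable def prJ : Amb J m →ₗ[ℝ] (J → ℝ) where
  toFun x := fun j => √(Fintype.card J) * x.1 j
  map_add' x y := by
    funext j
    simp [mul_add]
  map_smul' c x := by
    funext j
    simp
    ring

variable {J m}

theorem prJ_Phi (hJ : 0 < Fintype.card J) (z : J → ℝ) : prJ J m (Phi J m z) = z := by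
  funext j
  have h : (0:ℝ) < √(Fintype.card J) := Real.sqrt_pos.mpr (by exact_mod_cast hJ)
  change √(Fintype.card J) * ((1 / √(Fintype.card J)) * z j) = z j
  field_simp

theorem Phi_fst_sq (hJ : 0 < Fintype.card J) (z : J → ℝ) :
    ‖(Phi J m z).1‖ ^ 2 = Av (fun j => z j ^ 2) := by
  have h : (0:ℝ) < Fintype.card J := by exact_mod_cast hJ
  rw [EuclideanSpace.real_norm_sq_eq]
  change ∑ j, ((1 / √(Fintype.card J)) * z j) ^ 2 = _
  unfold Av
  rw [sum_div]
  apply sum_congr rfl
  intro j _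
  rw [mul_pow, div_pow, Real.sq_sqrt h.le]
  ring

theorem Phi_snd (z : J → ℝ) (a : Idx J m) :
    (Phi J m z).2 a = (1 / (m:ℝ)) * ∑ j ∈ a.1.1, sg (a.2 j) * z j := rfl

theorem Phi_n1 (hJ : 0 < Fintype.card J) (z : J → ℝ) :
    Av (fun j => z j ^ 2) ≤ ‖Phi J m z‖ ^ 2 := by
  rw [← Phi_fst_sq (m := m) hJ]
  exact pow_le_pow_left₀ (norm_nonneg _) (norm_fst_le _) 2

theorem Phi_n2 (hm : 0 < m) (hmJ : m ≤ Fintype.card J) (z : J → ℝ) (S : Finset J)
    (hS : S.card ≤ m) : ∑ j ∈ S, |z j| ≤ m * ‖Phi J m z‖ := by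
  classical
  have hm0 : (0:ℝ) < m := by exact_mod_cast hm
  obtain ⟨A, hSA, -, hA⟩ := Finset.exists_subsuperset_card_eq (subset_univ S) hS
    (by rw [card_univ]; exact hmJ)
  obtain ⟨σ, hσ⟩ : ∃ σ : J → Bool, ∀ j, sg (σ j) * z j = |z j| := by
    refine ⟨fun j => decide (0 ≤ z j), fun j => ?_⟩
    by_cases h : 0 ≤ z j
    · simp [h, abs_of_nonneg h]
    · push Not at h
      simp [not_le.mpr h, abs_of_neg h]
  have h1 : (Phi J m z).2 (⟨A, hA⟩, σ) = (1 / (m:ℝ)) * ∑ j ∈ A, |z j| := by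
    rw [Phi_snd]
    simp only [hσ]
  have h2 : |(Phi J m z).2 (⟨A, hA⟩, σ)| ≤ ‖Phi J m z‖ := by
    rw [← Real.norm_eq_abs]
    exact (norm_le_pi_norm _ _).trans (norm_snd_le _)
  rw [h1, abs_of_nonneg (mul_nonneg (by positivity) (sum_nonneg fun _ _ => abs_nonneg _))] at h2
  calc ∑ j ∈ S, |z j| ≤ ∑ j ∈ A, |z j| :=
        sum_le_sum_of_subset_of_nonneg hSA fun _ _ _ => abs_nonneg _
    _ = m * ((1 / (m:ℝ)) * ∑ j ∈ A, |z j|) := by field_simp
    _ ≤ _ := mul_le_mul_of_nonneg_left h2 hm0.le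

theorem Phi_n4 (l : ℕ) (hl : 1 ≤ l) (hm : 0 < m) (hJ : Fintype.card J = l ^ 2 * m) (z : J → ℝ) :
    ‖Phi J m z‖ ^ 2 ≤ (l:ℝ) ^ 2 * Av (fun j => z j ^ 2) := by
  have hm0 : (0:ℝ) < m := by exact_mod_cast hm
  have hl1 : (1:ℝ) ≤ l := by exact_mod_cast hl
  have hJc : (Fintype.card J : ℝ) = (l:ℝ) ^ 2 * m := by rw [hJ]; push_cast; ring
  have hJpos : 0 < Fintype.card J := by rw [hJ]; positivity
  have hJpos' : (0:ℝ) < Fintype.card J := by exact_mod_cast hJpos
  have hav : 0 ≤ Av (fun j => z j ^ 2) := Av_nonneg fun _ => sq_nonneg _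
  have hR : 0 ≤ (l:ℝ) ^ 2 * Av (fun j => z j ^ 2) := by positivity
  have h1 : ‖Phi J m z‖ ≤ √((l:ℝ) ^ 2 * Av (fun j => z j ^ 2)) := by
    rw [Prod.norm_def]
    apply max_le
    · apply Real.le_sqrt_of_sq_le
      rw [Phi_fst_sq hJpos]
      exact le_mul_of_one_le_left hav (by nlinarith)
    · rw [pi_norm_le_iff_of_nonneg (Real.sqrt_nonneg _)]
      intro a
      rw [Real.norm_eq_abs]
      apply Real.abs_le_sqrt
      rw [Phi_snd, mul_pow]
      have h2 := sum_mul_sq_le_sq_mul_sq a.1.1 (fun j => sg (a.2 j)) z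
      simp_rw [sg_sq] at h2
      rw [sum_const, a.1.2, nsmul_eq_mul, mul_one] at h2
      have h3 : ∑ j ∈ a.1.1, z j ^ 2 ≤ ∑ j, z j ^ 2 :=
        sum_le_sum_of_subset_of_nonneg (subset_univ _) fun _ _ _ => sq_nonneg _
      have h4 : (l:ℝ) ^ 2 * Av (fun j => z j ^ 2) = (1 / (m:ℝ)) * ∑ j, z j ^ 2 := by
        unfold Av
        rw [hJc]
        field_simp
      rw [h4]
      calc (1 / (m:ℝ)) ^ 2 * (∑ j ∈ a.1.1, sg (a.2 j) * z j) ^ 2 ≤
          (1 / (m:ℝ)) ^ 2 * (m * ∑ j, z j ^ 2) := by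
            apply mul_le_mul_of_nonneg_left _ (by positivity)
            refine h2.trans (mul_le_mul_of_nonneg_left h3 hm0.le)
        _ = _ := by field_simp
  calc ‖Phi J m z‖ ^ 2 ≤ (√((l:ℝ) ^ 2 * Av (fun j => z j ^ 2))) ^ 2 :=
        pow_le_pow_left₀ (norm_nonneg _) h1 2
    _ = _ := Real.sq_sqrt hR

/-- representation of a functional bounded by a multiple of the norm of the ambient space -/
theorem rep (l : ℕ) (hl : 1 ≤ l) (hm : 0 < m) (hJ : Fintype.card J = l ^ 2 * m) (B : ℝ)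
    (hB : 0 < B) (g : Amb J m →ₗ[ℝ] ℝ) (hg : ∀ x, |g x| ≤ B * ‖x‖) :
    ∃ τ z : J → ℝ, (∀ w : J → ℝ, g (Phi J m w) = Av (fun j => (τ j + z j) * w j)) ∧
      Av (fun j => z j ^ 2) ≤ B ^ 2 ∧ (∀ j, |τ j| ≤ (l:ℝ) ^ 2 * B) ∧ Av (fun j => |τ j|) ≤ B := by
  classical
  have hm0 : (0:ℝ) < m := by exact_mod_cast hm
  have hl1 : (1:ℝ) ≤ l := by exact_mod_cast hl
  have hJc : (Fintype.card J : ℝ) = (l:ℝ) ^ 2 * m := by rw [hJ]; push_cast; ring
  have hJpos : 0 < Fintype.card J := by rw [hJ]; positivity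
  have hJpos' : (0:ℝ) < Fintype.card J := by exact_mod_cast hJpos
  have hsN : 0 < √(Fintype.card J : ℝ) := Real.sqrt_pos.mpr hJpos'
  have hsN2 : √(Fintype.card J : ℝ) ^ 2 = Fintype.card J := Real.sq_sqrt hJpos'.le
  obtain ⟨y, hy⟩ : ∃ y : J → ℝ, ∀ j, y j = g (EuclideanSpace.single j (1:ℝ), 0) :=
    ⟨_, fun _ => rfl⟩
  obtain ⟨c, hc⟩ : ∃ c : Idx J m → ℝ, ∀ a, c a = g (0, Pi.single a (1:ℝ)) := ⟨_, fun _ => rfl⟩
  have hg1 : ∀ x : EuclideanSpace ℝ J, g (x, 0) = ∑ j, x j * y j := by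
    intro x
    have h1 : (x, (0 : Idx J m → ℝ)) =
        ∑ j, x j • ((EuclideanSpace.single j (1:ℝ), 0) : Amb J m) := by
      apply Prod.ext
      · rw [Prod.fst_sum]
        ext k
        simp [Pi.single_apply, mul_comm]
      · rw [Prod.snd_sum]
        simp
    rw [h1, map_sum]
    apply sum_congr rfl
    intro j _
    rw [map_smul, hy, smul_eq_mul]
  have hg2 : ∀ v : Idx J m → ℝ, g (0, v) = ∑ a, v a * c a := by
    intro v
    have h1 : ((0 : EuclideanSpace ℝ J), v) =
        ∑ a, v a • ((0, Pi.single a (1:ℝ)) : Amb J m) := by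
      apply Prod.ext
      · rw [Prod.fst_sum]
        simp
      · rw [Prod.snd_sum]
        funext b
        simp [Pi.single_apply]
    rw [h1, map_sum]
    apply sum_congr rfl
    intro j _
    rw [map_smul, hc, smul_eq_mul]
  have hyB : ∑ j, y j ^ 2 ≤ B ^ 2 := by
    obtain ⟨x, hx⟩ : ∃ x : EuclideanSpace ℝ J, ∀ j, x j = y j := ⟨WithLp.toLp 2 y, fun _ => rfl⟩
    have h1 : ‖x‖ ^ 2 = ∑ j, y j ^ 2 := by
      rw [EuclideanSpace.real_norm_sq_eq]
      simp_rw [hx]
    have h2 := hg (x, 0)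
    rw [hg1] at h2
    simp_rw [hx, ← sq] at h2
    rw [← h1, Prod.norm_def, norm_zero, max_eq_left (norm_nonneg _),
      abs_of_nonneg (sq_nonneg _)] at h2
    rw [← h1]
    rcases (norm_nonneg x).eq_or_lt with h3 | h3
    · rw [← h3, zero_pow two_ne_zero]; positivity
    · have h4 : ‖x‖ ≤ B := by
        have : ‖x‖ * ‖x‖ ≤ B * ‖x‖ := by rw [← sq]; exact h2
        exact le_of_mul_le_mul_right this h3
      exact pow_le_pow_left₀ (norm_nonneg _) h4 2
  have hcB : ∑ a, |c a| ≤ B := by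
    obtain ⟨v, hv⟩ : ∃ v : Idx J m → ℝ, ∀ a, v a = if 0 ≤ c a then 1 else -1 := ⟨_, fun _ => rfl⟩
    have h1 := hg (0, v)
    rw [hg2] at h1
    have h2 : ∑ a, v a * c a = ∑ a, |c a| := by
      apply sum_congr rfl
      intro a _
      rw [hv]
      split_ifs with h3
      · rw [abs_of_nonneg h3, one_mul]
      · push Not at h3
        rw [abs_of_neg h3]; ring
    rw [h2, abs_of_nonneg (sum_nonneg fun _ _ => abs_nonneg _)] at h1
    refine h1.trans ?_
    have h3 : ‖((0 : EuclideanSpace ℝ J), v)‖ ≤ 1 := by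
      rw [Prod.norm_def, norm_zero]
      apply max_le (by norm_num)
      rw [pi_norm_le_iff_of_nonneg (by norm_num)]
      intro a
      change ‖v a‖ ≤ 1
      rw [hv]
      split_ifs <;> simp
    calc B * ‖((0 : EuclideanSpace ℝ J), v)‖ ≤ B * 1 := mul_le_mul_of_nonneg_left h3 hB.le
      _ = B := mul_one B
  refine ⟨fun j => (l:ℝ) ^ 2 * ∑ a : Idx J m, c a * (if j ∈ a.1.1 then sg (a.2 j) else 0),
    fun j => √(Fintype.card J : ℝ) * y j, ?_, ?_, ?_, ?_⟩
  · intro w
    have h1 : Phi J m w = ((Phi J m w).1, 0) + (0, (Phi J m w).2) := by simp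
    rw [h1, map_add, hg1, hg2]
    have h2 : ∑ j, (Phi J m w).1 j * y j = Av (fun j => (√(Fintype.card J : ℝ) * y j) * w j) := by
      unfold Av
      rw [sum_div]
      apply sum_congr rfl
      intro j _
      change (1 / √(Fintype.card J)) * w j * y j = _
      nth_rewrite 3 [← hsN2]
      field_simp
    have h3 : ∑ a, (Phi J m w).2 a * c a = Av (fun j =>
        ((l:ℝ) ^ 2 * ∑ a : Idx J m, c a * (if j ∈ a.1.1 then sg (a.2 j) else 0)) * w j) := by
      simp_rw [Phi_snd]
      unfold Av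
      have h4 : ∀ a : Idx J m, (1 / (m:ℝ)) * (∑ j ∈ a.1.1, sg (a.2 j) * w j) * c a =
          ∑ j, (1 / (m:ℝ)) * (c a * (if j ∈ a.1.1 then sg (a.2 j) else 0) * w j) := by
        intro a
        rw [mul_sum, sum_mul, ← sum_filter_add_sum_filter_not univ (fun j => j ∈ a.1.1)]
        have h5 : ∑ j with j ∉ a.1.1, (1 / (m:ℝ)) *
            (c a * (if j ∈ a.1.1 then sg (a.2 j) else 0) * w j) = 0 := by
          apply sum_eq_zero
          intro j hj
          rw [mem_filter] at hj
          rw [if_neg hj.2]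
          ring
        rw [h5, add_zero, filter_mem_eq_inter, univ_inter]
        apply sum_congr rfl
        intro j hj
        rw [if_pos hj]
        ring
      simp_rw [h4]
      rw [sum_comm, sum_div]
      apply sum_congr rfl
      intro j _
      rw [hJc, ← mul_sum, ← sum_mul]
      field_simp
    rw [h2, h3, ← Av_add]
    congr 1
    funext j
    ring
  · simp_rw [mul_pow, hsN2]
    unfold Av
    rw [← mul_sum]
    have : (Fintype.card J : ℝ) * ∑ i, y i ^ 2 / (Fintype.card J : ℝ) = ∑ i, y i ^ 2 := by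
      rw [← sum_div]; field_simp
    rw [mul_div_assoc, sum_div, this]
    exact hyB
  · intro j
    rw [abs_mul, abs_of_nonneg (by positivity)]
    apply mul_le_mul_of_nonneg_left _ (by positivity)
    calc |∑ a : Idx J m, c a * (if j ∈ a.1.1 then sg (a.2 j) else 0)| ≤
        ∑ a : Idx J m, |c a * (if j ∈ a.1.1 then sg (a.2 j) else 0)| := abs_sum_le_sum_abs _ _
      _ ≤ ∑ a, |c a| := by
          apply sum_le_sum
          intro a _
          rw [abs_mul]
          split_ifs
          · rw [abs_sg, mul_one]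
          · simp
      _ ≤ B := hcB
  · calc Av (fun j => |(l:ℝ) ^ 2 * ∑ a : Idx J m, c a * (if j ∈ a.1.1 then sg (a.2 j) else 0)|) ≤
        Av (fun j => (l:ℝ) ^ 2 * ∑ a : Idx J m, |c a| * (if j ∈ a.1.1 then 1 else 0)) := by
          apply Av_mono
          intro j
          rw [abs_mul, abs_of_nonneg (by positivity)]
          apply mul_le_mul_of_nonneg_left _ (by positivity)
          refine (abs_sum_le_sum_abs _ _).trans (sum_le_sum fun a _ => ?_)
          rw [abs_mul]
          split_ifs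
          · rw [abs_sg]
          · simp
      _ = (l:ℝ) ^ 2 * ∑ a : Idx J m, |c a| * ((m:ℝ) / Fintype.card J) := by
          rw [Av_mul_left, Av_sum]
          congr 1
          apply sum_congr rfl
          intro a _
          rw [Av_mul_left]
          congr 1
          unfold Av
          congr 1
          rw [sum_boole, filter_mem_eq_inter, univ_inter, a.1.2]
      _ = ∑ a, |c a| := by
          rw [← sum_mul, hJc]
          field_simp
      _ ≤ B := hcB

end norm

end Run7.h288
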